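import Pool.Agent.Helper89.BI.Gam

/-! # Module FUNCALC -/

set_option autoImplicit false

namespace Pool.Agent.Helper89.BI

open Pool.Agent.Helper13.Spl

universe u v w

variable {G : Type u} [Group G] {p : ℕ}

theorem IsFun.congr {c : ℕ} {χ : G → ZMod p} (h : IsFun c χ) {x y : G} (hy : y ∈ gam G c)
    (hxy : x * y⁻¹ ∈ gam G (c + 1)) : χ x = χ y := by
  have h1 : x = (x * y⁻¹) * y := by group
  have h2 : x * y⁻¹ ∈ gam G c := gam_anti (Nat.le_succ c) hxy
  rw [h1, h.add _ h2 _ hy, h.van _ hxy, zero_add]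

/-- invariance under conjugation -/
theorem IsFun.conj {c : ℕ} (hc : 1 ≤ c) {χ : G → ZMod p} (h : IsFun c χ) {y : G}
    (hy : y ∈ gam G c) (g : G) : χ (g * y * g⁻¹) = χ y := by
  apply h.congr hy
  have h1 : g * y * g⁻¹ * y⁻¹ = (com y g)⁻¹ := by rw [com_inv]; rfl
  rw [h1]
  exact Subgroup.inv_mem _ (gam_com_one hc hy g)

/-- additivity in the first variable -/
theorem IsFun.com_left {i j c : ℕ} (hi : 1 ≤ i) (hj : 1 ≤ j) (hij : i + j = c) {χ : G → ZMod p}
    (h : IsFun c χ) {g g' u : G} (hg : g ∈ gam G i) (hg' : g' ∈ gam G i) (hu : u ∈ gam G j) :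
    χ (com (g * g') u) = χ (com g u) + χ (com g' u) := by
  subst hij
  have e : com (g * g') u = (g * com g' u * g⁻¹) * com g u := by simp only [com_def]; group
  have h1 := gam_com hi hj hg hu
  have h2 := gam_com hi hj hg' hu
  have h3 : g * com g' u * g⁻¹ ∈ gam G (i + j) := (gam_normal (i + j)).conj_mem _ h2 g
  rw [e, h.add _ h3 _ h1, h.conj (by omega) h2, add_comm]

/-- additivity in the second variable -/
theorem IsFun.com_right {i j c : ℕ} (hi : 1 ≤ i) (hj : 1 ≤ j) (hij : i + j = c)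
    {χ : G → ZMod p} (h : IsFun c χ) {g u u' : G} (hg : g ∈ gam G i) (hu : u ∈ gam G j)
    (hu' : u' ∈ gam G j) :
    χ (com g (u * u')) = χ (com g u) + χ (com g u') := by
  subst hij
  have e : com g (u * u') = com g u * (u * com g u' * u⁻¹) := by simp only [com_def]; group
  have h1 := gam_com hi hj hg hu
  have h2 := gam_com hi hj hg hu'
  have h3 : u * com g u' * u⁻¹ ∈ gam G (i + j) := (gam_normal (i + j)).conj_mem _ h2 u
  rw [e, h.add _ h1 _ h3, h.conj (by omega) h2]

/-- skew symmetry -/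
theorem IsFun.skew {i j c : ℕ} (hi : 1 ≤ i) (hj : 1 ≤ j) (hij : i + j = c)
    {χ : G → ZMod p} (h : IsFun c χ) {g u : G} (hg : g ∈ gam G i) (hu : u ∈ gam G j) :
    χ (com u g) = - χ (com g u) := by
  subst hij
  rw [← com_inv, h.add.inv (gam_com hi hj hg hu)]

/-- `χ (com · x)` is a functional -/
theorem IsFun.der {i j c : ℕ} (hi : 1 ≤ i) (hj : 1 ≤ j) (hij : i + j = c)
    {χ : G → ZMod p} (h : IsFun c χ) {x : G} (hx : x ∈ gam G j) :
    IsFun i (fun g => χ (com g x)) := by
  refine ⟨?_, ?_⟩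
  · intro g hg g' hg'
    exact h.com_left hi hj hij hg hg' hx
  · intro g hg
    apply h.van
    have := gam_com (by omega) hj hg hx
    have e : i + 1 + j = c + 1 := by omega
    rwa [e] at this

/-- conjugating the second variable -/
theorem IsFun.com_conj {i j k c : ℕ} (hi : 1 ≤ i) (hj : 1 ≤ j) (hk : 1 ≤ k)
    (hij : i + k = c) {χ : G → ZMod p} (h : IsFun c χ) {g u x : G}
    (hg : g ∈ gam G i) (hu : u ∈ gam G j) (hx : x ∈ gam G k) :
    χ (com g (u * x * u⁻¹)) = χ (com g x) := by
  have e : u * x * u⁻¹ = com u x * x := by simp only [com_def]; group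
  have h1 : com u x ∈ gam G (j + k) := gam_com hj hk hu hx
  have h2 : com u x ∈ gam G k := gam_anti (by omega) h1
  have h3 : com g (com u x) ∈ gam G (c + 1) :=
    gam_anti (by omega) (gam_com hi (by omega) hg h1)
  rw [e, h.com_right hi hk hij hg h2 hx, h.van _ h3, zero_add]

/-- Jacobi identity (Hall-Witt) -/
theorem IsFun.jacobi {i j k c : ℕ} (hi : 1 ≤ i) (hj : 1 ≤ j) (hk : 1 ≤ k) (hc : i + j + k = c)
    {χ : G → ZMod p} (h : IsFun c χ) {g u x : G} (hg : g ∈ gam G i) (hu : u ∈ gam G j)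
    (hx : x ∈ gam G k) :
    χ (com (com g u) x) - χ (com (com g x) u) = χ (com g (com u x)) := by
  have hw : com (com g u) (u * x * u⁻¹) * com (com u x) (x * g * x⁻¹) *
      com (com x g) (g * u * g⁻¹) = 1 := by
    simp only [com_def]; group
  have a1 := gam_com hi hj hg hu
  have a2 := gam_com hj hk hu hx
  have a3 := gam_com hk hi hx hg
  have a4 := gam_com hi hk hg hx
  have c1 : u * x * u⁻¹ ∈ gam G k := (gam_normal k).conj_mem _ hx u
  have c2 : x * g * x⁻¹ ∈ gam G i := (gam_normal i).conj_mem _ hg x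
  have c3 : g * u * g⁻¹ ∈ gam G j := (gam_normal j).conj_mem _ hu g
  have b1 : com (com g u) (u * x * u⁻¹) ∈ gam G c := by
    have := gam_com (by omega) hk a1 c1
    rwa [hc] at this
  have b2 : com (com u x) (x * g * x⁻¹) ∈ gam G c := by
    have := gam_com (by omega) hi a2 c2
    rwa [show j + k + i = c by omega] at this
  have b3 : com (com x g) (g * u * g⁻¹) ∈ gam G c := by
    have := gam_com (by omega) hj a3 c3
    rwa [show k + i + j = c by omega] at this
  have h0 := congrArg χ hw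
  rw [h.add.one, h.add _ (Subgroup.mul_mem _ b1 b2) _ b3, h.add _ b1 _ b2,
    h.com_conj (by omega) hj hk hc a1 hu hx,
    h.com_conj (by omega) hk hi (by omega) a2 hx hg,
    h.com_conj (by omega) hi hj (by omega) a3 hg hu] at h0
  have s1 : χ (com (com u x) g) = - χ (com g (com u x)) :=
    h.skew hi (by omega) (by omega) hg a2
  have s2 : χ (com (com x g) u) = - χ (com (com g x) u) := by
    have hd := h.der (i := i + k) (by omega) hj (by omega) hu
    have := hd.add.inv a4
    rw [com_inv] at this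
    exact this
  rw [s1, s2] at h0
  linear_combination h0

end Pool.Agent.Helper89.BI
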