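import Pool.Agent.Helper89.BI.Fil
import Pool.Agent.Helper89.BI.FunCalc

/-! # Module ADLEM -/

set_option autoImplicit false

namespace Pool.Agent.Helper89.BI

open Pool.Agent.Helper13.Spl

universe u v w

variable {X : Type u} {p : ℕ}

/-- extensions of functions agreeing on the words of length `c` agree on `Hom c` -/
theorem ext_congr_Hom {M : Type v} [AddCommGroup M] [Module (ZMod p) M] {f g : List X → M}
    {c : ℕ} (h : ∀ w, w.length = c → f w = g w) {t : T X p} (ht : t ∈ Hom X p c) :
    ext f t = ext g t := by
  unfold Hom at ht
  induction ht using Submodule.span_induction with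
  | mem x hx =>
    obtain ⟨w, hw, rfl⟩ := hx
    rw [ext_wd, ext_wd, h w hw]
  | zero => rw [map_zero, map_zero]
  | add x y _ _ hx hy => rw [map_add, map_add, hx, hy]
  | smul r x _ hx => rw [map_smul, map_smul, hx]

theorem ext_mul_vr {M : Type v} [AddCommGroup M] [Module (ZMod p) M] (f : List X → M) (e : X)
    (t : T X p) : ext f (t * vr e) = ext (fun w => f (w ++ [e])) t := by
  have h : (ext f).comp (LinearMap.mulRight (ZMod p) (vr e : T X p))
      = ext (fun w => f (w ++ [e])) := by
    refine T_hom_ext fun w => ?_
    rw [LinearMap.comp_apply, LinearMap.mulRight_apply, ext_wd, vr_eq_wd, ← wd_append, ext_wd]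
  have h1 := LinearMap.congr_fun h t
  rw [LinearMap.comp_apply, LinearMap.mulRight_apply] at h1
  exact h1

theorem ext_vr_mul {M : Type v} [AddCommGroup M] [Module (ZMod p) M] (f : List X → M) (e : X)
    (t : T X p) : ext f (vr e * t) = ext (fun w => f (e :: w)) t := by
  have h : (ext f).comp (LinearMap.mulLeft (ZMod p) (vr e : T X p))
      = ext (fun w => f (e :: w)) := by
    refine T_hom_ext fun w => ?_
    rw [LinearMap.comp_apply, LinearMap.mulLeft_apply, ext_wd, vr_eq_wd, ← wd_append, ext_wd]
    rfl
  have h1 := LinearMap.congr_fun h t
  rw [LinearMap.comp_apply, LinearMap.mulLeft_apply] at h1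
  exact h1

theorem fun_ad {m c : ℕ} (hm : 1 ≤ m) {v : List X} (hv : v ≠ []) (hc : m + v.length = c)
    {χ : Burn X p → ZMod p} (hχ : IsFun c χ) {h : Burn X p} (hh : h ∈ gam (Burn X p) m) :
    ext (fun w => χ (cm h w)) (rho v : T X p) = χ (com h (Cc v)) := by
  induction v using List.reverseRecOn generalizing m c χ h with
  | nil => exact absurd rfl hv
  | append_singleton v e ih =>
    rcases eq_or_ne v [] with rfl | hv'
    · rw [List.nil_append, rho_singleton, vr_eq_wd, ext_wd]
      rfl
    · rw [List.length_append, List.length_singleton] at hc
      have hlen : 1 ≤ v.length := List.length_pos_iff.2 hv'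
      rw [rho_concat hv', map_sub, ext_mul_vr, ext_vr_mul]
      have h1 : IsFun (m + v.length) (fun g => χ (com g (lt e))) :=
        hχ.der (by omega) le_rfl (by omega) (mem_gam_one (lt e))
      have h2 := ih hm hv' rfl h1 hh
      have h3 : ext (fun w => χ (cm h (w ++ [e]))) (rho v : T X p)
          = ext (fun w => χ (com (cm h w) (lt e))) (rho v : T X p) := by
        congr 2
        funext w
        rw [cm_concat]
      have h4 := ih (m := m + 1) (c := c) (by omega) hv' (by omega) hχ
        (gam_com_one hm hh (lt e))
      have h5 : ext (fun w => χ (cm h (e :: w))) (rho v : T X p)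
          = ext (fun w => χ (cm (com h (lt e)) w)) (rho v : T X p) := rfl
      rw [h3, h2, h5, h4, Cc_concat hv']
      exact hχ.jacobi (i := m) (j := v.length) (k := 1) hm hlen le_rfl (by omega) hh (Cc_mem hv')
        (mem_gam_one (lt e))

theorem nj_snoc (a : X) (v w : List X) : nj a (v ++ w) = nj a v + nj a w := by
  classical
  unfold nj
  exact List.countP_append

open Classical in
theorem nj_single (a e : X) : nj a [e] = if e = a then 0 else 1 := by
  unfold nj
  rw [List.countP_singleton]
  by_cases h : e = a
  · simp [h]
  · simp [h]

open Classical in
/-- Dynkin-Specht-Wever for functionals -/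
theorem fun_dsw {c : ℕ} {v : List X} (hv : v ≠ []) (hc : v.length = c)
    {χ : Burn X p → ZMod p} (hχ : IsFun c χ) (a : X) :
    ext (fun w => if w.head? = some a then 0 else χ (Cc w)) (rho v : T X p) =
      ((nj a v : ℕ) : ZMod p) * χ (Cc v) := by
  induction v using List.reverseRecOn generalizing c χ with
  | nil => exact absurd rfl hv
  | append_singleton v e ih =>
    rcases eq_or_ne v [] with rfl | hv'
    · rw [List.nil_append, rho_singleton, vr_eq_wd, ext_wd, nj_single]
      by_cases hea : e = a
      · subst hea
        simp
      · have h1 : ([e] : List X).head? ≠ some a := by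
          intro h
          exact hea (Option.some.inj h)
        rw [if_neg h1, if_neg hea, Nat.cast_one, one_mul]
    · rw [List.length_append, List.length_singleton] at hc
      have hlen : 1 ≤ v.length := List.length_pos_iff.2 hv'
      rw [rho_concat hv', map_sub, ext_mul_vr, ext_vr_mul]
      have h1 : IsFun v.length (fun g => χ (com g (lt e))) :=
        hχ.der hlen le_rfl hc (mem_gam_one (lt e))
      have h2 := ih hv' rfl h1
      have h3 : ext (fun w => if (w ++ [e]).head? = some a then 0 else χ (Cc (w ++ [e])))
            (rho v : T X p)
          = ext (fun w => if w.head? = some a then 0 else χ (com (Cc w) (lt e)))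
            (rho v : T X p) := by
        refine ext_congr_Hom (c := v.length) (fun w hw => ?_) (rho_mem_Hom v)
        have hw' : w ≠ [] := by
          intro h0
          rw [h0, List.length_nil] at hw
          omega
        have h4 : (w ++ [e]).head? = w.head? := by
          cases w with
          | nil => exact absurd rfl hw'
          | cons x w => rfl
        rw [h4, Cc_concat hw']
      rw [h3, h2, nj_snoc, nj_single, Cc_concat hv']
      by_cases hea : e = a
      · have h5 : ext (fun w => if (e :: w).head? = some a then (0 : ZMod p) else χ (Cc (e :: w)))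
            (rho v : T X p) = 0 := by
          have h6 : (fun w : List X => if (e :: w).head? = some a then (0 : ZMod p)
              else χ (Cc (e :: w))) = fun _ => 0 := by
            funext w
            rw [if_pos]
            rw [hea]
            rfl
          rw [h6]
          have h7 : (ext (fun _ : List X => (0 : ZMod p)) : T X p →ₗ[ZMod p] ZMod p) = 0 := by
            refine T_hom_ext fun w => ?_
            rw [ext_wd]
            rfl
          rw [h7]
          rfl
        rw [h5, if_pos hea, Nat.add_zero, sub_zero]
      · have h5 : ext (fun w => if (e :: w).head? = some a then (0 : ZMod p) else χ (Cc (e :: w)))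
            (rho v : T X p) = - χ (com (Cc v) (lt e)) := by
          have h6 : (fun w : List X => if (e :: w).head? = some a then (0 : ZMod p)
              else χ (Cc (e :: w))) = fun w => χ (cm (lt e) w) := by
            funext w
            rw [if_neg]
            · rfl
            · intro h
              exact hea (Option.some.inj h)
          rw [h6, fun_ad (m := 1) (c := c) le_rfl hv' (by omega) hχ (mem_gam_one (lt e))]
          exact hχ.skew (i := v.length) (j := 1) hlen le_rfl hc (Cc_mem hv') (mem_gam_one (lt e))
        rw [h5, if_neg hea]
        push_cast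
        ring

end Pool.Agent.Helper89.BI
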