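import Pool.Agent.Helper89.BI.Main

/-!
# Consequence for the lower central series
-/

set_option autoImplicit false

namespace Pool.Agent.Helper89.BI

open Pool.Agent.Helper13.Spl

universe u v w

/-- products of `a`-th powers modulo an abelian section -/
theorem pow_mul_mem {N : Type u} [Group N] {i a : ℕ} (hi : 1 ≤ i) {x y : N} (hx : x ∈ gam N i)
    (hy : y ∈ gam N i) (hxa : x ^ a ∈ gam N (i + 1)) (hya : y ^ a ∈ gam N (i + 1)) :
    (x * y) ^ a ∈ gam N (i + 1) := by
  have h1 : (QuotientGroup.mk' (gam N (i + 1))) (com x y) = 1 := by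
    have := gam_anti (show i + 1 ≤ i + i by omega) (gam_com hi hi hx hy)
    exact (QuotientGroup.eq_one_iff _).2 this
  have h2 : Commute ((QuotientGroup.mk' (gam N (i + 1))) x)
      ((QuotientGroup.mk' (gam N (i + 1))) y) := by
    rw [map_com, com_def, mul_inv_eq_one, mul_inv_eq_iff_eq_mul] at h1
    exact h1
  have hx' : (QuotientGroup.mk' (gam N (i + 1))) (x ^ a) = 1 := (QuotientGroup.eq_one_iff _).2 hxa
  have hy' : (QuotientGroup.mk' (gam N (i + 1))) (y ^ a) = 1 := (QuotientGroup.eq_one_iff _).2 hya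
  have h3 : (QuotientGroup.mk' (gam N (i + 1))) ((x * y) ^ a) = 1 := by
    rw [map_pow, map_mul, h2.mul_pow, ← map_pow, ← map_pow, hx', hy', one_mul]
  exact (QuotientGroup.eq_one_iff _).1 h3

/-- the commutator map is multiplicative in the first variable modulo the next term -/
theorem com_pow_mem {N : Type u} [Group N] {i : ℕ} (hi : 1 ≤ i) {h : N} (hh : h ∈ gam N i)
    (x : N) (a : ℕ) : (com h x) ^ a * (com (h ^ a) x)⁻¹ ∈ gam N (i + 2) := by
  induction a with
  | zero => simp [com_def]
  | succ a ih =>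
    have h1 : com (h ^ (a + 1)) x = (com h (com (h ^ a) x)) * com (h ^ a) x * com h x := by
      simp only [com_def, pow_succ']
      group
    have h2 : com h (com (h ^ a) x) ∈ gam N (i + 2) :=
      gam_anti (show i + 2 ≤ i + (i + 1) by omega)
        (gam_com hi (by omega) hh (gam_com_one hi (Subgroup.pow_mem _ hh a) x))
    have h3 : com h x ^ (a + 1) * (com (h ^ (a + 1)) x)⁻¹ =
        (com h x ^ a * (com (h ^ a) x)⁻¹) * (com h (com (h ^ a) x))⁻¹ := by
      rw [h1, pow_succ]
      group
    rw [h3]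
    exact Subgroup.mul_mem _ ih (Subgroup.inv_mem _ h2)

/-- a group generated by elements of order dividing `a` has lower central sections of exponent
dividing `a` -/
theorem pow_mem_of_gen {N : Type u} [Group N] {a : ℕ} {S : Set N} (hS : Subgroup.closure S = ⊤)
    (ha : ∀ s ∈ S, s ^ a = 1) (i : ℕ) : ∀ h ∈ gam N (i + 1), h ^ a ∈ gam N (i + 2) := by
  induction i with
  | zero =>
    intro h _
    have h0 : h ∈ Subgroup.closure S := hS ▸ Subgroup.mem_top h
    refine Subgroup.closure_induction (p := fun h _ => h ^ a ∈ gam N (0 + 2)) ?_ ?_ ?_ ?_ h0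
    · intro s hs
      rw [ha s hs]
      exact Subgroup.one_mem _
    · rw [one_pow]
      exact Subgroup.one_mem _
    · intro x y _ _ hx hy
      exact pow_mul_mem le_rfl (mem_gam_one x) (mem_gam_one y) hx hy
    · intro x _ hx
      rw [inv_pow]
      exact Subgroup.inv_mem _ hx
  | succ i ih =>
    refine gam_induction (by omega) ?_ ?_ ?_ ?_
    · rw [one_pow]
      exact Subgroup.one_mem _
    · intro x hx y hy hxa hya
      exact pow_mul_mem (by omega) hx hy hxa hya
    · intro x _ hx
      rw [inv_pow]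
      exact Subgroup.inv_mem _ hx
    · intro h hh x
      have h1 := com_pow_mem (by omega) hh x a
      have h2 : com (h ^ a) x ∈ gam N (i + 1 + 2) := gam_com_one (by omega) (ih h hh) x
      have h3 := Subgroup.mul_mem _ h1 h2
      rwa [inv_mul_cancel_right] at h3

theorem pow_pow_mem {N : Type u} [Group N] {a : ℕ} {S : Set N} (hS : Subgroup.closure S = ⊤)
    (ha : ∀ s ∈ S, s ^ a = 1) (h : N) (i : ℕ) : h ^ a ^ i ∈ gam N (i + 1) := by
  induction i with
  | zero => exact mem_gam_one _
  | succ i ih =>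
    rw [pow_succ, pow_mul]
    exact pow_mem_of_gen hS ha i _ ih

/-- intersection of the subgroups `γ_{c+1} G^p` in squarefree exponent -/
theorem mem_gam_of_forall {G : Type u} [Group G] {n : ℕ} (hsq : Squarefree n)
    (hexp : ∀ g : G, g ^ n = 1) {c : ℕ} {x : G}
    (hx : ∀ p, p.Prime → p ∣ n → x ∈ gam G (c + 1) ⊔ powS G p) : x ∈ gam G (c + 1) := by
  have hn0 : n ≠ 0 := hsq.ne_zero
  set π := QuotientGroup.mk' (gam G (c + 1)) with hπ
  have hγ : ∀ y ∈ gam (G ⧸ gam G (c + 1)) (c + 1), y = 1 := by
    intro y hy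
    rw [gam_map_surj π (QuotientGroup.mk'_surjective _)] at hy
    obtain ⟨z, hz, rfl⟩ := hy
    exact (QuotientGroup.eq_one_iff z).2 hz
  have key : ∀ p, p.Prime → p ∣ n → π x ^ (n / p) ^ c = 1 := by
    intro p hp hpn
    have h1 : π x ∈ powS (G ⧸ gam G (c + 1)) p := by
      have h2 := Subgroup.mem_map_of_mem π (hx p hp hpn)
      have h3 : (gam G (c + 1) ⊔ powS G p).map π ≤ powS (G ⧸ gam G (c + 1)) p := by
        rw [Subgroup.map_sup, sup_le_iff]
        constructor
        · rintro _ ⟨y, hy, rfl⟩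
          have : π y = 1 := (QuotientGroup.eq_one_iff y).2 hy
          rw [this]
          exact Subgroup.one_mem _
        · unfold powS
          rw [MonoidHom.map_closure]
          apply Subgroup.closure_mono
          rintro _ ⟨_, ⟨y, rfl⟩, rfl⟩
          exact ⟨π y, by simp⟩
      exact h3 h2
    set N := powS (G ⧸ gam G (c + 1)) p with hN
    let S : Set N := {s | s ^ (n / p) = 1}
    have hS : Subgroup.closure S = ⊤ := by
      rw [eq_top_iff]
      rintro ⟨y, hy⟩ -
      refine Subgroup.closure_induction (p := fun y hy => (⟨y, hy⟩ : N) ∈ Subgroup.closure S)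
        ?_ ?_ ?_ ?_ hy
      · rintro _ ⟨z, rfl⟩
        apply Subgroup.subset_closure
        obtain ⟨w, rfl⟩ := QuotientGroup.mk'_surjective _ z
        apply Subtype.ext
        change ((π w) ^ p) ^ (n / p) = 1
        rw [← pow_mul, Nat.mul_div_cancel' hpn, ← map_pow, hexp, map_one]
      · exact Subgroup.one_mem _
      · intro a b ha hb h1 h2
        exact Subgroup.mul_mem _ h1 h2
      · intro a ha h1
        exact Subgroup.inv_mem _ h1
    have h4 := pow_pow_mem hS (fun s hs => hs) ⟨π x, h1⟩ c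
    have h5 := gam_map N.subtype h4
    have h6 := hγ _ h5
    simpa using h6
  have h1 : π x ^ n = 1 := by rw [← map_pow, hexp, map_one]
  have h2 : orderOf (π x) = 1 := by
    by_contra hne
    obtain ⟨p, hp, hpo⟩ := Nat.exists_prime_and_dvd hne
    have hpn : p ∣ n := hpo.trans (orderOf_dvd_of_pow_eq_one h1)
    have h3 : p ∣ (n / p) ^ c := hpo.trans (orderOf_dvd_of_pow_eq_one (key p hp hpn))
    have h4 : p ∣ n / p := hp.dvd_of_dvd_pow h3
    have h5 : p * p ∣ n := by
      obtain ⟨k, hk⟩ := h4
      refine ⟨k, ?_⟩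
      rw [mul_assoc, ← hk, Nat.mul_div_cancel' hpn]
    exact hp.not_isUnit (hsq p h5)
  rw [orderOf_eq_one_iff] at h2
  exact (QuotientGroup.eq_one_iff x).1 h2

end Pool.Agent.Helper89.BI
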