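import Mathlib
import Pool.Agent.Helper13.Spl.Sec

/-!
# Splitting automorphisms of free Burnside groups of prime exponent: definitions
-/

set_option autoImplicit false

namespace Pool.Agent.Helper89.BI

open Pool.Agent.Helper13.Spl

universe u v w

/-- the lower central series, indexed from `1`: `gam G 1 = G`, `gam G (i+1) = [gam G i, G]` -/
def gam (G : Type u) [Group G] (i : ℕ) : Subgroup G :=
  (⊤ : Subgroup G).lowerCentralSeries (i - 1)

/-- the letters of the free Burnside group -/
def lt {X : Type u} {p : ℕ} (a : X) : Burn X p := Burn.mk X p (FreeGroup.of a)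

/-- the commutator `g h g⁻¹ h⁻¹` (definitionally Mathlib's `⁅g, h⁆`) -/
def com {G : Type u} [Group G] (g h : G) : G := g * h * g⁻¹ * h⁻¹

/-- left normed group commutator `com (com g x_{v1}) x_{v2} ...` -/
def cm {X : Type u} {p : ℕ} (g : Burn X p) (v : List X) : Burn X p :=
  v.foldl (fun s e => com s (lt e)) g

/-- left normed group commutator of the letters of a word (`1` for the empty word) -/
def Cc {X : Type u} {p : ℕ} : List X → Burn X p
  | [] => 1
  | a :: v => cm (lt a) v

/-- functionals `gam c → ZMod p` vanishing on `gam (c+1)` -/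
structure IsFun {G : Type u} [Group G] {p : ℕ} (c : ℕ) (χ : G → ZMod p) : Prop where
  add : AddOn (gam G c) χ
  van : ∀ x ∈ gam G (c + 1), χ x = 0

/-- the free associative algebra on `X` over `ZMod p`, with basis the words -/
abbrev T (X : Type u) (p : ℕ) : Type u := MonoidAlgebra (ZMod p) (FreeMonoid X)

/-- the variable of `T` -/
noncomputable def vr {X : Type u} {p : ℕ} (a : X) : T X p :=
  MonoidAlgebra.single (FreeMonoid.of a) 1

/-- the word `w` in `T` -/
noncomputable def wd {X : Type u} {p : ℕ} (w : List X) : T X p :=
  MonoidAlgebra.single (FreeMonoid.ofList w) 1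

/-- the coefficient of the word `w` -/
def cf {X : Type u} {p : ℕ} (t : T X p) (w : List X) : ZMod p := t.coeff (FreeMonoid.ofList w)

/-- linear extension of a function on words -/
noncomputable def ext {X : Type u} {p : ℕ} {M : Type v} [AddCommGroup M] [Module (ZMod p) M]
    (f : List X → M) : T X p →ₗ[ZMod p] M :=
  (Finsupp.linearCombination (ZMod p) (fun w : FreeMonoid X => f (FreeMonoid.toList w))).comp
    (MonoidAlgebra.coeffLinearEquiv (ZMod p)).toLinearMap

/-- `[..[[t, X_{v1}], X_{v2}], ..]` in `T` -/
noncomputable def adT {X : Type u} {p : ℕ} (t : T X p) (v : List X) : T X p :=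
  v.foldl (fun s e => s * vr e - vr e * s) t

/-- left normed bracket of the letters of a word (`0` for the empty word) -/
noncomputable def rho {X : Type u} {p : ℕ} : List X → T X p
  | [] => 0
  | a :: v => adT (vr a) v

/-- Lie polynomials homogeneous of degree `c` -/
noncomputable def Lie (X : Type u) (p : ℕ) (c : ℕ) : Submodule (ZMod p) (T X p) :=
  Submodule.span (ZMod p) (rho '' {w : List X | w.length = c})

/-- homogeneous elements of degree `c` -/
noncomputable def Hom (X : Type u) (p : ℕ) (c : ℕ) : Submodule (ZMod p) (T X p) :=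
  Submodule.span (ZMod p) (wd '' {w : List X | w.length = c})

/-- number of letters different from `a` -/
noncomputable def nj {X : Type u} (a : X) (w : List X) : ℕ := by
  classical exact w.countP (fun e => e ≠ a)

/-- multiplicative filtrations of algebras by subspaces -/
structure IsFilt {k : Type v} [CommRing k] {A : Type w} [Ring A] [Algebra k A]
    (F : ℕ → Submodule k A) : Prop where
  one : (1 : A) ∈ F 0
  anti : Antitone F
  mul : ∀ i j, ∀ x ∈ F i, ∀ y ∈ F j, x * y ∈ F (i + j)

/-- evaluation of elements of `T` at a family of elements of an algebra -/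
noncomputable def evT {X : Type u} {p : ℕ} {A : Type w} [Ring A] [Algebra (ZMod p) A]
    (y : X → A) : T X p →ₐ[ZMod p] A :=
  MonoidAlgebra.lift (ZMod p) A (FreeMonoid X) (FreeMonoid.lift y)

/-- `t` is the leading term of `b ∈ gam c` -/
structure IsLead {X : Type u} {p : ℕ} (c : ℕ) (b : Burn X p) (t : T X p) : Prop where
  mem : b ∈ gam (Burn X p) c
  lie : t ∈ Lie X p c
  lead : ∀ (A : Type) [Ring A] [Algebra (ZMod p) A] (F : ℕ → Submodule (ZMod p) A),
    IsFilt F → ∀ ψ : Burn X p →* A, (∀ g, ψ g - 1 ∈ F 1) →
      ψ b - 1 - evT (fun a => ψ (lt a) - 1) t ∈ F (c + 1)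

/-- the weights of the Dynkin-Specht-Wever argument counting the letters different from `a` -/
noncomputable def wt {X : Type u} {p : ℕ} (a : X) (w : List X) : ZMod p := by
  classical exact if w.head? = some a then 0 else ((nj a w : ℕ) : ZMod p)⁻¹

/-- the substitution `X_a ↦ X_a - lam * X_b` -/
noncomputable def sig {X : Type u} {p : ℕ} (a b : X) (lam : ZMod p) : T X p →ₐ[ZMod p] T X p := by
  classical exact evT (fun e => if e = a then vr a - lam • vr b else vr e)

end Pool.Agent.Helper89.BI
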