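import Pool.Agent.Helper89.BI.NjLem

/-! # Module DSWT -/

set_option autoImplicit false

namespace Pool.Agent.Helper89.BI

open Pool.Agent.Helper13.Spl

universe u v w

variable {X : Type u} {p : ℕ}

namespace DswTAux

variable {M : Type v} [AddCommGroup M] [Module (ZMod p) M] {N : Type w} [AddCommGroup N]
  [Module (ZMod p) N]

theorem ext_mul_vr (f : List X → M) (t : T X p) (e : X) :
    ext f (t * vr e) = ext (fun w => f (w ++ [e])) t := by
  have : (ext f).comp (LinearMap.mulRight (ZMod p) (vr e : T X p)) =
      ext (fun w => f (w ++ [e])) := by
    apply T_hom_ext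
    intro w
    rw [LinearMap.comp_apply, LinearMap.mulRight_apply, vr_eq_wd, ← wd_append, ext_wd, ext_wd]
  have h := congrArg (fun L => L t) this
  exact h

theorem ext_vr_mul (f : List X → M) (t : T X p) (e : X) :
    ext f (vr e * t) = ext (fun w => f (e :: w)) t := by
  have : (ext f).comp (LinearMap.mulLeft (ZMod p) (vr e : T X p)) =
      ext (fun w => f (e :: w)) := by
    apply T_hom_ext
    intro w
    rw [LinearMap.comp_apply, LinearMap.mulLeft_apply, vr_eq_wd, ← wd_append, ext_wd, ext_wd]
    rfl
  have h := congrArg (fun L => L t) this
  exact h

theorem ext_comp (L : M →ₗ[ZMod p] N) (f : List X → M) (t : T X p) :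
    ext (fun w => L (f w)) t = L (ext f t) := by
  have : ext (fun w => L (f w)) = L.comp (ext f) := by
    apply T_hom_ext
    intro w
    rw [LinearMap.comp_apply, ext_wd, ext_wd]
  rw [this]
  rfl

theorem ext_congr_supp (f g : List X → M) (t : T X p) (h : ∀ w, cf t w ≠ 0 → f w = g w) :
    ext f t = ext g t := by
  obtain ⟨S, hS⟩ := exists_supp t
  rw [ext_eq_sum f t S (fun w hw => (hS w).2 hw), ext_eq_sum g t S (fun w hw => (hS w).2 hw)]
  apply Finset.sum_congr rfl
  intro w hw
  rw [h w ((hS w).1 hw)]

theorem adT_concat (s : T X p) (w : List X) (e : X) :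
    adT s (w ++ [e]) = adT s w * vr e - vr e * adT s w := by
  simp [adT]

theorem adT_cons (s : T X p) (w : List X) (e : X) :
    adT s (e :: w) = adT (s * vr e - vr e * s) w := rfl

/-- the right bracket with a letter as a linear map -/
noncomputable def brk (e : X) : T X p →ₗ[ZMod p] T X p :=
  LinearMap.mulRight (ZMod p) (vr e : T X p) - LinearMap.mulLeft (ZMod p) (vr e : T X p)

theorem brk_apply (e : X) (t : T X p) : brk e t = t * vr e - vr e * t := rfl

theorem ext_adT (v : List X) (hv : v ≠ []) : ∀ s : T X p,
    ext (fun w => adT s w) (rho v : T X p) = s * rho v - rho v * s := by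
  induction v using List.reverseRecOn with
  | nil => exact absurd rfl hv
  | append_singleton v e ih =>
    intro s
    rcases eq_or_ne v [] with rfl | hv'
    · rw [List.nil_append, rho_singleton, vr_eq_wd, ext_wd, ← vr_eq_wd]
      rfl
    · rw [rho_concat hv', map_sub, ext_mul_vr, ext_vr_mul]
      have e1 : ext (fun w => adT s (w ++ [e])) (rho v : T X p) =
          brk e (ext (fun w => adT s w) (rho v : T X p)) := by
        rw [← ext_comp]
        apply ext_congr_supp
        intro w _
        rw [brk_apply, adT_concat]
      have e2 : ext (fun w => adT s (e :: w)) (rho v : T X p) =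
          ext (fun w => adT (s * vr e - vr e * s) w) (rho v : T X p) := rfl
      rw [e1, e2, ih hv' s, ih hv', brk_apply]
      noncomm_ring

theorem cf_rho_nil {v : List X} (hv : v ≠ []) : cf (rho v : T X p) [] = 0 := by
  apply mem_Hom.1 (rho_mem_Hom v)
  intro h
  exact hv (List.eq_nil_of_length_eq_zero h.symm)

open Classical in
theorem ext_dsw (a : X) (v : List X) (hv : v ≠ []) :
    ext (fun w => if w.head? = some a then (0 : T X p) else rho w) (rho v : T X p) =
      ((nj a v : ℕ) : ZMod p) • rho v := by
  induction v using List.reverseRecOn with
  | nil => exact absurd rfl hv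
  | append_singleton v e ih =>
    rcases eq_or_ne v [] with rfl | hv'
    · rw [List.nil_append, rho_singleton, vr_eq_wd, ext_wd, ← vr_eq_wd]
      by_cases h : e = a
      · subst h
        simp [nj]
      · rw [if_neg (by simpa using h), rho_singleton]
        simp [nj, h]
    · rw [rho_concat hv', map_sub, ext_mul_vr, ext_vr_mul]
      have e1 : ext (fun w => if (w ++ [e]).head? = some a then (0 : T X p) else rho (w ++ [e]))
          (rho v : T X p) = brk e (ext (fun w => if w.head? = some a then (0 : T X p) else rho w)
            (rho v : T X p)) := by
        rw [← ext_comp]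
        apply ext_congr_supp
        intro w hw
        have hw0 : w ≠ [] := by
          rintro rfl
          exact hw (cf_rho_nil hv')
        have hh : (w ++ [e]).head? = w.head? := by
          cases w with
          | nil => exact absurd rfl hw0
          | cons x w => rfl
        rw [hh, brk_apply]
        by_cases h : w.head? = some a
        · simp [h]
        · rw [if_neg h, if_neg h, rho_concat hw0]
      have e2 : ext (fun w => if (e :: w).head? = some a then (0 : T X p) else rho (e :: w))
          (rho v : T X p) = if e = a then 0 else vr e * rho v - rho v * vr e := by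
        by_cases h : e = a
        · rw [if_pos h]
          have : (fun w : List X => if (e :: w).head? = some a then (0 : T X p)
              else rho (e :: w)) = fun w => 0 := by
            funext w
            simp [h]
          rw [this]
          have h0 : (ext (fun _ : List X => (0 : T X p)) : T X p →ₗ[ZMod p] T X p) = 0 := by
            apply T_hom_ext
            intro w
            rw [ext_wd]
            rfl
          rw [h0]
          rfl
        · rw [if_neg h]
          have : (fun w : List X => if (e :: w).head? = some a then (0 : T X p)
              else rho (e :: w)) = fun w => adT (vr e) w := by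
            funext w
            rw [if_neg (by simpa using h)]
            rfl
          rw [this, ext_adT v hv']
      rw [e1, e2, ih hv', nj_append, brk_apply]
      by_cases h : e = a
      · have : nj a [e] = 0 := by simp [nj, h]
        rw [if_pos h, this, add_zero, smul_sub, smul_mul_assoc, mul_smul_comm, sub_zero]
      · have : nj a [e] = 1 := by simp [nj, h]
        rw [if_neg h, this, Nat.cast_add, Nat.cast_one, add_smul, one_smul, smul_sub,
          smul_mul_assoc, mul_smul_comm]
        abel

end DswTAux

open DswTAux in
/-- the weighted Dynkin-Specht-Wever formula in the free Lie algebra, `c < p` -/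
theorem dswT [hp : Fact p.Prime] {c : ℕ} (hc : 2 ≤ c) (hcp : c < p) {l : T X p} (hl : l ∈ Lie X p c) (a : X) :
    ext (fun w => (wt a w : ZMod p) • (rho w : T X p)) l = l := by
  classical
  induction hl using Submodule.span_induction with
  | zero => rw [map_zero]
  | add x y _ _ hx hy => rw [map_add, hx, hy]
  | smul r x _ hx => rw [map_smul, hx]
  | mem x hx =>
    obtain ⟨v, hv, rfl⟩ := hx
    have hvc : v.length = c := hv
    have hv0 : v ≠ [] := by
      rintro rfl
      simp at hvc
      omega
    by_cases hn : nj a v = 0
    · rw [(rho_of_nj_zero (p := p) hn (by omega)).1, map_zero]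
    · have hn1 : nj a v < p := lt_of_le_of_lt (by unfold nj; exact List.countP_le_length) (hvc ▸ hcp)
      have hn2 : ((nj a v : ℕ) : ZMod p) ≠ 0 := by
        rw [Ne, ZMod.natCast_eq_zero_iff]
        exact Nat.not_dvd_of_pos_of_lt (Nat.pos_of_ne_zero hn) hn1
      have e1 : ext (fun w => (wt a w : ZMod p) • (rho w : T X p)) (rho v : T X p) =
          ext (fun w => (LinearMap.lsmul (ZMod p) (T X p) (((nj a v : ℕ) : ZMod p)⁻¹))
            (if w.head? = some a then (0 : T X p) else rho w)) (rho v : T X p) := by
        apply ext_congr_supp
        intro w hw
        have h1 : nj a w = nj a v := nj_of_cf_rho a hw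
        rw [LinearMap.lsmul_apply]
        unfold wt
        by_cases h : w.head? = some a
        · simp [h]
        · rw [if_neg h, if_neg h, h1]
      rw [e1, ext_comp, ext_dsw a v hv0, LinearMap.lsmul_apply, smul_smul, inv_mul_cancel₀ hn2,
        one_smul]

end Pool.Agent.Helper89.BI
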