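import Pool.Agent.Helper89.BI.Defs

/-! # Module MATFIL -/

set_option autoImplicit false

namespace Pool.Agent.Helper89.BI

open Pool.Agent.Helper13.Spl

universe u v w

/-- upper triangular matrices with `M i j ∈ I ^ (d - (j - i))` -/
def mF (p : ℕ) {R : Type v} [CommRing R] [Algebra (ZMod p) R] {s : ℕ} (I : Ideal R) (d : ℕ) :
    Submodule (ZMod p) (Matrix (Fin (s + 1)) (Fin (s + 1)) R) where
  carrier := {M | ∀ i j, (j < i → M i j = 0) ∧ M i j ∈ I ^ (d - ((j : ℕ) - (i : ℕ)))}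
  zero_mem' := fun i j => ⟨fun _ => rfl, Ideal.zero_mem _⟩
  add_mem' := by
    intro M N hM hN i j
    refine ⟨fun h => ?_, Ideal.add_mem _ (hM i j).2 (hN i j).2⟩
    rw [Matrix.add_apply, (hM i j).1 h, (hN i j).1 h, add_zero]
  smul_mem' := by
    intro r M hM i j
    rw [Matrix.smul_apply, Algebra.smul_def]
    refine ⟨fun h => ?_, Ideal.mul_mem_left _ _ (hM i j).2⟩
    rw [(hM i j).1 h, mul_zero]

/-- the matrix `∑_{pat k = e} E_{k, k+1}` -/
noncomputable def Ym {X : Type u} (R : Type v) [CommRing R] {s : ℕ} (pat : Fin s → X) (e : X) :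
    Matrix (Fin (s + 1)) (Fin (s + 1)) R := by
  classical exact Matrix.of fun i j =>
    if ∃ k : Fin s, i = k.castSucc ∧ j = k.succ ∧ pat k = e then 1 else 0

variable {p : ℕ} {R : Type v} [CommRing R] [Algebra (ZMod p) R] {s : ℕ}

theorem mem_mF {I : Ideal R} {d : ℕ} {M : Matrix (Fin (s + 1)) (Fin (s + 1)) R} :
    M ∈ mF p I d ↔ ∀ i j, (j < i → M i j = 0) ∧ M i j ∈ I ^ (d - ((j : ℕ) - (i : ℕ))) := Iff.rfl

theorem isFilt_mF (I : Ideal R) :
    IsFilt (fun d => (mF p I d : Submodule (ZMod p) (Matrix (Fin (s + 1)) (Fin (s + 1)) R))) := by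
  refine ⟨?_, ?_, ?_⟩
  · rw [mem_mF]
    intro i j
    refine ⟨fun h => Matrix.one_apply_ne (ne_of_gt h), ?_⟩
    rw [Nat.zero_sub, pow_zero, Ideal.one_eq_top]
    exact Submodule.mem_top
  · intro d e hde M hM
    rw [mem_mF] at hM ⊢
    intro i j
    exact ⟨(hM i j).1, Ideal.pow_le_pow_right (by omega) (hM i j).2⟩
  · intro d e M hM N hN
    rw [mem_mF] at hM hN ⊢
    intro i j
    rw [Matrix.mul_apply]
    refine ⟨fun h => ?_, ?_⟩
    · refine Finset.sum_eq_zero fun k _ => ?_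
      rcases lt_or_ge k i with hk | hk
      · rw [(hM i k).1 hk, zero_mul]
      · rw [(hN k j).1 (lt_of_lt_of_le h hk), mul_zero]
    · refine Ideal.sum_mem _ fun k _ => ?_
      rcases lt_or_ge k i with hk | hk
      · rw [(hM i k).1 hk, zero_mul]
        exact Ideal.zero_mem _
      rcases lt_or_ge j k with hj | hj
      · rw [(hN k j).1 hj, mul_zero]
        exact Ideal.zero_mem _
      have h1 := Ideal.mul_mem_mul (hM i k).2 (hN k j).2
      rw [← pow_add] at h1
      refine Ideal.pow_le_pow_right ?_ h1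
      have h2 : (i : ℕ) ≤ k := hk
      have h3 : (k : ℕ) ≤ j := hj
      omega

theorem diag_mem {I : Ideal R} {x : Fin (s + 1) → R} (hx : ∀ i, x i ∈ I) :
    Matrix.diagonal x ∈ mF p I 1 := by
  rw [mem_mF]
  intro i j
  refine ⟨fun h => Matrix.diagonal_apply_ne _ (ne_of_gt h), ?_⟩
  by_cases hij : i = j
  · subst hij
    rw [Matrix.diagonal_apply_eq, Nat.sub_self, Nat.sub_zero, pow_one]
    exact hx i
  · rw [Matrix.diagonal_apply_ne _ hij]
    exact Ideal.zero_mem _

theorem Ym_mem {X : Type u} (I : Ideal R) (pat : Fin s → X) (e : X) :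
    Ym R pat e ∈ mF p I 1 := by
  classical
  rw [mem_mF]
  intro i j
  have h0 : Ym R pat e i j
      = if ∃ k : Fin s, i = k.castSucc ∧ j = k.succ ∧ pat k = e then 1 else 0 := rfl
  rw [h0]
  split_ifs with h
  · obtain ⟨k, rfl, rfl, -⟩ := h
    refine ⟨fun h1 => ?_, ?_⟩
    · exact absurd h1 (not_lt.2 (le_of_lt k.castSucc_lt_succ))
    · have h2 : 1 - (((k.succ : Fin (s + 1)) : ℕ) - ((k.castSucc : Fin (s + 1)) : ℕ)) = 0 := by
        rw [Fin.val_succ, Fin.val_castSucc]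
        omega
      rw [h2, pow_zero, Ideal.one_eq_top]
      exact Submodule.mem_top
  · exact ⟨fun _ => rfl, Ideal.zero_mem _⟩

theorem mF_eq_bot {I : Ideal R} {d : ℕ} (hd : I ^ (d - s) = ⊥) :
    (mF p I d : Submodule (ZMod p) (Matrix (Fin (s + 1)) (Fin (s + 1)) R)) = ⊥ := by
  rw [eq_bot_iff]
  intro M hM
  rw [mem_mF] at hM
  rw [Submodule.mem_bot]
  ext i j
  have h1 := (hM i j).2
  have h2 : M i j ∈ I ^ (d - s) := by
    refine Ideal.pow_le_pow_right ?_ h1
    have := j.2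
    omega
  rw [hd, Ideal.mem_bot] at h2
  exact h2

end Pool.Agent.Helper89.BI
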