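import Pool.Agent.Helper89.BI.Fil
import Pool.Agent.Helper89.BI.MatFil

/-! # Module ENTRY -/

set_option autoImplicit false

namespace Pool.Agent.Helper89.BI

open Pool.Agent.Helper13.Spl

universe u v w

/-- the letters evaluated at the diagonal matrix (`a`) and the shift matrices -/
noncomputable def yz {X : Type u} {R : Type v} [CommRing R] {s : ℕ} (x : Fin (s + 1) → R) (a : X)
    (pat : Fin s → X) : X → Matrix (Fin (s + 1)) (Fin (s + 1)) R := by
  classical exact fun e => if e = a then Matrix.diagonal x else Ym R pat e

namespace EntryAux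

/-- the index `min n s` in `Fin (s + 1)` -/
def eidx (s n : ℕ) : Fin (s + 1) := ⟨min n s, by omega⟩

theorem eidx_ne {s i j : ℕ} (h : i < j) (hi : i < s) : eidx s j ≠ eidx s i := by
  intro h'
  have := congrArg Fin.val h'
  simp only [eidx] at this
  omega

theorem eidx_s (s : ℕ) : eidx s s = Fin.last s := by
  apply Fin.ext
  simp [eidx]

theorem eidx_zero (s : ℕ) : eidx s 0 = 0 := by
  apply Fin.ext
  simp [eidx]

open Classical in
/-- exponents of the nodes: a letter `a` with `k` letters different from `a` before it gives
the node `i + k` -/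
noncomputable def eD {X : Type u} (s : ℕ) (a : X) : ℕ → List X → (Fin (s + 1) →₀ ℕ)
  | _, [] => 0
  | i, e :: w => if e = a then Finsupp.single (eidx s i) 1 + eD s a i w else eD s a (i + 1) w

open Classical in
/-- number of letters different from `a` -/
noncomputable def eF {X : Type u} (a : X) (w : List X) : List X := w.filter (fun e => e ≠ a)

variable {X : Type u} {s : ℕ} {a : X}

theorem eD_nil (i : ℕ) : eD s a i [] = 0 := by simp [eD]

theorem eD_self (i : ℕ) (w : List X) :
    eD s a i (a :: w) = Finsupp.single (eidx s i) 1 + eD s a i w := by simp [eD]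

theorem eD_ne {e : X} (he : e ≠ a) (i : ℕ) (w : List X) :
    eD s a i (e :: w) = eD s a (i + 1) w := by simp [eD, he]

theorem eF_nil : eF a [] = [] := by simp [eF]

theorem eF_self (w : List X) : eF a (a :: w) = eF a w := by simp [eF]

theorem eF_ne {e : X} (he : e ≠ a) (w : List X) : eF a (e :: w) = e :: eF a w := by
  simp [eF, he]

theorem eD_lt (w : List X) : ∀ {i j : ℕ}, i < j → i < s → eD s a j w (eidx s i) = 0 := by
  induction w with
  | nil => intro i j _ _; simp [eD_nil]
  | cons e w ih =>
    intro i j hij hi
    by_cases he : e = a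
    · subst he
      rw [eD_self, Finsupp.add_apply, ih hij hi, Finsupp.single_apply, if_neg (eidx_ne hij hi)]
    · rw [eD_ne he]
      exact ih (by omega) hi

theorem eD_inj (w : List X) : ∀ (w' : List X) {i : ℕ}, eF a w = eF a w' →
    i + (eF a w).length = s → eD s a i w = eD s a i w' → w = w' := by
  induction w with
  | nil =>
    intro w' i hF hl hD
    cases w' with
    | nil => rfl
    | cons e' w' =>
      exfalso
      by_cases he' : e' = a
      · subst he'
        rw [eD_nil, eD_self] at hD
        have := DFunLike.congr_fun hD (eidx s i)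
        simp at this
        omega
      · rw [eF_nil, eF_ne he'] at hF
        simp at hF
  | cons e w ih =>
    intro w' i hF hl hD
    cases w' with
    | nil =>
      exfalso
      by_cases he : e = a
      · subst he
        rw [eD_nil, eD_self] at hD
        have := DFunLike.congr_fun hD (eidx s i)
        simp at this
      · rw [eF_nil, eF_ne he] at hF
        simp at hF
    | cons e' w' =>
      by_cases he : e = a
      · subst he
        by_cases he' : e' = e
        · subst he'
          rw [eD_self, eD_self] at hD
          rw [eF_self, eF_self] at hF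
          rw [eF_self] at hl
          rw [ih w' hF hl (add_left_cancel hD)]
        · exfalso
          have h1 : i < s := by
            rw [hF, eF_ne he', List.length_cons] at hl
            omega
          rw [eD_self, eD_ne he'] at hD
          have := DFunLike.congr_fun hD (eidx s i)
          rw [eD_lt w' (Nat.lt_succ_self i) h1] at this
          simp at this
      · by_cases he' : e' = a
        · exfalso
          subst he'
          have h1 : i < s := by
            rw [eF_ne he, List.length_cons] at hl
            omega
          rw [eD_self, eD_ne he] at hD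
          have := DFunLike.congr_fun hD (eidx s i)
          rw [eD_lt w (Nat.lt_succ_self i) h1] at this
          simp at this
          omega
        · rw [eF_ne he, eF_ne he', List.cons.injEq] at hF
          rw [eF_ne he, List.length_cons] at hl
          rw [eD_ne he, eD_ne he'] at hD
          rw [hF.1, ih w' hF.2 (by omega) hD]

theorem eD_degree (w : List X) : ∀ i : ℕ, (eD s a i w).degree + (eF a w).length = w.length := by
  induction w with
  | nil => intro i; simp [eD_nil, eF_nil]
  | cons e w ih =>
    intro i
    by_cases he : e = a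
    · subst he
      rw [eD_self, eF_self, map_add, Finsupp.degree_single, List.length_cons, ← ih i]
      omega
    · rw [eD_ne he, eF_ne he, List.length_cons, List.length_cons, ← ih (i + 1)]
      omega

theorem eD_last (w : List X) : ∀ i : ℕ, i + (eF a w).length ≤ s → w.getLast? ≠ some a →
    eD s a i w (Fin.last s) = 0 := by
  induction w with
  | nil => intro i _ _; simp [eD_nil]
  | cons e w ih =>
    intro i hl hw
    cases w with
    | nil =>
      have he : e ≠ a := by
        intro h
        apply hw
        simp [h]
      rw [eD_ne he, eD_nil]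
      rfl
    | cons e2 w2 =>
      rw [List.getLast?_cons_cons] at hw
      by_cases he : e = a
      · subst he
        rw [eF_self] at hl
        rw [eD_self, Finsupp.add_apply, ih i hl hw]
        have hne : eF e (e2 :: w2) ≠ [] := by
          intro h0
          apply hw
          rw [List.getLast?_eq_some_getLast (List.cons_ne_nil _ _)]
          have hm := List.getLast_mem (List.cons_ne_nil e2 w2)
          have : (e2 :: w2).getLast (List.cons_ne_nil _ _) = e := by
            by_contra hcon
            have h2 : (e2 :: w2).getLast (List.cons_ne_nil _ _) ∈ eF e (e2 :: w2) := by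
              unfold eF
              rw [List.mem_filter]
              exact ⟨hm, by simpa using hcon⟩
            rw [h0] at h2
            simp at h2
          rw [this]
        have h3 : 0 < (eF e (e2 :: w2)).length := List.length_pos_iff.2 hne
        have h4 : i < s := by omega
        rw [Finsupp.single_apply, if_neg]
        intro h5
        have := congrArg Fin.val h5
        simp only [eidx, Fin.val_last] at this
        omega
      · rw [eF_ne he, List.length_cons] at hl
        rw [eD_ne he]
        exact ih (i + 1) (by omega) hw

theorem eD_last_pos (w : List X) : ∀ i : ℕ, i + (eF a w).length = s → w.getLast? = some a →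
    1 ≤ eD s a i w (Fin.last s) := by
  induction w with
  | nil => intro i _ h; simp at h
  | cons e w ih =>
    intro i hl hw
    cases w with
    | nil =>
      have he : e = a := by simpa using hw
      subst he
      rw [eF_self, eF_nil, List.length_nil] at hl
      have : i = s := by omega
      subst this
      rw [eD_self, eD_nil, eidx_s]
      simp
    | cons e2 w2 =>
      rw [List.getLast?_cons_cons] at hw
      by_cases he : e = a
      · subst he
        rw [eF_self] at hl
        rw [eD_self, Finsupp.add_apply]
        have := ih i hl hw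
        omega
      · rw [eF_ne he, List.length_cons] at hl
        rw [eD_ne he]
        exact ih (i + 1) (by omega) hw

theorem eD_head (hs : 1 ≤ s) (w : List X) (hw : w.head? ≠ some a) : eD s a 0 w 0 = 0 := by
  cases w with
  | nil => simp [eD_nil]
  | cons e w =>
    have he : e ≠ a := by
      intro h
      apply hw
      simp [h]
    rw [eD_ne he, ← eidx_zero]
    exact eD_lt w (by omega) (by omega)

theorem eD_head_pos (w : List X) (hw : w.head? = some a) : 1 ≤ eD s a 0 w 0 := by
  cases w with
  | nil => simp at hw
  | cons e w =>
    have he : e = a := by simpa using hw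
    subst he
    rw [eD_self, eidx_zero]
    simp

variable {R : Type v} [CommRing R]

theorem Ym_mul_apply (pat : Fin s → X) (e : X) (M : Matrix (Fin (s + 1)) (Fin (s + 1)) R)
    {i : ℕ} (hi : i < s) (j : Fin (s + 1)) [Decidable (pat ⟨i, hi⟩ = e)] :
    (Ym R pat e * M) (eidx s i) j = if pat ⟨i, hi⟩ = e then M (eidx s (i + 1)) j else 0 := by
  classical
  rw [Matrix.mul_apply]
  have h1 : eidx s i = (⟨i, hi⟩ : Fin s).castSucc := by
    apply Fin.ext
    simp only [eidx, Fin.val_castSucc]
    omega
  have h2 : eidx s (i + 1) = (⟨i, hi⟩ : Fin s).succ := by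
    apply Fin.ext
    simp only [eidx, Fin.val_succ]
    omega
  rw [h1, h2]
  have h3 : ∀ k, Ym R pat e (⟨i, hi⟩ : Fin s).castSucc k =
      if k = (⟨i, hi⟩ : Fin s).succ ∧ pat ⟨i, hi⟩ = e then 1 else 0 := by
    intro k
    unfold Ym
    rw [Matrix.of_apply]
    apply if_congr _ rfl rfl
    constructor
    · rintro ⟨k', hk1, hk2, hk3⟩
      have : (⟨i, hi⟩ : Fin s) = k' := Fin.castSucc_injective _ hk1
      subst this
      exact ⟨hk2, hk3⟩
    · rintro ⟨hk1, hk2⟩
      exact ⟨⟨i, hi⟩, rfl, hk1, hk2⟩
  simp only [h3, ite_mul, one_mul, zero_mul]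
  by_cases h4 : pat ⟨i, hi⟩ = e
  · simp [h4]
  · simp [h4]

theorem Ym_last_mul (pat : Fin s → X) (e : X) (M : Matrix (Fin (s + 1)) (Fin (s + 1)) R)
    (j : Fin (s + 1)) : (Ym R pat e * M) (eidx s s) j = 0 := by
  classical
  rw [Matrix.mul_apply]
  apply Finset.sum_eq_zero
  intro k _
  have : Ym R pat e (eidx s s) k = 0 := by
    unfold Ym
    rw [Matrix.of_apply, if_neg]
    rintro ⟨k', hk1, -, -⟩
    rw [eidx_s] at hk1
    exact (Fin.castSucc_lt_last k').ne hk1.symm
  rw [this, zero_mul]

theorem word_entry (x : Fin (s + 1) → R) (pat : Fin s → X) (hpat : ∀ i, pat i ≠ a) (w : List X) :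
    ∀ i : ℕ, i ≤ s →
      (eF a w = (List.ofFn pat).drop i →
        ((w.map (yz x a pat)).prod) (eidx s i) (Fin.last s) =
          (eD s a i w).prod (fun k e => x k ^ e)) ∧
      (eF a w ≠ (List.ofFn pat).drop i →
        ((w.map (yz x a pat)).prod) (eidx s i) (Fin.last s) = 0) := by
  classical
  induction w with
  | nil =>
    intro i hi
    rw [eF_nil, eD_nil, List.map_nil, List.prod_nil, Finsupp.prod_zero_index]
    rcases Nat.lt_or_ge i s with h | h
    · have h0 : (List.ofFn pat).drop i ≠ [] := by
        intro h0
        rw [List.drop_eq_nil_iff, List.length_ofFn] at h0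
        omega
      refine ⟨fun h1 => absurd h1.symm h0, fun _ => ?_⟩
      rw [Matrix.one_apply_ne]
      intro h1
      have := congrArg Fin.val h1
      simp only [eidx, Fin.val_last] at this
      omega
    · have : i = s := le_antisymm hi h
      subst this
      have h0 : (List.ofFn pat).drop i = [] := by
        rw [List.drop_eq_nil_iff, List.length_ofFn]
      rw [h0, eidx_s]
      exact ⟨fun _ => Matrix.one_apply_eq _, fun h => absurd rfl h⟩
  | cons e w ih =>
    intro i hi
    rw [List.map_cons, List.prod_cons]
    by_cases he : e = a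
    · subst he
      have h1 : yz x e pat e = Matrix.diagonal x := by simp [yz]
      rw [h1, Matrix.diagonal_mul, eF_self, eD_self,
        Finsupp.prod_add_index' (by simp) (fun k b c => pow_add _ _ _),
        Finsupp.prod_single_index (by simp), pow_one]
      obtain ⟨h2, h3⟩ := ih i hi
      exact ⟨fun h => by rw [h2 h], fun h => by rw [h3 h, mul_zero]⟩
    · have h1 : yz x a pat e = Ym R pat e := by simp [yz, he]
      rw [h1, eF_ne he, eD_ne he]
      rcases Nat.lt_or_ge i s with h | h
      · rw [Ym_mul_apply pat e _ h]
        obtain ⟨h2, h3⟩ := ih (i + 1) h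
        have h4 : (List.ofFn pat).drop i = pat ⟨i, h⟩ :: (List.ofFn pat).drop (i + 1) := by
          rw [List.drop_eq_getElem_cons (by simpa using h)]
          simp
        rw [h4, ne_eq, List.cons.injEq]
        constructor
        · rintro ⟨h5, h6⟩
          rw [if_pos h5.symm, h2 h6]
        · intro h5
          by_cases h6 : pat ⟨i, h⟩ = e
          · rw [if_pos h6]
            exact h3 fun h7 => h5 ⟨h6.symm, h7⟩
          · rw [if_neg h6]
      · have : i = s := le_antisymm hi h
        subst this
        rw [Ym_last_mul]
        have h0 : (List.ofFn pat).drop i = [] := by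
          rw [List.drop_eq_nil_iff, List.length_ofFn]
        rw [h0]
        exact ⟨fun h => absurd h (by simp), fun _ => rfl⟩

theorem prod_eq_zero_of_pos {x : Fin (s + 1) → R} {D : Fin (s + 1) →₀ ℕ} {k : Fin (s + 1)}
    (hk : 1 ≤ D k) {y : R} (hy : y * x k = 0) : y * D.prod (fun k e => x k ^ e) = 0 := by
  classical
  have h1 : D = Finsupp.single k 1 + (D - Finsupp.single k 1) := by
    rw [add_tsub_cancel_of_le]
    rw [Finsupp.single_le_iff]
    exact hk
  rw [h1, Finsupp.prod_add_index' (by simp) (fun k b c => pow_add _ _ _),
    Finsupp.prod_single_index (by simp), pow_one, ← mul_assoc, hy, zero_mul]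

end EntryAux

open EntryAux

open Classical in
/-- the corner entry of the evaluation of a homogeneous element is a polynomial in the nodes
whose coefficients are the coefficients of the words whose letters different from `a` are `pat` -/
theorem entry {X : Type u} {p : ℕ} [hp : Fact p.Prime] {R : Type v} [CommRing R]
    [Algebra (ZMod p) R] {s : ℕ} (hs : 1 ≤ s) {x : Fin (s + 1) → R} (hx0 : x 0 = 0)
    (hxs : x (Fin.last s) ^ (p - 1) = 0) (a : X) {pat : Fin s → X} (hpat : ∀ i, pat i ≠ a)
    {c : ℕ} {t : T X p} (ht : t ∈ Hom X p c) :
    ∃ f : MvPolynomial (Fin (s + 1)) (ZMod p), f.IsHomogeneous (c - s) ∧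
      (∀ m ∈ f.support, m 0 = 0 ∧ m (Fin.last s) = 0) ∧
      x (Fin.last s) ^ (p - 2) * (evT (yz x a pat) t) 0 (Fin.last s) =
        x (Fin.last s) ^ (p - 2) * MvPolynomial.aeval x f ∧
      (f = 0 → ∀ w : List X, w.length = c → w.filter (fun e => e ≠ a) = List.ofFn pat →
        w.head? ≠ some a → w.getLast? ≠ some a → cf t w = 0) := by
  obtain ⟨S, hS⟩ := exists_supp t
  set good : List X → Prop := fun w =>
    eF a w = List.ofFn pat ∧ w.head? ≠ some a ∧ w.getLast? ≠ some a with hgood
  set f : MvPolynomial (Fin (s + 1)) (ZMod p) :=
    ∑ w ∈ S.filter good, MvPolynomial.monomial (eD s a 0 w) (cf t w) with hf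
  have hlen : ∀ w ∈ S, w.length = c := by
    intro w hw
    by_contra hne
    exact (hS w).1 hw (mem_Hom.1 ht w hne)
  have hfl : ∀ w, eF a w = List.ofFn pat → (eF a w).length = s := by
    intro w hw
    rw [hw, List.length_ofFn]
  refine ⟨f, ?_, ?_, ?_, ?_⟩
  · rw [hf]
    apply MvPolynomial.IsHomogeneous.sum
    intro w hw
    rw [Finset.mem_filter] at hw
    apply MvPolynomial.isHomogeneous_monomial
    have h1 := eD_degree (s := s) (a := a) w 0
    have h2 := hfl w hw.2.1
    have h3 := hlen w hw.1
    rw [← h3]
    omega
  · intro m hm
    rw [hf] at hm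
    have h1 := MvPolynomial.support_sum hm
    rw [Finset.mem_biUnion] at h1
    obtain ⟨w, hw, hmw⟩ := h1
    rw [Finset.mem_filter] at hw
    have h2 : m = eD s a 0 w := by
      have := MvPolynomial.support_monomial_subset hmw
      simpa using this
    rw [h2]
    refine ⟨eD_head hs w hw.2.2.1, eD_last w 0 ?_ hw.2.2.2⟩
    rw [hfl w hw.2.1]
    omega
  · have h1 : (evT (yz x a pat) t) 0 (Fin.last s) =
        ∑ w ∈ S, cf t w • ((w.map (yz x a pat)).prod) 0 (Fin.last s) := by
      have h2 : evT (yz x a pat) t = ∑ w ∈ S, cf t w • (w.map (yz x a pat)).prod := by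
        have h3 : (evT (yz x a pat)).toLinearMap =
            ext (p := p) (fun w => (w.map (yz x a pat)).prod) := by
          apply T_hom_ext
          intro w
          rw [AlgHom.toLinearMap_apply, evT_wd, ext_wd]
        rw [← AlgHom.toLinearMap_apply, h3]
        apply ext_eq_sum
        intro w hw
        exact (hS w).2 hw
      rw [h2, Matrix.sum_apply]
      rfl
    rw [h1, hf, map_sum, Finset.mul_sum, Finset.mul_sum, Finset.sum_filter]
    apply Finset.sum_congr rfl
    intro w hw
    obtain ⟨h2, h3⟩ := word_entry x pat hpat w 0 (Nat.zero_le _)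
    rw [eidx_zero, List.drop_zero] at h2 h3
    by_cases hg : eF a w = List.ofFn pat
    · rw [h2 hg]
      by_cases hh : w.head? = some a
      · rw [if_neg (fun h => h.2.1 hh), mul_smul_comm,
          prod_eq_zero_of_pos (eD_head_pos w hh) (by rw [hx0, mul_zero]), smul_zero]
      · by_cases hl : w.getLast? = some a
        · rw [if_neg (fun h => h.2.2 hl), mul_smul_comm,
            prod_eq_zero_of_pos (eD_last_pos w 0 (by rw [hfl w hg, zero_add]) hl), smul_zero]
          rw [← pow_succ, show p - 2 + 1 = p - 1 from by have := hp.out.two_le; omega, hxs]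
        · rw [if_pos ⟨hg, hh, hl⟩, MvPolynomial.aeval_monomial, Algebra.smul_def]
    · rw [h3 hg, smul_zero, mul_zero, if_neg (fun h => hg h.1)]
  · intro hf0 w hw hwf hwh hwl
    have hF : eF a w = List.ofFn pat := hwf
    by_contra hne
    have hwS : w ∈ S.filter good := by
      rw [Finset.mem_filter]
      exact ⟨(hS w).2 hne, hF, hwh, hwl⟩
    have h1 : MvPolynomial.coeff (eD s a 0 w) f = cf t w := by
      rw [hf, MvPolynomial.coeff_sum, Finset.sum_eq_single w]
      · rw [MvPolynomial.coeff_monomial, if_pos rfl]
      · intro w' hw' hne'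
        rw [MvPolynomial.coeff_monomial, if_neg]
        intro h2
        rw [Finset.mem_filter] at hw'
        apply hne'
        refine eD_inj w' w (hw'.2.1.trans hF.symm) ?_ h2
        rw [hfl w' hw'.2.1, zero_add]
      · intro h2
        exact absurd hwS h2
    rw [hf0, MvPolynomial.coeff_zero] at h1
    exact hne h1.symm

end Pool.Agent.Helper89.BI
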