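import Pool.Agent.Helper89.BI.Gam

/-! # Module FIL: filtrations and evaluation of words -/

set_option autoImplicit false

namespace Pool.Agent.Helper89.BI

open Pool.Agent.Helper13.Spl

universe u v w

/-- elements of `gam c` are `1` modulo `F c` -/
theorem IsFilt.gam {k : Type v} [CommRing k] {A : Type w} [Ring A] [Algebra k A]
    {F : ℕ → Submodule k A} (hF : IsFilt F) {G : Type u} [Group G] (ψ : G →* A)
    (hψ : ∀ g, ψ g - 1 ∈ F 1) {c : ℕ} (hc : 1 ≤ c) {b : G} (hb : b ∈ gam G c) :
    ψ b - 1 ∈ F c := by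
  have h0 : ∀ g, ψ g ∈ F 0 := fun g => by
    have h := (F 0).add_mem (hF.anti (Nat.zero_le 1) (hψ g)) hF.one
    rwa [sub_add_cancel] at h
  have hl : ∀ {n : ℕ} {x y : A}, x ∈ F n → y ∈ F 0 → x * y ∈ F n := fun {n x y} hx hy => by
    have h := hF.mul n 0 x hx y hy
    rwa [Nat.add_zero] at h
  have hr : ∀ {n : ℕ} {x y : A}, x ∈ F 0 → y ∈ F n → x * y ∈ F n := fun {n x y} hx hy => by
    have h := hF.mul 0 n x hx y hy
    rwa [Nat.zero_add] at h
  induction c, hc using Nat.le_induction generalizing b with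
  | base => exact hψ b
  | succ c hc ih =>
    refine gam_induction hc (Q := fun b => ψ b - 1 ∈ F (c + 1)) ?_ ?_ ?_ ?_ b hb
    · rw [map_one, sub_self]
      exact (F (c + 1)).zero_mem
    · intro x _ y _ hx hy
      have h : ψ (x * y) - 1 = (ψ x - 1) * ψ y + (ψ y - 1) := by
        rw [map_mul, sub_mul, one_mul, sub_add_sub_cancel]
      rw [h]
      exact (F (c + 1)).add_mem (hl hx (h0 y)) hy
    · intro x _ hx
      have h : ψ x⁻¹ - 1 = -(ψ x⁻¹ * (ψ x - 1)) := by
        rw [mul_sub, ← map_mul, inv_mul_cancel, map_one, mul_one, neg_sub]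
      rw [h]
      exact (F (c + 1)).neg_mem (hr (h0 _) hx)
    · intro g hg x
      have h1 : ψ g * ψ g⁻¹ = 1 := by rw [← map_mul, mul_inv_cancel, map_one]
      have h2 : ψ x * ψ x⁻¹ = 1 := by rw [← map_mul, mul_inv_cancel, map_one]
      have h3 : ψ x * ψ g * (ψ g⁻¹ * ψ x⁻¹) = 1 := by
        rw [mul_assoc, ← mul_assoc (ψ g), h1, one_mul, h2]
      have h : ψ (com g x) - 1 =
          ((ψ g - 1) * (ψ x - 1) - (ψ x - 1) * (ψ g - 1)) * (ψ g⁻¹ * ψ x⁻¹) := by
        have h4 : (ψ g - 1) * (ψ x - 1) - (ψ x - 1) * (ψ g - 1) = ψ g * ψ x - ψ x * ψ g := by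
          noncomm_ring
        rw [h4, sub_mul, h3, com, map_mul, map_mul, map_mul, mul_assoc]
      rw [h]
      refine hl ?_ (hF.mul 0 0 _ (h0 _) _ (h0 _))
      refine (F (c + 1)).sub_mem (hF.mul c 1 _ (ih hg) _ (hψ x)) ?_
      have h5 := hF.mul 1 c _ (hψ x) _ (ih hg)
      rwa [Nat.add_comm] at h5

variable {X : Type u} {p : ℕ}

theorem vr_eq_wd (a : X) : (vr a : T X p) = wd [a] := by
  rfl

theorem wd_nil : (wd [] : T X p) = 1 := by
  rfl

theorem wd_append (v w : List X) : (wd (v ++ w) : T X p) = wd v * wd w := by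
  rw [wd, wd, wd, MonoidAlgebra.single_mul_single, mul_one]
  rfl

@[simp] theorem cf_wd [DecidableEq X] (v w : List X) :
    cf (wd v : T X p) w = if v = w then 1 else 0 := by
  rw [cf, wd, MonoidAlgebra.coeff_single]
  by_cases h : v = w
  · subst h
    rw [if_pos rfl, Finsupp.single_eq_same]
  · rw [if_neg h, Finsupp.single_eq_of_ne]
    exact fun h2 => h (FreeMonoid.ofList.injective h2).symm

@[simp] theorem cf_zero (w : List X) : cf (0 : T X p) w = 0 := by
  rfl

@[simp] theorem cf_add (s t : T X p) (w : List X) : cf (s + t) w = cf s w + cf t w := by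
  rfl

@[simp] theorem cf_sub (s t : T X p) (w : List X) : cf (s - t) w = cf s w - cf t w := by
  rfl

@[simp] theorem cf_smul (r : ZMod p) (t : T X p) (w : List X) : cf (r • t) w = r * cf t w := by
  rfl

theorem cf_mul_vr (t : T X p) (w : List X) (a : X) : cf (t * vr a) (w ++ [a]) = cf t w := by
  unfold cf vr
  rw [MonoidAlgebra.coeff_mul_single_eq_coeff_mul (FreeMonoid.ofList w), mul_one]
  intro m _
  constructor
  · intro h
    have h1 : FreeMonoid.toList m ++ [a] = w ++ [a] := h
    exact List.append_cancel_right h1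
  · intro h
    subst h
    rfl

theorem cf_mul_vr_ne (t : T X p) {w : List X} {a : X} (h : w.getLast? ≠ some a) :
    cf (t * vr a) w = 0 := by
  unfold cf vr
  refine MonoidAlgebra.coeff_mul_single_of_forall_mul_ne _ _ fun m hm => h ?_
  have h1 : FreeMonoid.toList m ++ [a] = w := hm
  rw [← h1, List.getLast?_append]
  rfl

theorem cf_vr_mul (t : T X p) (w : List X) (a : X) : cf (vr a * t) (a :: w) = cf t w := by
  unfold cf vr
  rw [MonoidAlgebra.coeff_single_mul_eq_mul_coeff (FreeMonoid.ofList w), one_mul]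
  intro m _
  constructor
  · intro h
    have h1 : a :: FreeMonoid.toList m = a :: w := h
    exact (List.cons.inj h1).2
  · intro h
    subst h
    rfl

theorem cf_vr_mul_ne (t : T X p) {w : List X} {a : X} (h : w.head? ≠ some a) :
    cf (vr a * t) w = 0 := by
  unfold cf vr
  refine MonoidAlgebra.coeff_single_mul_of_forall_mul_ne _ _ fun m hm => h ?_
  have h1 : a :: FreeMonoid.toList m = w := hm
  rw [← h1]
  rfl

theorem T_ext {s t : T X p} (h : ∀ w, cf s w = cf t w) : s = t := by
  refine MonoidAlgebra.coeff_injective (Finsupp.ext fun w => ?_)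
  exact h (FreeMonoid.toList w)

@[simp] theorem ext_wd {M : Type v} [AddCommGroup M] [Module (ZMod p) M] (f : List X → M)
    (w : List X) : ext f (wd w : T X p) = f w := by
  change Finsupp.linearCombination (ZMod p) (fun w : FreeMonoid X => f (FreeMonoid.toList w))
    (Finsupp.single (FreeMonoid.ofList w) 1) = f w
  rw [Finsupp.linearCombination_single, one_smul]
  rfl

theorem exists_supp' (t : T X p) : ∃ S : Finset (List X), ∀ w, w ∈ S ↔ cf t w ≠ 0 := by
  refine ⟨t.coeff.support.map FreeMonoid.toList.toEmbedding, fun w => ?_⟩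
  rw [Finset.mem_map]
  constructor
  · rintro ⟨m, hm, rfl⟩
    exact Finsupp.mem_support_iff.1 hm
  · intro h
    exact ⟨FreeMonoid.ofList w, Finsupp.mem_support_iff.2 h, rfl⟩

/-- the coefficient as a linear map -/
noncomputable def cfL (w : List X) : T X p →ₗ[ZMod p] ZMod p where
  toFun t := cf t w
  map_add' _ _ := rfl
  map_smul' _ _ := rfl

theorem eq_sum_cf (t : T X p) (S : Finset (List X)) (hS : ∀ w, cf t w ≠ 0 → w ∈ S) :
    t = ∑ w ∈ S, cf t w • wd w := by
  classical
  refine T_ext fun v => ?_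
  have h1 : cf (∑ w ∈ S, cf t w • (wd w : T X p)) v = ∑ w ∈ S, cf (cf t w • (wd w : T X p)) v :=
    map_sum (cfL v) _ _
  have h2 : ∀ w, cf (cf t w • (wd w : T X p)) v = if w = v then cf t w else 0 := by
    intro w
    rw [cf_smul, cf_wd]
    split_ifs <;> simp
  rw [h1, Finset.sum_congr rfl fun w _ => h2 w, Finset.sum_ite_eq']
  split_ifs with h
  · rfl
  · by_contra h3
    exact h (hS v h3)

/-- two linear maps agreeing on words agree -/
theorem T_hom_ext {M : Type v} [AddCommGroup M] [Module (ZMod p) M] {f g : T X p →ₗ[ZMod p] M}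
    (h : ∀ w, f (wd w) = g (wd w)) : f = g := by
  classical
  refine LinearMap.ext fun t => ?_
  obtain ⟨S, hS⟩ := exists_supp' t
  rw [eq_sum_cf t S fun w hw => (hS w).2 hw, map_sum, map_sum]
  exact Finset.sum_congr rfl fun w _ => by rw [map_smul, map_smul, h w]

theorem ext_eq_sum {M : Type v} [AddCommGroup M] [Module (ZMod p) M] (f : List X → M)
    (t : T X p) (S : Finset (List X)) (hS : ∀ w, cf t w ≠ 0 → w ∈ S) :
    ext f t = ∑ w ∈ S, cf t w • f w := by
  conv_lhs => rw [eq_sum_cf t S hS]
  rw [map_sum]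
  exact Finset.sum_congr rfl fun w _ => by rw [map_smul, ext_wd]

/-- the support as a finite set of words -/
theorem exists_supp (t : T X p) : ∃ S : Finset (List X), ∀ w, w ∈ S ↔ cf t w ≠ 0 := by
  exact exists_supp' t

theorem mem_Hom {t : T X p} {c : ℕ} : t ∈ Hom X p c ↔ ∀ w, w.length ≠ c → cf t w = 0 := by
  classical
  constructor
  · intro h w hw
    have h1 : Hom X p c ≤ LinearMap.ker (cfL w) := by
      refine Submodule.span_le.2 ?_
      rintro _ ⟨v, hv, rfl⟩
      change cf (wd v) w = 0
      rw [cf_wd, if_neg]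
      rintro rfl
      exact hw hv
    exact h1 h
  · intro h
    obtain ⟨S, hS⟩ := exists_supp' t
    rw [eq_sum_cf t S fun w hw => (hS w).2 hw]
    refine Submodule.sum_mem _ fun w hw => Submodule.smul_mem _ _ (Submodule.subset_span ⟨w, ?_, rfl⟩)
    by_contra h1
    exact (hS w).1 hw (h w h1)

theorem Hom_mul {s t : T X p} {c d : ℕ} (hs : s ∈ Hom X p c) (ht : t ∈ Hom X p d) :
    s * t ∈ Hom X p (c + d) := by
  have h1 : Hom X p c * Hom X p d ≤ Hom X p (c + d) := by
    rw [Hom, Hom, Submodule.span_mul_span]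
    refine Submodule.span_mono ?_
    rintro _ ⟨_, ⟨v, hv, rfl⟩, _, ⟨w, hw, rfl⟩, rfl⟩
    refine ⟨v ++ w, ?_, wd_append v w⟩
    change (v ++ w).length = c + d
    rw [List.length_append, hv, hw]
  exact h1 (Submodule.mul_mem_mul hs ht)

theorem vr_mem_Hom (a : X) : (vr a : T X p) ∈ Hom X p 1 := by
  exact Submodule.subset_span ⟨[a], rfl, rfl⟩

/-- the letters span the Lie polynomials of degree 1 -/
theorem vr_mem_Lie (a : X) : (vr a : T X p) ∈ Lie X p 1 := by
  exact Submodule.subset_span ⟨[a], rfl, rfl⟩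

theorem rho_singleton (a : X) : (rho [a] : T X p) = vr a := by
  rfl

theorem rho_concat {v : List X} (hv : v ≠ []) (e : X) :
    (rho (v ++ [e]) : T X p) = rho v * vr e - vr e * rho v := by
  obtain ⟨a, v', rfl⟩ := List.exists_cons_of_ne_nil hv
  change adT (vr a) (v' ++ [e]) = adT (vr a) v' * vr e - vr e * adT (vr a) v'
  rw [adT, List.foldl_append]
  rfl

theorem rho_mem_Lie (v : List X) : (rho v : T X p) ∈ Lie X p v.length := by
  exact Submodule.subset_span ⟨v, rfl, rfl⟩

theorem rho_mem_Hom (v : List X) : (rho v : T X p) ∈ Hom X p v.length := by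
  induction v using List.reverseRecOn with
  | nil => exact Submodule.zero_mem _
  | append_singleton v e ih =>
    rcases eq_or_ne v [] with rfl | hv
    · exact vr_mem_Hom e
    · rw [rho_concat hv, List.length_append]
      refine Submodule.sub_mem _ (Hom_mul ih (vr_mem_Hom e)) ?_
      have h := Hom_mul (vr_mem_Hom (p := p) e) ih
      rwa [Nat.add_comm] at h

theorem Lie_le_Hom (c : ℕ) : Lie X p c ≤ Hom X p c := by
  refine Submodule.span_le.2 ?_
  rintro _ ⟨v, hv, rfl⟩
  have h := rho_mem_Hom (p := p) v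
  rwa [hv] at h

theorem Lie_bracket_vr {c : ℕ} (hc : 1 ≤ c) {t : T X p} (ht : t ∈ Lie X p c) (e : X) :
    t * vr e - vr e * t ∈ Lie X p (c + 1) := by
  let L : T X p →ₗ[ZMod p] T X p :=
    LinearMap.mulRight (ZMod p) (vr e) - LinearMap.mulLeft (ZMod p) (vr e)
  have h : Lie X p c ≤ (Lie X p (c + 1)).comap L := by
    refine Submodule.span_le.2 ?_
    rintro _ ⟨v, hv, rfl⟩
    have hv0 : v ≠ [] := by
      rintro rfl
      have hv' : ([] : List X).length = c := hv
      rw [List.length_nil] at hv'
      omega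
    change rho v * vr e - vr e * rho v ∈ Lie X p (c + 1)
    rw [← rho_concat hv0]
    have h2 := rho_mem_Lie (p := p) (v ++ [e])
    rwa [List.length_append, hv] at h2
  exact h ht

theorem evT_vr {A : Type w} [Ring A] [Algebra (ZMod p) A] (y : X → A) (a : X) :
    evT y (vr a : T X p) = y a := by
  rw [evT, vr, MonoidAlgebra.lift_single, one_smul, FreeMonoid.lift_eval_of]

theorem evT_wd {A : Type w} [Ring A] [Algebra (ZMod p) A] (y : X → A) (w : List X) :
    evT y (wd w : T X p) = (w.map y).prod := by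
  rw [evT, wd, MonoidAlgebra.lift_single, one_smul, FreeMonoid.lift_apply]
  rfl

/-- homogeneous elements of degree `c` are evaluated in `F c` -/
theorem evT_mem {A : Type w} [Ring A] [Algebra (ZMod p) A] {F : ℕ → Submodule (ZMod p) A}
    (hF : IsFilt F) {y : X → A} (hy : ∀ a, y a ∈ F 1) {c : ℕ} {t : T X p} (ht : t ∈ Hom X p c) :
    evT y t ∈ F c := by
  have h1 : ∀ w : List X, (w.map y).prod ∈ F w.length := by
    intro w
    induction w with
    | nil => exact hF.one
    | cons a w ih =>
      have h := hF.mul 1 _ _ (hy a) _ ih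
      rwa [Nat.add_comm] at h
  have h : Hom X p c ≤ (F c).comap (evT y).toLinearMap := by
    refine Submodule.span_le.2 ?_
    rintro _ ⟨w, hw, rfl⟩
    change evT y (wd w) ∈ F c
    have hw' : w.length = c := hw
    rw [evT_wd, ← hw']
    exact h1 w
  exact h ht

/-- evaluations at families congruent modulo `F 2` agree modulo `F (c+1)` -/
theorem evT_congr {A : Type w} [Ring A] [Algebra (ZMod p) A] {F : ℕ → Submodule (ZMod p) A}
    (hF : IsFilt F) {y z : X → A} (hy : ∀ a, y a ∈ F 1) (hz : ∀ a, z a ∈ F 1)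
    (hyz : ∀ a, y a - z a ∈ F 2) {c : ℕ} {t : T X p} (ht : t ∈ Hom X p c) :
    evT y t - evT z t ∈ F (c + 1) := by
  have h1 : ∀ (y : X → A), (∀ a, y a ∈ F 1) → ∀ w : List X, (w.map y).prod ∈ F w.length := by
    intro y hy w
    induction w with
    | nil => exact hF.one
    | cons a w ih =>
      have h := hF.mul 1 _ _ (hy a) _ ih
      rwa [Nat.add_comm] at h
  have h2 : ∀ w : List X, (w.map y).prod - (w.map z).prod ∈ F (w.length + 1) := by
    intro w
    induction w with
    | nil =>
      rw [List.map_nil, List.map_nil, sub_self]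
      exact Submodule.zero_mem _
    | cons a w ih =>
      have h3 : ((a :: w).map y).prod - ((a :: w).map z).prod =
          (y a - z a) * (w.map y).prod + z a * ((w.map y).prod - (w.map z).prod) := by
        rw [List.map_cons, List.map_cons, List.prod_cons, List.prod_cons]
        noncomm_ring
      rw [h3]
      refine Submodule.add_mem _ ?_ ?_
      · have h4 := hF.mul 2 _ _ (hyz a) _ (h1 y hy w)
        exact hF.anti (by rw [List.length_cons]; omega) h4
      · have h4 := hF.mul 1 _ _ (hz a) _ ih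
        exact hF.anti (by rw [List.length_cons]; omega) h4
  have h : Hom X p c ≤ (F (c + 1)).comap ((evT y).toLinearMap - (evT z).toLinearMap) := by
    refine Submodule.span_le.2 ?_
    rintro _ ⟨w, hw, rfl⟩
    change evT y (wd w) - evT z (wd w) ∈ F (c + 1)
    have hw' : w.length = c := hw
    rw [evT_wd, evT_wd, ← hw']
    exact h2 w
  exact h ht

theorem cm_nil (g : Burn X p) : cm g [] = g := rfl

theorem cm_concat (g : Burn X p) (v : List X) (e : X) :
    cm g (v ++ [e]) = com (cm g v) (lt e) := by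
  rw [cm, List.foldl_append]
  rfl

theorem Cc_singleton (a : X) : (Cc [a] : Burn X p) = lt a := rfl

theorem Cc_concat {v : List X} (hv : v ≠ []) (e : X) :
    (Cc (v ++ [e]) : Burn X p) = com (Cc v) (lt e) := by
  obtain ⟨a, v', rfl⟩ := List.exists_cons_of_ne_nil hv
  exact cm_concat (lt a) v' e

theorem Cc_mem {v : List X} (hv : v ≠ []) : (Cc v : Burn X p) ∈ gam (Burn X p) v.length := by
  induction v using List.reverseRecOn with
  | nil => exact absurd rfl hv
  | append_singleton v e ih =>
    rcases eq_or_ne v [] with rfl | hv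
    · exact mem_gam_one _
    · rw [Cc_concat hv, List.length_append]
      exact gam_com_one (List.length_pos_iff.2 hv) (ih hv) _

theorem cm_mem {m : ℕ} (hm : 1 ≤ m) {g : Burn X p} (hg : g ∈ gam (Burn X p) m) (v : List X) :
    cm g v ∈ gam (Burn X p) (m + v.length) := by
  induction v using List.reverseRecOn with
  | nil => exact hg
  | append_singleton v e ih =>
    rw [cm_concat, List.length_append]
    exact gam_com_one (by omega) ih _

/-- the letters generate -/
theorem closure_lt : Subgroup.closure (Set.range (lt : X → Burn X p)) = ⊤ := by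
  have h1 : Set.range (lt : X → Burn X p) = Burn.mk X p '' Set.range FreeGroup.of := by
    ext g
    constructor
    · rintro ⟨a, rfl⟩
      exact ⟨_, ⟨a, rfl⟩, rfl⟩
    · rintro ⟨_, ⟨a, rfl⟩, rfl⟩
      exact ⟨a, rfl⟩
  rw [h1, ← MonoidHom.map_closure, FreeGroup.closure_range_of, ← MonoidHom.range_eq_map,
    MonoidHom.range_eq_top]
  exact Burn.mk_surj X p

end Pool.Agent.Helper89.BI
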