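import Pool.Agent.Helper89.BI.Fil
import Pool.Agent.Helper89.BI.FunCalc

/-! # Module GENLEM -/

set_option autoImplicit false

namespace Pool.Agent.Helper89.BI

open Pool.Agent.Helper13.Spl

universe u v w

/-- an additive function on `B(X, p)` vanishing on the letters vanishes -/
theorem add_eq_zero {X : Type u} {p : ℕ} {χ : Burn X p → ZMod p}
    (hadd : ∀ x y, χ (x * y) = χ x + χ y) (h0 : ∀ e : X, χ (lt e) = 0) : ∀ b, χ b = 0 := by
  have h1 : AddOn (⊤ : Subgroup (Burn X p)) χ := fun x _ y _ => hadd x y
  let K : Subgroup (Burn X p) :=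
    { carrier := {x | χ x = 0}
      mul_mem' := by
        intro x y hx hy
        have hx' : χ x = 0 := hx
        have hy' : χ y = 0 := hy
        show χ (x * y) = 0
        rw [hadd, hx', hy', add_zero]
      one_mem' := h1.one
      inv_mem' := by
        intro x hx
        have hx' : χ x = 0 := hx
        show χ x⁻¹ = 0
        rw [h1.inv (Subgroup.mem_top x), hx', neg_zero] }
  have h2 : Subgroup.closure (Set.range (lt : X → Burn X p)) ≤ K := by
    rw [Subgroup.closure_le]
    rintro _ ⟨e, rfl⟩
    exact h0 e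
  intro b
  rw [closure_lt] at h2
  exact h2 (Subgroup.mem_top b)

/-- a functional vanishing on the left normed commutators of letters vanishes -/
theorem fun_eq_zero {X : Type u} {p : ℕ} {c : ℕ} (hc : 1 ≤ c) {χ : Burn X p → ZMod p}
    (hχ : IsFun c χ) (h0 : ∀ w : List X, w.length = c → χ (Cc w) = 0) :
    ∀ b ∈ gam (Burn X p) c, χ b = 0 := by
  induction c, hc using Nat.le_induction generalizing χ with
  | base =>
    intro b _
    apply add_eq_zero
    · intro x y
      exact hχ.add x (mem_gam_one x) y (mem_gam_one y)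
    · intro e
      exact h0 [e] rfl
  | succ c hc ih =>
    have h1 : ∀ h ∈ gam (Burn X p) c, ∀ e : X, χ (com h (lt e)) = 0 := by
      intro h hh e
      have hd := hχ.der (i := c) (j := 1) hc le_rfl rfl (mem_gam_one (lt e : Burn X p))
      refine ih hd ?_ h hh
      intro w hw
      have hne : w ≠ [] := by
        rintro rfl
        simp at hw
        omega
      have := h0 (w ++ [e]) (by simp [hw])
      rwa [Cc_concat hne] at this
    have h2 : ∀ h ∈ gam (Burn X p) c, ∀ x, χ (com h x) = 0 := by
      intro h hh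
      apply add_eq_zero (χ := fun x => χ (com h x))
      · intro x y
        exact hχ.com_right hc le_rfl rfl hh (mem_gam_one x) (mem_gam_one y)
      · exact h1 h hh
    refine gam_induction hc hχ.add.one ?_ ?_ h2
    · intro x hx y hy hx' hy'
      rw [hχ.add x hx y hy, hx', hy', add_zero]
    · intro x hx hx'
      rw [hχ.add.inv hx, hx', neg_zero]

/-- functionals separate the points of `gam c / gam (c+1)` -/
theorem sep_fun {G : Type u} [Group G] {p : ℕ} [Fact p.Prime] (hexp : ∀ g : G, g ^ p = 1)
    {c : ℕ} (hc : 1 ≤ c) {b : G} (hb : b ∈ gam G c) (hb' : b ∉ gam G (c + 1)) :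
    ∃ χ : G → ZMod p, IsFun c χ ∧ χ b ≠ 0 := by
  classical
  let N : Subgroup (gam G c) := (gam G (c + 1)).subgroupOf (gam G c)
  have hN : N.Normal := inferInstance
  have hcomm : ∀ x y : (gam G c) ⧸ N, x * y = y * x := by
    intro x y
    obtain ⟨x, rfl⟩ := QuotientGroup.mk_surjective x
    obtain ⟨y, rfl⟩ := QuotientGroup.mk_surjective y
    rw [← QuotientGroup.mk_mul, ← QuotientGroup.mk_mul, QuotientGroup.eq]
    have e : (((x * y)⁻¹ * (y * x) : gam G c) : G) = com (y : G)⁻¹ (x : G)⁻¹ := by
      simp only [com_def]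
      push_cast
      group
    show (((x * y)⁻¹ * (y * x) : gam G c) : G) ∈ gam G (c + 1)
    rw [e]
    exact gam_com_one hc (Subgroup.inv_mem _ y.2) _
  let inst : CommGroup ((gam G c) ⧸ N) := { (inferInstance : Group ((gam G c) ⧸ N)) with
    mul_comm := hcomm }
  have hM : ∀ x : Additive ((gam G c) ⧸ N), p • x = 0 := by
    intro x
    obtain ⟨y, hy⟩ := QuotientGroup.mk_surjective (Additive.toMul x)
    have h1 : (Additive.toMul x) ^ p = 1 := by
      rw [← hy, ← QuotientGroup.mk_pow]
      have : y ^ p = 1 := by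
        apply Subtype.ext
        push_cast
        exact hexp _
      rw [this]
      rfl
    exact h1
  have hne : (Additive.ofMul (QuotientGroup.mk (s := N) ⟨b, hb⟩)) ≠ 0 := by
    intro h
    have h1 : (QuotientGroup.mk (s := N) ⟨b, hb⟩) = 1 := h
    rw [QuotientGroup.eq_one_iff] at h1
    exact hb' h1
  obtain ⟨f, hf⟩ := sepfun p hM hne
  refine ⟨fun g => if h : g ∈ gam G c then f (Additive.ofMul (QuotientGroup.mk (s := N) ⟨g, h⟩))
    else 0, ⟨?_, ?_⟩, ?_⟩
  · intro x hx y hy
    simp only [hx, hy, Subgroup.mul_mem _ hx hy, dif_pos]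
    rw [← map_add]
    rfl
  · intro x hx
    have hx' : x ∈ gam G c := gam_anti (Nat.le_succ c) hx
    simp only [hx', dif_pos]
    have h1 : (QuotientGroup.mk (s := N) ⟨x, hx'⟩) = 1 := by
      rw [QuotientGroup.eq_one_iff]
      exact hx
    rw [h1]
    exact map_zero f
  · simp only [hb, dif_pos]
    exact hf

end Pool.Agent.Helper89.BI
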