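import Pool.Agent.Helper89.BI.Fil

/-! # Module NJLEM -/

set_option autoImplicit false

namespace Pool.Agent.Helper89.BI

open Pool.Agent.Helper13.Spl

universe u v w

variable {X : Type u} {p : ℕ}

theorem nj_append (a : X) (v w : List X) : nj a (v ++ w) = nj a v + nj a w := by
  classical
  unfold nj
  exact List.countP_append

/-- all the words of `rho v` have the same number of letters different from `a` -/
theorem nj_of_cf_rho (a : X) {v w : List X} (h : cf (rho v : T X p) w ≠ 0) : nj a w = nj a v := by
  classical
  induction v using List.reverseRecOn generalizing w with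
  | nil =>
    exfalso
    apply h
    exact cf_zero w
  | append_singleton v e ih =>
    rcases eq_or_ne v [] with rfl | hv
    · rw [List.nil_append, rho_singleton, vr_eq_wd, cf_wd] at h
      split_ifs at h with h1
      · rw [List.nil_append, h1]
      · exact absurd rfl h
    · rw [rho_concat hv, cf_sub] at h
      have h2 : cf (rho v * vr e : T X p) w ≠ 0 ∨ cf (vr e * rho v : T X p) w ≠ 0 := by
        by_contra hcon
        push Not at hcon
        exact h (by rw [hcon.1, hcon.2, sub_zero])
      rcases h2 with h2 | h2
      · have h3 : w.getLast? = some e := by
          by_contra hcon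
          exact h2 (cf_mul_vr_ne _ hcon)
        obtain ⟨w', rfl⟩ := List.getLast?_eq_some_iff.1 h3
        rw [cf_mul_vr] at h2
        rw [nj_append, nj_append, ih h2]
      · have h3 : w.head? = some e := by
          by_contra hcon
          exact h2 (cf_vr_mul_ne _ hcon)
        obtain ⟨w', rfl⟩ := List.head?_eq_some_iff.1 h3
        rw [cf_vr_mul] at h2
        rw [show e :: w' = [e] ++ w' from rfl, nj_append, nj_append, ih h2, add_comm]

theorem eq_replicate_of_nj {a : X} {v : List X} (h : nj a v = 0) :
    v = List.replicate v.length a := by
  classical
  rw [List.eq_replicate_iff]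
  refine ⟨rfl, fun b hb => ?_⟩
  unfold nj at h
  rw [List.countP_eq_zero] at h
  have := h b hb
  simpa using this

/-- words without letters different from `a` have trivial bracket and commutator -/
theorem rho_of_nj_zero {a : X} {v : List X} (h : nj a v = 0) (hv : 2 ≤ v.length) :
    (rho v : T X p) = 0 ∧ (Cc v : Burn X p) = 1 := by
  rw [eq_replicate_of_nj h]
  generalize v.length = c at hv
  induction c, hv using Nat.le_induction with
  | base =>
    have h1 : List.replicate 2 a = [a] ++ [a] := rfl
    rw [h1, rho_concat (by simp), Cc_concat (by simp), rho_singleton, sub_self, Cc_singleton]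
    refine ⟨rfl, ?_⟩
    rw [com_def]
    group
  | succ c hc ih =>
    have hne : List.replicate c a ≠ [] := by
      intro h0
      have := congrArg List.length h0
      rw [List.length_replicate, List.length_nil] at this
      omega
    rw [List.replicate_succ', rho_concat hne, Cc_concat hne, ih.1, ih.2, zero_mul, mul_zero,
      sub_zero]
    refine ⟨rfl, ?_⟩
    rw [com_def]
    group

/-- constant words do not occur in Lie polynomials of degree at least two -/
theorem cf_replicate {a : X} {c : ℕ} (hc : 2 ≤ c) {t : T X p} (ht : t ∈ Lie X p c) :
    cf t (List.replicate c a) = 0 := by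
  classical
  have hnj : nj a (List.replicate c a) = 0 := by
    unfold nj
    rw [List.countP_eq_zero]
    intro b hb
    have := List.eq_of_mem_replicate hb
    simp [this]
  unfold Lie at ht
  induction ht using Submodule.span_induction with
  | mem x hx =>
    obtain ⟨w, hw, rfl⟩ := hx
    have hw' : w.length = c := hw
    by_contra hcon
    have h1 := nj_of_cf_rho a hcon
    rw [hnj] at h1
    have h2 := (rho_of_nj_zero (p := p) h1.symm (by omega)).1
    rw [h2] at hcon
    exact hcon (cf_zero _)
  | zero => exact cf_zero _
  | add x y _ _ hx hy => rw [cf_add, hx, hy, add_zero]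
  | smul r x _ hx => rw [cf_smul, hx, mul_zero]

end Pool.Agent.Helper89.BI
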