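import Pool.Agent.Helper89.BI.Fil

/-! # Module UNIQ -/

set_option autoImplicit false

namespace Pool.Agent.Helper89.BI

open Pool.Agent.Helper13.Spl

universe u v w

/-- the filtration of the matrix algebra by the distance from the diagonal -/
def uF (p m : ℕ) (d : ℕ) : Submodule (ZMod p) (Matrix (Fin (m + 1)) (Fin (m + 1)) (ZMod p)) where
  carrier := {M | ∀ i j : Fin (m + 1), (j : ℕ) < i + d → M i j = 0}
  add_mem' := by
    intro M N hM hN i j hij
    rw [Matrix.add_apply, hM i j hij, hN i j hij, add_zero]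
  zero_mem' := fun _ _ _ => rfl
  smul_mem' := by
    intro r M hM i j hij
    rw [Matrix.smul_apply, hM i j hij, smul_zero]

theorem mem_uF {p m d : ℕ} {M : Matrix (Fin (m + 1)) (Fin (m + 1)) (ZMod p)} :
    M ∈ uF p m d ↔ ∀ i j : Fin (m + 1), (j : ℕ) < i + d → M i j = 0 := Iff.rfl

theorem uF_filt (p m : ℕ) : IsFilt (uF p m) where
  one := by
    intro i j hij
    rw [Matrix.one_apply_ne]
    rintro rfl
    omega
  anti := by
    intro d e hde M hM i j hij
    exact hM i j (by omega)
  mul := by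
    intro d e M hM N hN i j hij
    rw [Matrix.mul_apply]
    refine Finset.sum_eq_zero fun k _ => ?_
    by_cases hk : (k : ℕ) < i + d
    · rw [hM i k hk, zero_mul]
    · rw [hN k j (by omega), mul_zero]

theorem uF_bot (p m : ℕ) : uF p m (m + 1) = ⊥ := by
  rw [eq_bot_iff]
  intro M hM
  rw [Submodule.mem_bot]
  ext i j
  exact hM i j (by omega)

/-- powers of elements of `F 1` -/
theorem uq_pow_mem {k : Type v} [CommRing k] {A : Type w} [Ring A] [Algebra k A]
    {F : ℕ → Submodule k A} (hF : IsFilt F) {x : A} (hx : x ∈ F 1) (n : ℕ) : x ^ n ∈ F n := by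
  induction n with
  | zero => rw [pow_zero]; exact hF.one
  | succ n ih => rw [pow_succ]; exact hF.mul n 1 _ ih _ hx

theorem uF_pow {p m : ℕ} [Fact p.Prime] (hm : m < p)
    {M : Matrix (Fin (m + 1)) (Fin (m + 1)) (ZMod p)} (hM : M - 1 ∈ uF p m 1) : M ^ p = 1 := by
  have h1 : (M - 1) ^ p = 0 := by
    have h2 := uq_pow_mem (uF_filt p m) hM p
    have h3 := (uF_filt p m).anti (show m + 1 ≤ p by omega) h2
    rw [uF_bot] at h3
    exact h3
  have h2 : ((M - 1) + 1) ^ p = (M - 1) ^ p + 1 ^ p :=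
    add_pow_char_of_commute _ (Commute.one_right _)
  rw [sub_add_cancel, h1, zero_add, one_pow] at h2
  exact h2

/-- the matrix attached to a letter -/
def uN (p : ℕ) {X : Type u} [DecidableEq X] (w : List X) (a : X) :
    Matrix (Fin (w.length + 1)) (Fin (w.length + 1)) (ZMod p) :=
  fun i j => if (j : ℕ) = i + 1 ∧ w[(i : ℕ)]? = some a then 1 else 0

theorem uN_mem (p : ℕ) {X : Type u} [DecidableEq X] (w : List X) (a : X) :
    uN p w a ∈ uF p w.length 1 := by
  intro i j hij
  unfold uN
  rw [if_neg]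
  rintro ⟨h, -⟩
  omega

theorem uN_prod (p : ℕ) {X : Type u} [DecidableEq X] (w : List X) (v : List X) :
    ∀ i j : Fin (w.length + 1), (j : ℕ) = i + v.length →
      (v.map (uN p w)).prod i j = if (w.drop i).take v.length = v then 1 else 0 := by
  induction v with
  | nil =>
    intro i j hij
    have : i = j := by
      apply Fin.ext
      simpa using hij.symm
    subst this
    simp
  | cons a v ih =>
    intro i j hij
    rw [List.length_cons] at hij
    rw [List.map_cons, List.prod_cons, Matrix.mul_apply]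
    have hi : (i : ℕ) < w.length := by omega
    rw [Finset.sum_eq_single (⟨(i : ℕ) + 1, by omega⟩ : Fin (w.length + 1))]
    · rw [ih ⟨(i : ℕ) + 1, by omega⟩ j (by simp; omega)]
      have h1 : w.drop i = w[(i : ℕ)] :: w.drop (i + 1) := List.drop_eq_getElem_cons hi
      rw [h1, List.length_cons, List.take_succ_cons]
      have h2 : w[(i : ℕ)]? = some w[(i : ℕ)] := List.getElem?_eq_getElem hi
      unfold uN
      rw [h2]
      by_cases h3 : w[(i : ℕ)] = a
      · simp [h3]
      · simp [h3]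
    · intro k _ hk
      unfold uN
      rw [if_neg, zero_mul]
      rintro ⟨h, -⟩
      exact hk (Fin.ext h)
    · intro h
      exact absurd (Finset.mem_univ _) h

/-- the matrices congruent to `1` modulo `F 1` -/
def uS (p m : ℕ) : Submonoid (Matrix (Fin (m + 1)) (Fin (m + 1)) (ZMod p)) where
  carrier := {M | M - 1 ∈ uF p m 1}
  one_mem' := by
    change _ ∈ uF p m 1
    rw [sub_self]
    exact Submodule.zero_mem _
  mul_mem' := by
    intro a b ha hb
    have h1 : a * b - 1 = (a - 1) * (b - 1) + ((a - 1) + (b - 1)) := by noncomm_ring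
    change _ ∈ uF p m 1
    rw [h1]
    exact Submodule.add_mem _ ((uF_filt p m).anti (show 1 ≤ 1 + 1 by omega)
      ((uF_filt p m).mul 1 1 _ ha _ hb)) (Submodule.add_mem _ ha hb)

theorem mem_uS {p m : ℕ} {M : Matrix (Fin (m + 1)) (Fin (m + 1)) (ZMod p)} :
    M ∈ uS p m ↔ M - 1 ∈ uF p m 1 := Iff.rfl

/-- a homomorphism of the free group to the units whose letters are in `uS` descends -/
theorem uS_lift {X : Type u} {p m : ℕ} [Fact p.Prime] (hm : m < p)
    (N : X → Matrix (Fin (m + 1)) (Fin (m + 1)) (ZMod p)) (hN : ∀ a, N a - 1 ∈ uF p m 1) :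
    ∃ ψ : Burn X p →* Matrix (Fin (m + 1)) (Fin (m + 1)) (ZMod p),
      (∀ g, ψ g - 1 ∈ uF p m 1) ∧ ∀ a, ψ (lt a) = N a := by
  have hp0 : 0 < p := (Fact.out : p.Prime).pos
  have hu : ∀ M : Matrix (Fin (m + 1)) (Fin (m + 1)) (ZMod p), M ∈ uS p m → M ^ p = 1 :=
    fun M hM => uF_pow hm hM
  let un : X → (Matrix (Fin (m + 1)) (Fin (m + 1)) (ZMod p))ˣ := fun a =>
    { val := N a
      inv := N a ^ (p - 1)
      val_inv := by rw [← pow_succ', Nat.sub_add_cancel hp0, hu _ (hN a)]
      inv_val := by rw [← pow_succ, Nat.sub_add_cancel hp0, hu _ (hN a)] }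
  let f : FreeGroup X →* (Matrix (Fin (m + 1)) (Fin (m + 1)) (ZMod p))ˣ := FreeGroup.lift un
  have hf : ∀ g, ((f g : (Matrix (Fin (m + 1)) (Fin (m + 1)) (ZMod p))ˣ) :
      Matrix (Fin (m + 1)) (Fin (m + 1)) (ZMod p)) ∈ uS p m := by
    intro g
    induction g using FreeGroup.induction_on with
    | C1 => rw [map_one, Units.val_one]; exact Submonoid.one_mem _
    | of a =>
      have : f (FreeGroup.of a) = un a := FreeGroup.lift_apply_of
      rw [this]
      exact hN a
    | inv_of a h =>
      have : f (FreeGroup.of a) = un a := FreeGroup.lift_apply_of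
      rw [map_inv, this]
      change N a ^ (p - 1) ∈ uS p m
      exact Submonoid.pow_mem _ (hN a) _
    | mul a b ha hb => rw [map_mul, Units.val_mul]; exact Submonoid.mul_mem _ ha hb
  have hker : powRel X p ≤ f.ker := by
    refine Subgroup.normalClosure_le_normal ?_
    rintro _ ⟨g, rfl⟩
    rw [SetLike.mem_coe, MonoidHom.mem_ker]
    simp only [map_pow]
    apply Units.ext
    rw [Units.val_pow_eq_pow_val, hu _ (hf g), Units.val_one]
  let ψ : Burn X p →* (Matrix (Fin (m + 1)) (Fin (m + 1)) (ZMod p))ˣ :=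
    QuotientGroup.lift (powRel X p) f hker
  have hψ : ∀ g, ψ (Burn.mk X p g) = f g := fun g => QuotientGroup.lift_mk' _ hker g
  refine ⟨(Units.coeHom _).comp ψ, ?_, ?_⟩
  · intro g
    obtain ⟨g, rfl⟩ := Burn.mk_surj X p g
    rw [MonoidHom.comp_apply, hψ]
    exact hf g
  · intro a
    rw [MonoidHom.comp_apply]
    unfold lt
    rw [hψ]
    have : f (FreeGroup.of a) = un a := FreeGroup.lift_apply_of
    rw [this]
    rfl

/-- the representation of `B(X, p)` by unitriangular matrices attached to a word -/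
theorem word_rep {X : Type u} {p : ℕ} [Fact p.Prime] (w : List X) (hw : w.length < p) :
    ∃ (F : ℕ → Submodule (ZMod p) (Matrix (Fin (w.length + 1)) (Fin (w.length + 1)) (ZMod p)))
      (ψ : Burn X p →* Matrix (Fin (w.length + 1)) (Fin (w.length + 1)) (ZMod p)),
      IsFilt F ∧ F (w.length + 1) = ⊥ ∧ (∀ g, ψ g - 1 ∈ F 1) ∧
      ∀ t ∈ Hom X p w.length,
        (evT (fun a => ψ (lt a) - 1) t) 0 (Fin.last w.length) = cf t w := by
  classical
  obtain ⟨ψ, h1, h2⟩ := uS_lift (X := X) hw (fun a => 1 + uN p w a)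
    (fun a => by rw [add_sub_cancel_left]; exact uN_mem p w a)
  refine ⟨uF p w.length, ψ, uF_filt p w.length, uF_bot p w.length, h1, ?_⟩
  have h3 : (fun a : X => ψ (lt a) - 1) = uN p w := by
    funext a
    rw [h2, add_sub_cancel_left]
  rw [h3]
  intro t ht
  unfold Hom at ht
  induction ht using Submodule.span_induction with
  | mem t ht =>
    obtain ⟨v, hv, rfl⟩ := ht
    rw [evT_wd, cf_wd, uN_prod p w v 0 (Fin.last w.length) (by simpa using hv.symm)]
    have hv' : v.length = w.length := hv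
    have h4 : (w.drop ((0 : Fin (w.length + 1)) : ℕ)).take v.length = w := by
      rw [hv']
      simp
    rw [h4]
    exact if_congr eq_comm rfl rfl
  | zero => rw [map_zero, cf_zero]; rfl
  | add s t _ _ hs ht => rw [map_add, cf_add, Matrix.add_apply, hs, ht]
  | smul r t _ ht => rw [map_smul, cf_smul, Matrix.smul_apply, ht, smul_eq_mul]

/-- leading terms are unique -/
theorem IsLead.uniq {X : Type u} {p : ℕ} [Fact p.Prime] {c : ℕ} (hc : 1 ≤ c) (hcp : c < p)
    {b : Burn X p} {t t' : T X p} (h : IsLead c b t) (h' : IsLead c b t') : t = t' := by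
  refine T_ext fun w => ?_
  by_cases hw : w.length = c
  · subst hw
    obtain ⟨F, ψ, hF, hbot, hψ, hcf⟩ := word_rep (p := p) w hcp
    have h1 := h.lead _ F hF ψ hψ
    have h2 := h'.lead _ F hF ψ hψ
    rw [hbot, Submodule.mem_bot, sub_eq_zero] at h1 h2
    rw [← hcf t (Lie_le_Hom _ h.lie), ← hcf t' (Lie_le_Hom _ h'.lie), ← h1, ← h2]
  · rw [mem_Hom.1 (Lie_le_Hom _ h.lie) w hw, mem_Hom.1 (Lie_le_Hom _ h'.lie) w hw]

end Pool.Agent.Helper89.BI
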