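import Pool.Agent.Helper89.BI.Lead
import Pool.Agent.Helper89.BI.Uniq
import Pool.Agent.Helper89.BI.GenLem
import Pool.Agent.Helper89.BI.AdLem
import Pool.Agent.Helper89.BI.NjLem

/-! # Module FUNLEAD: functionals are computed from leading terms -/

set_option autoImplicit false

namespace Pool.Agent.Helper89.BI

open Pool.Agent.Helper13.Spl

universe u v w

theorem nj_le_length {X : Type u} (a : X) (w : List X) : nj a w ≤ w.length := by
  unfold nj
  exact List.countP_le_length

variable {X : Type u} {p : ℕ} [hp : Fact p.Prime]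

open Classical in
/-- the weighted functional on the brackets -/
theorem ext_wt_rho {c : ℕ} (hc : 2 ≤ c) (hcp : c < p) {χ : Burn X p → ZMod p} (hχ : IsFun c χ)
    (a : X) {w : List X} (hw : w.length = c) :
    ext (fun v => wt a v * χ (Cc v)) (rho w : T X p) = χ (Cc w) := by
  have hne : w ≠ [] := by
    rintro rfl
    simp at hw
    omega
  obtain ⟨S, hS⟩ := exists_supp (rho w : T X p)
  have hdsw := fun_dsw hne hw hχ a
  rw [ext_eq_sum _ _ S (fun v hv => (hS v).2 hv)] at hdsw ⊢
  have h1 : ∑ v ∈ S, cf (rho w : T X p) v • (wt a v * χ (Cc v)) =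
      ((nj a w : ℕ) : ZMod p)⁻¹ *
        ∑ v ∈ S, cf (rho w : T X p) v • (if v.head? = some a then 0 else χ (Cc v)) := by
    rw [Finset.mul_sum]
    refine Finset.sum_congr rfl fun v hv => ?_
    have hv' := nj_of_cf_rho a ((hS v).1 hv)
    unfold wt
    split_ifs with hh
    · simp
    · rw [hv', smul_eq_mul, smul_eq_mul]
      ring
  rw [h1, hdsw]
  by_cases h0 : nj a w = 0
  · obtain ⟨-, h3⟩ := rho_of_nj_zero (p := p) h0 (by omega)
    rw [h3, hχ.add.one, mul_zero, mul_zero]
  · rw [← mul_assoc, inv_mul_cancel₀, one_mul]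
    intro h2
    rw [ZMod.natCast_eq_zero_iff] at h2
    have h3 := Nat.le_of_dvd (Nat.pos_of_ne_zero h0) h2
    have h4 := nj_le_length a w
    omega

/-- functionals are computed from leading terms -/
theorem fun_lead {c : ℕ} (hc : 2 ≤ c) (hcp : c < p) {χ : Burn X p → ZMod p} (hχ : IsFun c χ)
    {b : Burn X p} {t : T X p} (h : IsLead c b t) (a : X) :
    χ b = ext (fun w => wt a w * χ (Cc w)) t := by
  classical
  have hc1 : 1 ≤ c := by omega
  let L : T X p →ₗ[ZMod p] ZMod p := ext (fun w => wt a w * χ (Cc w))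
  let ld : Burn X p → T X p := fun b => if h : ∃ t, IsLead c b t then h.choose else 0
  have hld : ∀ b ∈ gam (Burn X p) c, IsLead c b (ld b) := by
    intro b hb
    have h1 : ∃ t, IsLead c b t := exists_lead hc1 hb
    have h2 : ld b = h1.choose := dif_pos h1
    rw [h2]
    exact h1.choose_spec
  have hχ' : IsFun c (fun b => χ b - L (ld b)) := by
    constructor
    · intro x hx y hy
      have h1 : ld (x * y) = ld x + ld y :=
        (hld _ (Subgroup.mul_mem _ hx hy)).uniq hc1 hcp ((hld x hx).mul hc1 (hld y hy))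
      change χ (x * y) - L (ld (x * y)) = χ x - L (ld x) + (χ y - L (ld y))
      rw [h1, hχ.add x hx y hy, map_add]
      ring
    · intro x hx
      have h1 : ld x = 0 :=
        (hld _ (gam_anti (Nat.le_succ c) hx)).uniq hc1 hcp (IsLead.of_succ hx)
      change χ x - L (ld x) = 0
      rw [h1, hχ.van x hx, map_zero, sub_zero]
  have h0 := fun_eq_zero hc1 hχ' (by
    intro w hw
    have hne : w ≠ [] := by
      rintro rfl
      simp at hw
      omega
    have h1 : IsLead c (Cc w : Burn X p) (rho w) := by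
      have := isLead_Cc (p := p) hne
      rwa [hw] at this
    have h2 : ld (Cc w) = rho w := (hld _ h1.mem).uniq hc1 hcp h1
    change χ (Cc w) - L (ld (Cc w)) = 0
    rw [h2]
    have h3 : L (rho w) = χ (Cc w) := ext_wt_rho hc hcp hχ a hw
    rw [h3, sub_self]) b h.mem
  have h1 : ld b = t := (hld b h.mem).uniq hc1 hcp h
  have h2 : χ b - L (ld b) = 0 := h0
  rw [h1] at h2
  exact sub_eq_zero.1 h2

/-- elements with zero leading term are deeper -/
theorem IsLead.gam_of_zero {c : ℕ} (hc : 2 ≤ c) (hcp : c < p) (a : X) {b : Burn X p}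
    (h : IsLead c b 0) : b ∈ gam (Burn X p) (c + 1) := by
  by_contra hcon
  obtain ⟨χ, hχ, hne⟩ := sep_fun (p := p) (fun g : Burn X p => Burn.pow_eq_one g)
    (by omega : 1 ≤ c) h.mem hcon
  apply hne
  rw [fun_lead hc hcp hχ h a, map_zero]

end Pool.Agent.Helper89.BI
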