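import Pool.Agent.Helper89.BI.Defs

/-!
# The lower central series
-/

set_option autoImplicit false

namespace Pool.Agent.Helper89.BI

open Pool.Agent.Helper13.Spl
open scoped commutatorElement

universe u v w

variable {G : Type u} [Group G]

theorem com_def (g h : G) : com g h = g * h * g⁻¹ * h⁻¹ := rfl

theorem com_eq (g h : G) : com g h = ⁅g, h⁆ := rfl

theorem com_inv (g h : G) : (com g h)⁻¹ = com h g := by simp only [com_def]; group

theorem map_com {H : Type v} [Group H] (f : G →* H) (g h : G) : f (com g h) = com (f g) (f h) := by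
  simp [com_def]

theorem mem_gam_one (g : G) : g ∈ gam G 1 := trivial

theorem mem_gam_zero (g : G) : g ∈ gam G 0 := trivial

theorem gam_succ {i : ℕ} (hi : 1 ≤ i) : gam G (i + 1) = ⁅gam G i, (⊤ : Subgroup G)⁆ := by
  obtain ⟨j, rfl⟩ : ∃ j, i = j + 1 := ⟨i - 1, by omega⟩
  rfl

instance gam_char (i : ℕ) : (gam G i).Characteristic := by
  unfold gam
  infer_instance

instance gam_normal (i : ℕ) : (gam G i).Normal := inferInstance

theorem gam_anti : Antitone (gam G) := by
  intro i j hij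
  exact (⊤ : Subgroup G).lowerCentralSeries_antitone (by omega)

theorem gam_map {H : Type v} [Group H] (f : G →* H) {i : ℕ} {g : G} (hg : g ∈ gam G i) :
    f g ∈ gam H i := by
  have h1 : f g ∈ (gam G i).map f := Subgroup.mem_map_of_mem f hg
  unfold gam at h1 ⊢
  rw [Subgroup.map_lowerCentralSeries] at h1
  exact Subgroup.lowerCentralSeries_mono _ le_top h1

theorem gam_aut (φ : MulAut G) {i : ℕ} {g : G} : φ g ∈ gam G i ↔ g ∈ gam G i := by
  constructor
  · intro h
    have := gam_map (φ⁻¹ : MulAut G).toMonoidHom h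
    simpa using this
  · intro h
    exact gam_map φ.toMonoidHom h

theorem gam_com_one {i : ℕ} (hi : 1 ≤ i) {g : G} (hg : g ∈ gam G i) (h : G) :
    com g h ∈ gam G (i + 1) := by
  rw [gam_succ hi]
  exact Subgroup.commutator_mem_commutator hg trivial

theorem three_le {N H1 H2 H3 : Subgroup G} [hN : N.Normal] (h1 : ⁅⁅H2, H3⁆, H1⁆ ≤ N)
    (h2 : ⁅⁅H3, H1⁆, H2⁆ ≤ N) : ⁅⁅H1, H2⁆, H3⁆ ≤ N := by
  have key : ∀ H : Subgroup G, H ≤ N ↔ H.map (QuotientGroup.mk' N) = ⊥ := by
    intro H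
    rw [Subgroup.map_eq_bot_iff, QuotientGroup.ker_mk']
  rw [key, Subgroup.map_commutator, Subgroup.map_commutator] at h1 h2 ⊢
  exact Subgroup.commutator_commutator_eq_bot_of_rotate h1 h2

theorem gam_comm_le {i j : ℕ} (hi : 1 ≤ i) (hj : 1 ≤ j) : ⁅gam G i, gam G j⁆ ≤ gam G (i + j) := by
  induction j, hj using Nat.le_induction generalizing i with
  | base => rw [gam_succ hi]; rfl
  | succ j hj ih =>
    rw [gam_succ hj, Subgroup.commutator_comm (gam G i)]
    have hN : (gam G (i + (j + 1))).Normal := inferInstance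
    refine three_le (N := gam G (i + (j + 1))) ?_ ?_
    · rw [Subgroup.commutator_comm ⊤ (gam G i), ← gam_succ hi]
      exact (ih (by omega)).trans (le_of_eq (by congr 1; omega))
    · rw [show i + (j + 1) = (i + j) + 1 by omega, gam_succ (by omega)]
      exact Subgroup.commutator_mono (ih hi) le_rfl

theorem gam_com {i j : ℕ} (hi : 1 ≤ i) (hj : 1 ≤ j) {g h : G} (hg : g ∈ gam G i)
    (hh : h ∈ gam G j) : com g h ∈ gam G (i + j) :=
  gam_comm_le hi hj (Subgroup.commutator_mem_commutator hg hh)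

theorem gam_induction {c : ℕ} (hc : 1 ≤ c) {Q : G → Prop} (h1 : Q 1)
    (hmul : ∀ x ∈ gam G (c + 1), ∀ y ∈ gam G (c + 1), Q x → Q y → Q (x * y))
    (hinv : ∀ x ∈ gam G (c + 1), Q x → Q x⁻¹)
    (hcom : ∀ h ∈ gam G c, ∀ x, Q (com h x)) : ∀ b ∈ gam G (c + 1), Q b := by
  intro b hb
  rw [gam_succ hc] at hb
  have key : b ∈ gam G (c + 1) ∧ Q b := by
    rw [Subgroup.commutator_def] at hb
    refine Subgroup.closure_induction (p := fun b _ => b ∈ gam G (c + 1) ∧ Q b) ?_ ?_ ?_ ?_ hb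
    · rintro x ⟨h, hh, y, -, rfl⟩
      exact ⟨gam_com_one hc hh y, hcom h hh y⟩
    · exact ⟨Subgroup.one_mem _, h1⟩
    · rintro x y - - ⟨hx, hx'⟩ ⟨hy, hy'⟩
      exact ⟨Subgroup.mul_mem _ hx hy, hmul x hx y hy hx' hy'⟩
    · rintro x - ⟨hx, hx'⟩
      exact ⟨Subgroup.inv_mem _ hx, hinv x hx hx'⟩
  exact key.2

end Pool.Agent.Helper89.BI
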