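import Pool.Agent.Helper89.BI.Fil

/-! # Module LEAD: leading terms -/

set_option autoImplicit false

namespace Pool.Agent.Helper89.BI

open Pool.Agent.Helper13.Spl

universe u v w

variable {X : Type u} {p : ℕ}

theorem IsLead.mul {c : ℕ} (hc : 1 ≤ c) {b b' : Burn X p} {t t' : T X p} (h : IsLead c b t)
    (h' : IsLead c b' t') : IsLead c (b * b') (t + t') := by
  refine ⟨Subgroup.mul_mem _ h.mem h'.mem, Submodule.add_mem _ h.lie h'.lie, ?_⟩
  intro A _ _ F hF ψ hψ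
  have h1 := h.lead A F hF ψ hψ
  have h2 := h'.lead A F hF ψ hψ
  have h3 : (ψ b - 1) * (ψ b' - 1) ∈ F (c + 1) :=
    hF.anti (by omega : c + 1 ≤ c + c)
      (hF.mul c c _ (hF.gam ψ hψ hc h.mem) _ (hF.gam ψ hψ hc h'.mem))
  have h4 := Submodule.add_mem _ (Submodule.add_mem _ h1 h2) h3
  rw [map_mul, map_add]
  convert h4 using 1
  noncomm_ring

theorem IsLead.inv {c : ℕ} (hc : 1 ≤ c) {b : Burn X p} {t : T X p} (h : IsLead c b t) :
    IsLead c b⁻¹ (-t) := by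
  refine ⟨Subgroup.inv_mem _ h.mem, Submodule.neg_mem _ h.lie, ?_⟩
  intro A _ _ F hF ψ hψ
  have h1 := h.lead A F hF ψ hψ
  have h2 : ψ b * ψ b⁻¹ = 1 := by rw [← map_mul, mul_inv_cancel, map_one]
  have h3 : (ψ b - 1) * (ψ b⁻¹ - 1) ∈ F (c + 1) :=
    hF.anti (by omega : c + 1 ≤ c + c)
      (hF.mul c c _ (hF.gam ψ hψ hc h.mem) _
        (hF.gam ψ hψ hc (Subgroup.inv_mem _ h.mem)))
  have h4 := Submodule.neg_mem _ (Submodule.add_mem _ h1 h3)
  rw [map_neg]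
  have h5 : (ψ b - 1) * (ψ b⁻¹ - 1) = 1 - ψ b - ψ b⁻¹ + 1 := by
    rw [sub_mul, mul_sub, h2]
    noncomm_ring
  rw [h5] at h4
  convert h4 using 1
  noncomm_ring

theorem IsLead.of_succ {c : ℕ} {b : Burn X p} (hb : b ∈ gam (Burn X p) (c + 1)) :
    IsLead c b 0 := by
  refine ⟨gam_anti (Nat.le_succ c) hb, Submodule.zero_mem _, ?_⟩
  intro A _ _ F hF ψ hψ
  rw [map_zero, sub_zero]
  exact hF.gam ψ hψ (Nat.le_add_left 1 c) hb

theorem Lie_bracket {c : ℕ} (hc : 1 ≤ c) {t s : T X p} (ht : t ∈ Lie X p c)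
    (hs : s ∈ Lie X p 1) : t * s - s * t ∈ Lie X p (c + 1) := by
  unfold Lie at hs
  refine Submodule.span_induction (p := fun s _ => t * s - s * t ∈ Lie X p (c + 1))
    ?_ ?_ ?_ ?_ hs
  · rintro _ ⟨w, hw, rfl⟩
    have hw : w.length = 1 := hw
    obtain ⟨e, rfl⟩ := List.length_eq_one_iff.1 hw
    rw [rho_singleton]
    exact Lie_bracket_vr hc ht e
  · simp
  · intro x y _ _ hx hy
    have h1 := Submodule.add_mem _ hx hy
    convert h1 using 1
    noncomm_ring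
  · intro r x _ hx
    have h1 := Submodule.smul_mem _ r hx
    convert h1 using 1
    rw [smul_sub, mul_smul_comm, smul_mul_assoc]

theorem IsLead.com {c : ℕ} (hc : 1 ≤ c) {b g : Burn X p} {t s : T X p} (h : IsLead c b t)
    (h' : IsLead 1 g s) : IsLead (c + 1) (com b g) (t * s - s * t) := by
  refine ⟨gam_com_one hc h.mem g, Lie_bracket hc h.lie h'.lie, ?_⟩
  intro A _ _ F hF ψ hψ
  have h1 := h.lead A F hF ψ hψ
  have h2 := h'.lead A F hF ψ hψ
  set y : X → A := fun a => ψ (lt a) - 1 with hy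
  have hy1 : ∀ a, y a ∈ F 1 := fun a => hψ _
  have hB : ψ b - 1 ∈ F c := hF.gam ψ hψ hc h.mem
  have hD : ψ g - 1 ∈ F 1 := hψ g
  have hE : evT y t ∈ F c := evT_mem hF hy1 (Lie_le_Hom c h.lie)
  have hH : evT y s ∈ F 1 := evT_mem hF hy1 (Lie_le_Hom 1 h'.lie)
  have hBE : ψ b - 1 - evT y t ∈ F (c + 1) := h1
  have hDH : ψ g - 1 - evT y s ∈ F 2 := h2
  have hU : ψ (b⁻¹ * g⁻¹) - 1 ∈ F 1 := hψ _
  have k1 : (ψ b - 1 - evT y t) * (ψ g - 1) ∈ F (c + 1 + 1) := hF.mul _ _ _ hBE _ hD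
  have k2 : evT y t * (ψ g - 1 - evT y s) ∈ F (c + 1 + 1) := hF.mul _ _ _ hE _ hDH
  have k3 : (ψ g - 1 - evT y s) * (ψ b - 1) ∈ F (c + 1 + 1) := by
    have := hF.mul _ _ _ hDH _ hB
    rwa [show 2 + c = c + 1 + 1 by omega] at this
  have k4 : evT y s * (ψ b - 1 - evT y t) ∈ F (c + 1 + 1) := by
    have := hF.mul _ _ _ hH _ hBE
    rwa [show 1 + (c + 1) = c + 1 + 1 by omega] at this
  have k5 : (ψ b - 1) * (ψ g - 1) - (ψ g - 1) * (ψ b - 1) ∈ F (c + 1) := by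
    refine Submodule.sub_mem _ (hF.mul _ _ _ hB _ hD) ?_
    have := hF.mul _ _ _ hD _ hB
    rwa [show 1 + c = c + 1 by omega] at this
  have k6 : ((ψ b - 1) * (ψ g - 1) - (ψ g - 1) * (ψ b - 1)) * (ψ (b⁻¹ * g⁻¹) - 1) ∈
      F (c + 1 + 1) := hF.mul _ _ _ k5 _ hU
  have k7 := Submodule.add_mem _ (Submodule.sub_mem _ (Submodule.sub_mem _
    (Submodule.add_mem _ k1 k2) k3) k4) k6
  have e1 : ψ (Pool.Agent.Helper89.BI.com b g) - 1 =
      ((ψ b - 1) * (ψ g - 1) - (ψ g - 1) * (ψ b - 1)) * ψ (b⁻¹ * g⁻¹) := by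
    have e2 : ψ (Pool.Agent.Helper89.BI.com b g) = ψ b * ψ g * ψ (b⁻¹ * g⁻¹) := by
      rw [← map_mul, ← map_mul, com_def, mul_assoc (b * g)]
    have e3 : ψ g * ψ b * ψ (b⁻¹ * g⁻¹) = 1 := by
      rw [← map_mul, ← map_mul, ← map_one ψ]
      congr 1
      group
    rw [show (ψ b - 1) * (ψ g - 1) - (ψ g - 1) * (ψ b - 1) = ψ b * ψ g - ψ g * ψ b by
      noncomm_ring, sub_mul, e2, e3]
  rw [e1, map_sub (evT y), map_mul (evT y), map_mul (evT y)]
  convert k7 using 1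
  generalize ψ b - 1 = B
  generalize ψ g - 1 = D
  generalize ψ (b⁻¹ * g⁻¹) = U
  generalize evT y t = E
  generalize evT y s = H
  noncomm_ring

theorem isLead_lt (a : X) : IsLead 1 (lt a : Burn X p) (vr a) := by
  refine ⟨mem_gam_one _, vr_mem_Lie a, ?_⟩
  intro A _ _ F hF ψ hψ
  rw [evT_vr, sub_self]
  exact Submodule.zero_mem _

theorem isLead_Cc {w : List X} (hw : w ≠ []) : IsLead w.length (Cc w : Burn X p) (rho w) := by
  induction w using List.reverseRecOn with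
  | nil => exact absurd rfl hw
  | append_singleton v e ih =>
    by_cases hv : v = []
    · subst hv
      rw [List.nil_append, rho_singleton]
      exact isLead_lt e
    · rw [Cc_concat hv, rho_concat hv, List.length_append]
      have hl : 1 ≤ v.length := List.length_pos_iff.2 hv
      exact IsLead.com hl (ih hv) (isLead_lt e)

theorem exists_lead {c : ℕ} (hc : 1 ≤ c) {b : Burn X p} (hb : b ∈ gam (Burn X p) c) :
    ∃ t, IsLead c b t := by
  induction c, hc using Nat.le_induction generalizing b with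
  | base =>
    have hb1 : b ∈ Subgroup.closure (Set.range (lt : X → Burn X p)) := by
      rw [closure_lt]
      trivial
    refine Subgroup.closure_induction (p := fun b _ => ∃ t, IsLead 1 b t) ?_ ?_ ?_ ?_ hb1
    · rintro _ ⟨a, rfl⟩
      exact ⟨_, isLead_lt a⟩
    · exact ⟨0, IsLead.of_succ (Subgroup.one_mem _)⟩
    · rintro x y - - ⟨t, ht⟩ ⟨s, hs⟩
      exact ⟨_, ht.mul le_rfl hs⟩
    · rintro x - ⟨t, ht⟩
      exact ⟨_, ht.inv le_rfl⟩
  | succ c hc ih =>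
    refine gam_induction hc (Q := fun b => ∃ t, IsLead (c + 1) b t) ?_ ?_ ?_ ?_ b hb
    · exact ⟨0, IsLead.of_succ (Subgroup.one_mem _)⟩
    · rintro x - y - ⟨t, ht⟩ ⟨s, hs⟩
      exact ⟨_, ht.mul (by omega) hs⟩
    · rintro x - ⟨t, ht⟩
      exact ⟨_, ht.inv (by omega)⟩
    · intro h hh x
      obtain ⟨t, ht⟩ := ih hh
      obtain ⟨s, hs⟩ : ∃ s, IsLead 1 x s := by
        have hx1 : x ∈ Subgroup.closure (Set.range (lt : X → Burn X p)) := by
          rw [closure_lt]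
          trivial
        refine Subgroup.closure_induction (p := fun b _ => ∃ t, IsLead 1 b t) ?_ ?_ ?_ ?_ hx1
        · rintro _ ⟨a, rfl⟩
          exact ⟨_, isLead_lt a⟩
        · exact ⟨0, IsLead.of_succ (Subgroup.one_mem _)⟩
        · rintro x y - - ⟨t, ht⟩ ⟨s, hs⟩
          exact ⟨_, ht.mul le_rfl hs⟩
        · rintro x - ⟨t, ht⟩
          exact ⟨_, ht.inv le_rfl⟩
      exact ⟨_, ht.com hc hs⟩

end Pool.Agent.Helper89.BI
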