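import Pool.Agent.Helper89.BI.DswT

/-! # Module LIELEM -/

set_option autoImplicit false

namespace Pool.Agent.Helper89.BI

open Pool.Agent.Helper13.Spl

universe u v w

variable {X : Type u} {p : ℕ} [hp : Fact p.Prime]

/-- the words of degree `c` whose first and last letters differ from `a` -/
def Mid (a : X) (c : ℕ) (w : List X) : Prop :=
  w.length = c ∧ w.head? ≠ some a ∧ w.getLast? ≠ some a

/-- the terms of the derivation `X_a ↦ X_b`, other letters to zero, on words -/
noncomputable def derw (a b : X) : List X → T X p
  | [] => 0
  | e :: v => by classical exact (if e = a then wd (b :: v) else 0) + vr e * derw a b v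

/-- the derivation `X_a ↦ X_b`, other letters to zero -/
noncomputable def der (a b : X) : T X p →ₗ[ZMod p] T X p := ext (derw a b)

theorem derw_append (a b : X) (v w : List X) :
    (derw a b (v ++ w) : T X p) = derw a b v * wd w + wd v * derw a b w := by
  classical
  induction v with
  | nil => simp [derw, wd_nil]
  | cons e v ih =>
    have h1 : (wd (e :: v) : T X p) = vr e * wd v := by
      rw [vr_eq_wd, ← wd_append]; rfl
    have h2 : (wd (b :: (v ++ w)) : T X p) = wd (b :: v) * wd w := by
      rw [← wd_append]; rfl
    simp only [List.cons_append, derw]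
    rw [ih, h1]
    by_cases he : e = a
    · simp only [he, if_true]
      rw [h2]
      simp only [mul_add, add_mul, mul_assoc, add_assoc]
    · simp only [he, if_false]
      simp only [mul_add, mul_assoc, zero_add]

theorem der_wd (a b : X) (w : List X) : der a b (wd w : T X p) = derw a b w := by
  rw [der, ext_wd]

theorem der_mul (a b : X) (s t : T X p) : der a b (s * t) = der a b s * t + s * der a b t := by
  have h1 : ∀ w : List X, ∀ s : T X p,
      der a b (s * wd w) = der a b s * wd w + s * der a b (wd w) := by
    intro w s
    have := T_hom_ext (f := (der a b).comp (LinearMap.mulRight (ZMod p) (wd w : T X p)))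
      (g := (LinearMap.mulRight (ZMod p) (wd w : T X p)).comp (der a b) +
        LinearMap.mulRight (ZMod p) (der a b (wd w : T X p))) (by
        intro v
        simp only [LinearMap.comp_apply, LinearMap.mulRight_apply, LinearMap.add_apply]
        rw [← wd_append, der_wd, der_wd, der_wd, derw_append])
    have h2 := congrArg (fun f => f s) this
    simpa only [LinearMap.comp_apply, LinearMap.mulRight_apply, LinearMap.add_apply] using h2
  have := T_hom_ext (f := (der a b).comp (LinearMap.mulLeft (ZMod p) s))
      (g := LinearMap.mulLeft (ZMod p) (der a b s) +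
        (LinearMap.mulLeft (ZMod p) s).comp (der a b)) (by
        intro v
        simp only [LinearMap.comp_apply, LinearMap.mulLeft_apply, LinearMap.add_apply]
        exact h1 v s)
  have h2 := congrArg (fun f => f t) this
  simpa only [LinearMap.comp_apply, LinearMap.mulLeft_apply, LinearMap.add_apply] using h2

theorem der_vr_self (a b : X) : der a b (vr a : T X p) = vr b := by
  classical
  rw [vr_eq_wd, der_wd, vr_eq_wd]
  simp [derw]

theorem der_vr_ne {a e : X} (b : X) (h : e ≠ a) : der a b (vr e : T X p) = 0 := by
  classical
  rw [vr_eq_wd, der_wd]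
  simp [derw, h]

theorem der_vr_cases (a b e : X) : der a b (vr e : T X p) = vr b ∨ der a b (vr e : T X p) = 0 := by
  by_cases h : e = a
  · left; rw [h, der_vr_self]
  · right; exact der_vr_ne b h

theorem der_rho (a b : X) (w : List X) : der a b (rho w : T X p) ∈ Lie X p w.length := by
  induction w using List.reverseRecOn with
  | nil => simp [rho]
  | append_singleton v e ih =>
    by_cases hv : v = []
    · subst hv
      simp only [List.nil_append, rho_singleton, List.length_singleton]
      rcases der_vr_cases (p := p) a b e with h | h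
      · rw [h]; exact vr_mem_Lie b
      · rw [h]; exact Submodule.zero_mem _
    · rw [rho_concat hv, map_sub, der_mul, der_mul]
      have hlen : 1 ≤ v.length := List.length_pos_iff.mpr hv
      have h1 := Lie_bracket_vr hlen ih e
      have h2 := rho_mem_Lie (p := p) v
      rw [List.length_append, List.length_singleton]
      rcases der_vr_cases (p := p) a b e with h | h
      · rw [h]
        have h3 := Lie_bracket_vr hlen h2 b
        have : der a b (rho v : T X p) * vr e + rho v * vr b - (vr b * rho v + vr e * der a b (rho v))
            = (der a b (rho v : T X p) * vr e - vr e * der a b (rho v)) +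
              (rho v * vr b - vr b * rho v) := by abel
        rw [this]
        exact Submodule.add_mem _ h1 h3
      · rw [h]
        simpa using h1

theorem der_Lie (a b : X) {c : ℕ} {t : T X p} (ht : t ∈ Lie X p c) : der a b t ∈ Lie X p c := by
  unfold Lie at ht
  induction ht using Submodule.span_induction with
  | mem x hx =>
    obtain ⟨w, hw, rfl⟩ := hx
    have hw' : w.length = c := hw
    rw [← hw']
    exact der_rho a b w
  | zero => simp
  | add x y _ _ hx hy => rw [map_add]; exact Submodule.add_mem _ hx hy
  | smul r x _ hx => rw [map_smul]; exact Submodule.smul_mem _ _ hx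

theorem der_iter_mem (a b : X) {c : ℕ} (k : ℕ) {t : T X p} (ht : t ∈ Lie X p c) :
    (der a b)^[k] t ∈ Lie X p c := by
  induction k with
  | zero => simpa using ht
  | succ k ih => rw [Function.iterate_succ_apply']; exact der_Lie a b ih

theorem nj_single_ne {a e : X} (h : e ≠ a) : nj a [e] = 1 := by
  classical
  simp [nj, h]

theorem nj_single_self (a : X) : nj a [a] = 0 := by
  classical
  simp [nj]

theorem nj_cons' (a e : X) (v : List X) : nj a (e :: v) = nj a [e] + nj a v := by
  have := nj_append a [e] v
  simpa using this

theorem nj_le_length' (a : X) (w : List X) : nj a w ≤ w.length := by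
  classical
  simp only [nj]
  exact List.countP_le_length

theorem derw_nj {a b : X} (hab : a ≠ b) (v : List X) :
    ∀ u : List X, cf (derw a b v : T X p) u ≠ 0 → nj a u = nj a v + 1 := by
  classical
  induction v with
  | nil => intro u hu; simp [derw] at hu
  | cons e v ih =>
    intro u hu
    simp only [derw, cf_add] at hu
    by_cases h2 : cf (vr e * derw a b v : T X p) u = 0
    · rw [h2, add_zero] at hu
      by_cases he : e = a
      · simp only [he, if_true, cf_wd] at hu
        have hub : b :: v = u := by
          by_contra hne
          exact hu (if_neg hne)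
        rw [← hub, he, nj_cons' a b v, nj_cons' a a v, nj_single_ne (Ne.symm hab),
          nj_single_self]
        omega
      · simp only [he, if_false, cf_zero] at hu
        exact absurd rfl hu
    · by_cases hh : u.head? = some e
      · obtain ⟨u', rfl⟩ : ∃ u', u = e :: u' := by
          cases u with
          | nil => simp at hh
          | cons x u' =>
            simp only [List.head?_cons, Option.some.injEq] at hh
            exact ⟨u', by rw [hh]⟩
        rw [cf_vr_mul] at h2
        have := ih u' h2
        rw [nj_cons' a e u', nj_cons' a e v, this]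
        omega
      · exact absurd (cf_vr_mul_ne _ hh) h2

theorem der_nj {a b : X} (hab : a ≠ b) {m : ℕ} {t : T X p}
    (ht : ∀ w, cf t w ≠ 0 → m ≤ nj a w) : ∀ w, cf (der a b t) w ≠ 0 → m + 1 ≤ nj a w := by
  classical
  intro w hw
  obtain ⟨S, hS⟩ := exists_supp t
  rw [der, ext_eq_sum (derw a b) t S (fun w h => (hS w).2 h)] at hw
  have hsum : ∀ S' : Finset (List X), cf (∑ v ∈ S', cf t v • (derw a b v : T X p)) w =
      ∑ v ∈ S', cf t v * cf (derw a b v : T X p) w := by
    intro S'
    induction S' using Finset.induction_on with
    | empty => simp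
    | insert v S' hv ih => rw [Finset.sum_insert hv, Finset.sum_insert hv, cf_add, cf_smul, ih]
  rw [hsum] at hw
  obtain ⟨v, _, hv⟩ := Finset.exists_ne_zero_of_sum_ne_zero hw
  have h1 : cf t v ≠ 0 := left_ne_zero_of_mul hv
  have h2 : cf (derw a b v : T X p) w ≠ 0 := right_ne_zero_of_mul hv
  have h3 := ht v h1
  have h4 := derw_nj hab v w h2
  omega

theorem eq_replicate_of_nj_zero {a : X} {w : List X} (h : nj a w = 0) :
    w = List.replicate w.length a := by
  classical
  rw [List.eq_replicate_iff]
  refine ⟨rfl, ?_⟩
  intro x hx
  simp only [nj, List.countP_eq_zero] at h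
  have := h x hx
  simpa using this

theorem der_iterate_Lie {a b : X} (hab : a ≠ b) {c : ℕ} (hc : 2 ≤ c) {t : T X p}
    (ht : t ∈ Lie X p c) : (der a b)^[c] t = 0 := by
  have key : ∀ k : ℕ, ∀ w, cf ((der a b)^[k] t) w ≠ 0 → k + 1 ≤ nj a w := by
    intro k
    induction k with
    | zero =>
      intro w hw
      simp only [Function.iterate_zero, id_eq] at hw
      by_contra hlt
      have h0 : nj a w = 0 := by omega
      have hlen : w.length = c := by
        by_contra hne
        exact hw (mem_Hom.1 (Lie_le_Hom c ht) w hne)
      have hw' := eq_replicate_of_nj_zero h0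
      rw [hlen] at hw'
      rw [hw'] at hw
      exact hw (cf_replicate hc ht)
    | succ k ih =>
      rw [Function.iterate_succ_apply']
      exact der_nj hab ih
  apply T_ext
  intro w
  rw [cf_zero]
  by_contra hw
  have h1 := key c w hw
  have h2 := nj_le_length' a w
  have hlen : w.length = c := by
    by_contra hne
    exact hw (mem_Hom.1 (Lie_le_Hom c (der_iter_mem a b c ht)) w hne)
  omega

/-- an element of degree at least two of the free Lie algebra commuting with a letter is zero -/
theorem cent_letter {k : ℕ} (hk : 2 ≤ k) {u : T X p} (hu : u ∈ Lie X p k) (b : X)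
    (h : u * vr b = vr b * u) : u = 0 := by
  have hH := mem_Hom.1 (Lie_le_Hom k hu)
  have key : ∀ w : List X, ∀ j : ℕ, cf u (w ++ List.replicate j b) ≠ 0 →
      w = List.replicate w.length b := by
    intro w
    induction w with
    | nil => intro j _; rfl
    | cons e w ih =>
      intro j hj
      have h1 : cf (u * vr b) ((e :: w ++ List.replicate j b) ++ [b]) =
          cf u (e :: w ++ List.replicate j b) := cf_mul_vr _ _ _
      rw [h] at h1
      by_cases he : e = b
      · subst he
        have h2 : (e :: w ++ List.replicate j e) ++ [e] = e :: (w ++ List.replicate (j + 1) e) := by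
          rw [List.replicate_succ', List.cons_append, List.cons_append, List.append_assoc]
        rw [h2, cf_vr_mul] at h1
        rw [← h1] at hj
        have h3 := ih (j + 1) hj
        rw [List.length_cons, List.replicate_succ, ← h3]
      · exfalso
        have h2 : ((e :: w ++ List.replicate j b) ++ [b]).head? ≠ some b := by
          simp only [List.cons_append, List.head?_cons, ne_eq, Option.some.injEq]
          exact he
        rw [cf_vr_mul_ne _ h2] at h1
        exact hj h1.symm
  apply T_ext
  intro w
  rw [cf_zero]
  by_contra hw
  have h1 := key w 0 (by simpa using hw)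
  have hlen : w.length = k := by
    by_contra hne
    exact hw (hH w hne)
  rw [hlen] at h1
  rw [h1] at hw
  exact hw (cf_replicate hk hu)

/-- a Lie polynomial without middle words is a bracket with `X_a` -/
theorem exists_bracket {c : ℕ} (hc : 2 ≤ c) (hcp : c < p) {a : X} {l : T X p}
    (hl : l ∈ Lie X p c) (h : ∀ w, Mid a c w → cf l w = 0) :
    ∃ u ∈ Lie X p (c - 1), l = u * vr a - vr a * u := by
  classical
  obtain ⟨S, hS⟩ := exists_supp l
  have h1 := dswT hc hcp hl a
  rw [ext_eq_sum _ l S (fun w h => (hS w).2 h)] at h1
  refine ⟨∑ w ∈ S, cf l w • ((wt a w : ZMod p) • (rho w.dropLast : T X p)), ?_, ?_⟩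
  · apply Submodule.sum_mem
    intro w hw
    apply Submodule.smul_mem
    apply Submodule.smul_mem
    have hlen : w.length = c := by
      by_contra hne
      exact (hS w).1 hw (mem_Hom.1 (Lie_le_Hom c hl) w hne)
    have := rho_mem_Lie (p := p) w.dropLast
    rwa [List.length_dropLast, hlen] at this
  · conv_lhs => rw [← h1]
    rw [Finset.sum_mul, Finset.mul_sum, ← Finset.sum_sub_distrib]
    apply Finset.sum_congr rfl
    intro w hw
    have hlen : w.length = c := by
      by_contra hne
      exact (hS w).1 hw (mem_Hom.1 (Lie_le_Hom c hl) w hne)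
    by_cases hhead : w.head? = some a
    · have : (wt a w : ZMod p) = 0 := by simp [wt, hhead]
      simp [this]
    · have hlast : w.getLast? = some a := by
        by_contra hne
        exact (hS w).1 hw (h w ⟨hlen, hhead, hne⟩)
      have hwne : w ≠ [] := by
        intro h0
        rw [h0] at hlen
        simp at hlen
        omega
      have hw2 : w = w.dropLast ++ [a] := by
        have h3 := List.dropLast_append_getLast hwne
        have h4 : w.getLast hwne = a := by
          rw [List.getLast?_eq_some_getLast hwne] at hlast
          exact Option.some.inj hlast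
        rw [h4] at h3
        exact h3.symm
      have hdne : w.dropLast ≠ [] := by
        intro h0
        have h5 : w.dropLast.length = 0 := by rw [h0]; rfl
        rw [List.length_dropLast, hlen] at h5
        omega
      have h6 : (rho w : T X p) = rho w.dropLast * vr a - vr a * rho w.dropLast := by
        conv_lhs => rw [hw2]
        exact rho_concat hdne a
      rw [h6]
      simp only [smul_mul_assoc, mul_smul_comm, smul_sub]

theorem der_br_ne {a b : X} (hab : a ≠ b) (s : T X p) :
    der a b (s * vr b - vr b * s) = der a b s * vr b - vr b * der a b s := by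
  rw [map_sub, der_mul, der_mul, der_vr_ne b (Ne.symm hab)]
  simp

theorem der_br_self (a b : X) (s : T X p) :
    der a b (s * vr a - vr a * s) =
      (der a b s * vr a - vr a * der a b s) + (s * vr b - vr b * s) := by
  rw [map_sub, der_mul, der_mul, der_vr_self]
  abel

theorem der_iter_br {a b : X} (hab : a ≠ b) (s : T X p) (j : ℕ) :
    (der a b)^[j + 1] (s * vr a - vr a * s) =
      ((der a b)^[j + 1] s * vr a - vr a * (der a b)^[j + 1] s) +
        ((j + 1 : ℕ) : ZMod p) • ((der a b)^[j] s * vr b - vr b * (der a b)^[j] s) := by
  induction j with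
  | zero =>
    simp only [zero_add, Function.iterate_one, Function.iterate_zero, id_eq, Nat.cast_one, one_smul]
    exact der_br_self a b s
  | succ j ih =>
    rw [Function.iterate_succ_apply', ih, map_add, map_smul, der_br_self, der_br_ne hab]
    rw [← Function.iterate_succ_apply' (der a b) (j + 1) s]
    rw [← Function.iterate_succ_apply' (der a b) j s]
    push_cast
    simp only [add_smul, one_smul]
    abel

theorem natCast_ne {j : ℕ} (h1 : 1 ≤ j) (h2 : j < p) : ((j : ℕ) : ZMod p) ≠ 0 := by
  intro h
  rw [ZMod.natCast_eq_zero_iff] at h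
  exact absurd (Nat.le_of_dvd (by omega) h) (by omega)

theorem der_iter_zero (a b : X) (k : ℕ) : (der a b)^[k] (0 : T X p) = 0 := by
  induction k with
  | zero => rfl
  | succ k ih => rw [Function.iterate_succ_apply, map_zero, ih]

theorem claimA {m : ℕ} (hm : 2 ≤ m) (hmp : m < p) {a b : X} (hab : a ≠ b) {v : T X p}
    (hv : v ∈ Lie X p m) (h : der a b (v * vr a - vr a * v) = 0) : v = 0 := by
  have key : ∀ i, i ≤ m → (der a b)^[m - i] v = 0 := by
    intro i
    induction i with
    | zero => intro _; exact der_iterate_Lie hab hm hv
    | succ i ih =>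
      intro hi
      have h1 := ih (by omega)
      obtain ⟨j, hj⟩ : ∃ j, m - i = j + 1 := ⟨m - i - 1, by omega⟩
      have hj2 : m - (i + 1) = j := by omega
      rw [hj] at h1
      rw [hj2]
      have h2 := der_iter_br hab v j
      rw [Function.iterate_succ_apply, h, der_iter_zero, h1] at h2
      simp only [zero_mul, mul_zero, sub_zero, zero_add] at h2
      have h3 : (der a b)^[j] v * vr b - vr b * (der a b)^[j] v = 0 := by
        rcases smul_eq_zero.1 h2.symm with h4 | h4
        · exact absurd h4 (natCast_ne (by omega) (by omega))
        · exact h4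
      exact cent_letter hm (der_iter_mem a b j hv) b (sub_eq_zero.1 h3)
  simpa using key m le_rfl

theorem claimB {m : ℕ} (hm : 2 ≤ m) (hmp : m < p) {a b : X} (hab : a ≠ b) {v v' : T X p}
    (hv : v ∈ Lie X p m) (hv' : v' ∈ Lie X p m) (h : der a b v = 0)
    (he : v * vr b - vr b * v = v' * vr a - vr a * v') : v = 0 := by
  have h1 : der a b (v' * vr a - vr a * v') = 0 := by
    rw [← he, der_br_ne hab, h]
    simp
  have h2 := claimA hm hmp hab hv' h1
  rw [h2] at he
  simp only [zero_mul, mul_zero, sub_zero] at he
  exact cent_letter hm hv b (sub_eq_zero.1 he)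

theorem lieLem {c : ℕ} (hc : 3 ≤ c) (hcp : c < p) {a b : X} (hab : a ≠ b) {l : T X p}
    (hl : l ∈ Lie X p c) (h : ∀ k, ∀ w, Mid a c w → cf ((der a b)^[k] l) w = 0) : l = 0 := by
  obtain ⟨u, hu, hlu⟩ := exists_bracket (by omega) hcp hl (fun w hw => h 0 w hw)
  have key : ∀ i, i ≤ c - 1 → (der a b)^[c - 1 - i] u = 0 := by
    intro i
    induction i with
    | zero => intro _; exact der_iterate_Lie hab (by omega) hu
    | succ i ih =>
      intro hi
      have h1 := ih (by omega)
      obtain ⟨j, hj⟩ : ∃ j, c - 1 - i = j + 1 := ⟨c - 1 - i - 1, by omega⟩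
      have hj2 : c - 1 - (i + 1) = j := by omega
      rw [hj] at h1
      rw [hj2]
      have h2 := der_iter_br hab u j
      rw [← hlu, h1] at h2
      simp only [zero_mul, mul_zero, sub_zero, zero_add] at h2
      have hmem : (der a b)^[j] u ∈ Lie X p (c - 1) := der_iter_mem a b j hu
      have hb : (der a b)^[j] u * vr b - vr b * (der a b)^[j] u ∈ Lie X p c := by
        have := Lie_bracket_vr (by omega) hmem b
        rwa [Nat.sub_add_cancel (by omega : 1 ≤ c)] at this
      have hmid : ∀ w, Mid a c w →
          cf ((der a b)^[j] u * vr b - vr b * (der a b)^[j] u) w = 0 := by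
        intro w hw
        have h3 := h (j + 1) w hw
        rw [h2, cf_smul] at h3
        rcases mul_eq_zero.1 h3 with h4 | h4
        · exact absurd h4 (natCast_ne (by omega) (by omega))
        · exact h4
      obtain ⟨u', hu', he⟩ := exists_bracket (by omega) hcp hb hmid
      refine claimB (by omega) (by omega) hab hmem hu' ?_ he
      rw [← Function.iterate_succ_apply' (der a b) j u]
      exact h1
  have h0 : u = 0 := by simpa using key (c - 1) le_rfl
  rw [hlu, h0]
  simp

theorem lieLem_two (hp3 : 3 ≤ p) {a b : X} (hab : a ≠ b) {l : T X p}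
    (hl : l ∈ Lie X p 2) (h : ∀ k, ∀ w, Mid a 2 w → cf ((der a b)^[k] l) w = 0) :
    ∃ κ : ZMod p, l = κ • (vr b * vr a - vr a * vr b) := by
  classical
  obtain ⟨u, hu, hlu⟩ := exists_bracket le_rfl (by omega) hl (fun w hw => h 0 w hw)
  have hu1 : u ∈ Lie X p 1 := by simpa using hu
  have hH := mem_Hom.1 (Lie_le_Hom 1 hu1)
  have h0 : ∀ e, e ≠ a → e ≠ b → cf u [e] = 0 := by
    intro e hea heb
    have h1 := h 1 [e, b] ⟨rfl, by simpa using hea, by simpa using Ne.symm hab⟩
    rw [Function.iterate_one, hlu, der_br_self, cf_add, cf_sub, cf_sub] at h1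
    have e1 : cf (der a b u * vr a) [e, b] = 0 := cf_mul_vr_ne _ (by simpa using Ne.symm hab)
    have e2 : cf (vr a * der a b u) [e, b] = 0 := cf_vr_mul_ne _ (by simpa using hea)
    have e3 : cf (u * vr b) [e, b] = cf u [e] := cf_mul_vr u [e] b
    have e4 : cf (vr b * u) [e, b] = 0 := cf_vr_mul_ne _ (by simpa using heb)
    rw [e1, e2, e3, e4] at h1
    simpa using h1
  have hu2 : u = cf u [a] • vr a + cf u [b] • vr b := by
    apply T_ext
    intro w
    rw [cf_add, cf_smul, cf_smul, vr_eq_wd, vr_eq_wd, cf_wd, cf_wd]
    by_cases hw : w.length = 1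
    · obtain ⟨e, rfl⟩ := List.length_eq_one_iff.1 hw
      by_cases hea : e = a
      · subst hea
        simp [Ne.symm hab]
      · by_cases heb : e = b
        · subst heb
          simp [hab]
        · have e1 : ¬ ([a] = [e]) := by simpa using Ne.symm hea
          have e2 : ¬ ([b] = [e]) := by simpa using Ne.symm heb
          rw [if_neg e1, if_neg e2, h0 e hea heb]
          simp
    · rw [hH w hw]
      have e1 : ¬ ([a] = w) := by rintro rfl; exact hw rfl
      have e2 : ¬ ([b] = w) := by rintro rfl; exact hw rfl
      rw [if_neg e1, if_neg e2]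
      simp
  refine ⟨cf u [b], ?_⟩
  rw [hlu]
  conv_lhs => rw [hu2]
  simp only [add_mul, mul_add, smul_mul_assoc, mul_smul_comm, smul_sub]
  abel

end Pool.Agent.Helper89.BI
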