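import Pool.Agent.Helper89.BI.Step
import Pool.Agent.Helper13.Spl.Main

/-!
# Splitting automorphisms of free Burnside groups of odd squarefree exponent are inner modulo
`γ_p G^p` for every prime divisor `p` of the exponent
-/

set_option autoImplicit false

namespace Pool.Agent.Helper89.BI

open Pool.Agent.Helper13.Spl

universe u v w

/-- the prime exponent case -/
theorem inner_prime {X : Type u} [Nontrivial X] {p : ℕ} [hp : Fact p.Prime] (hp3 : 3 ≤ p)
    {n m : ℕ} (hn : n = p * m) (hm : ¬ p ∣ m) {φ : MulAut (Burn X p)} (hφ : Splits n φ)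
    (h2 : ∀ b, φ b * b⁻¹ ∈ gam (Burn X p) 2) :
    ∃ u : Burn X p, ∀ b, (MulAut.conj u * φ) b * b⁻¹ ∈ gam (Burn X p) p := by
  have key : ∀ c, 2 ≤ c → c ≤ p →
      ∃ u : Burn X p, ∀ b, (MulAut.conj u * φ) b * b⁻¹ ∈ gam (Burn X p) c := by
    intro c hc
    induction c, hc using Nat.le_induction with
    | base => exact fun _ => ⟨1, by simpa using h2⟩
    | succ c hc ih =>
      intro hcp
      obtain ⟨u, hu⟩ := ih (by omega)
      obtain ⟨v, hv⟩ := step hn hm hp3 (hφ.conj u) hc (by omega) hu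
      refine ⟨v * u, fun b => ?_⟩
      have h3 := hv b
      rwa [← mul_assoc, ← map_mul] at h3
  exact key p (by omega) le_rfl

theorem gam_map_surj {G : Type u} [Group G] {H : Type v} [Group H] (f : G →* H)
    (hf : Function.Surjective f) (i : ℕ) : gam H i = (gam G i).map f := by
  unfold gam
  rw [Subgroup.map_lowerCentralSeries, ← MonoidHom.range_eq_map, MonoidHom.range_eq_top.2 hf]

/-- the projection `B(X, n) → B(X, p)` for `p ∣ n` -/
def red (X : Type u) {p n : ℕ} (hpn : p ∣ n) : Burn X n →* Burn X p :=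
  QuotientGroup.lift (powRel X n) (Burn.mk X p) (by
    intro w hw
    have h1 : powRel X n ≤ (Burn.mk X p).ker := by
      apply Subgroup.normalClosure_le_normal
      rintro _ ⟨v, rfl⟩
      obtain ⟨m, rfl⟩ := hpn
      change Burn.mk X p (v ^ (p * m)) = 1
      rw [map_pow, pow_mul, Burn.pow_eq_one, one_pow]
    exact h1 hw)

theorem red_mk (X : Type u) {p n : ℕ} (hpn : p ∣ n) (w : FreeGroup X) :
    red X hpn (Burn.mk X n w) = Burn.mk X p w := rfl

theorem red_surj (X : Type u) {p n : ℕ} (hpn : p ∣ n) : Function.Surjective (red X hpn) := by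
  intro y
  obtain ⟨w, rfl⟩ := Burn.mk_surj X p y
  exact ⟨Burn.mk X n w, red_mk X hpn w⟩

/-- `G^p` -/
def powS (G : Type u) [Group G] (p : ℕ) : Subgroup G := Subgroup.closure (Set.range fun g : G => g ^ p)

instance powS_normal (G : Type u) [Group G] (p : ℕ) : (powS G p).Normal := by
  constructor
  intro x hx g
  refine Subgroup.closure_induction (p := fun x _ => g * x * g⁻¹ ∈ powS G p) ?_ ?_ ?_ ?_ hx
  · rintro _ ⟨y, rfl⟩
    apply Subgroup.subset_closure
    exact ⟨g * y * g⁻¹, by simp [conj_pow]⟩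
  · simp
  · intro x y _ _ hx hy
    have h1 : g * (x * y) * g⁻¹ = (g * x * g⁻¹) * (g * y * g⁻¹) := by group
    rw [h1]
    exact Subgroup.mul_mem _ hx hy
  · intro x _ hx
    have h1 : g * x⁻¹ * g⁻¹ = (g * x * g⁻¹)⁻¹ := by group
    rw [h1]
    exact Subgroup.inv_mem _ hx

/-- the kernel of the projection is generated by the `p`-th powers -/
theorem red_ker (X : Type u) {p n : ℕ} (hpn : p ∣ n) : (red X hpn).ker = powS (Burn X n) p := by
  apply le_antisymm
  · intro y hy
    obtain ⟨w, rfl⟩ := Burn.mk_surj X n y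
    have hy' : w ∈ powRel X p := Burn.mk_eq_one.1 hy
    have h1 : powRel X p ≤ (powS (Burn X n) p).comap (Burn.mk X n) := by
      apply Subgroup.normalClosure_le_normal
      rintro _ ⟨v, rfl⟩
      apply Subgroup.subset_closure
      exact ⟨Burn.mk X n v, by simp⟩
    exact h1 hy'
  · apply (Subgroup.closure_le _).2
    rintro _ ⟨y, rfl⟩
    change red X hpn (y ^ p) = 1
    rw [map_pow, Burn.pow_eq_one]

theorem powS_aut {G : Type u} [Group G] (φ : MulAut G) {p : ℕ} {x : G} (hx : x ∈ powS G p) :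
    φ x ∈ powS G p := by
  refine Subgroup.closure_induction (p := fun x _ => φ x ∈ powS G p) ?_ ?_ ?_ ?_ hx
  · rintro _ ⟨y, rfl⟩
    apply Subgroup.subset_closure
    exact ⟨φ y, by simp⟩
  · simp
  · intro x y _ _ hx hy
    rw [map_mul]
    exact Subgroup.mul_mem _ hx hy
  · intro x _ hx
    rw [map_inv]
    exact Subgroup.inv_mem _ hx

/-- the induced endomorphism of `B(X, p)` -/
noncomputable def indHom {X : Type u} {p n : ℕ} (hpn : p ∣ n) (φ : MulAut (Burn X n)) :
    Burn X p →* Burn X p :=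
  QuotientGroup.lift (powRel X p) (((red X hpn).comp φ.toMonoidHom).comp (Burn.mk X n)) (by
    intro w hw
    have h1 : red X hpn (Burn.mk X n w) = 1 := by
      rw [red_mk]
      exact Burn.mk_eq_one.2 hw
    have h2 : Burn.mk X n w ∈ powS (Burn X n) p := by
      rw [← red_ker X hpn]
      exact h1
    have h3 : φ (Burn.mk X n w) ∈ (red X hpn).ker := by
      rw [red_ker X hpn]
      exact powS_aut φ h2
    exact h3)

theorem indHom_red {X : Type u} {p n : ℕ} (hpn : p ∣ n) (φ : MulAut (Burn X n)) (y : Burn X n) :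
    indHom hpn φ (red X hpn y) = red X hpn (φ y) := by
  obtain ⟨w, rfl⟩ := Burn.mk_surj X n y
  rw [red_mk]
  exact QuotientGroup.lift_mk' (powRel X p) _ w

/-- the induced automorphism of `B(X, p)` -/
noncomputable def ind {X : Type u} {p n : ℕ} (hpn : p ∣ n) (φ : MulAut (Burn X n)) :
    MulAut (Burn X p) where
  toFun := indHom hpn φ
  invFun := indHom hpn φ⁻¹
  left_inv y := by
    obtain ⟨z, rfl⟩ := red_surj X hpn y
    rw [indHom_red, indHom_red]
    simp
  right_inv y := by
    obtain ⟨z, rfl⟩ := red_surj X hpn y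
    rw [indHom_red, indHom_red]
    simp
  map_mul' := map_mul _

theorem ind_red {X : Type u} {p n : ℕ} (hpn : p ∣ n) (φ : MulAut (Burn X n)) (y : Burn X n) :
    ind hpn φ (red X hpn y) = red X hpn (φ y) := indHom_red hpn φ y

theorem ind_pow {X : Type u} {p n : ℕ} (hpn : p ∣ n) (φ : MulAut (Burn X n)) (k : ℕ)
    (y : Burn X n) : (ind hpn φ ^ k) (red X hpn y) = red X hpn ((φ ^ k) y) := by
  induction k generalizing y with
  | zero => simp
  | succ k ih => rw [pow_succ, MulAut.mul_apply, ind_red, ih, ← MulAut.mul_apply, ← pow_succ]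

theorem ind_splits {X : Type u} {p n : ℕ} (hpn : p ∣ n) {φ : MulAut (Burn X n)}
    (hφ : Splits n φ) : Splits n (ind hpn φ) := by
  constructor
  · ext y
    obtain ⟨z, rfl⟩ := red_surj X hpn y
    rw [ind_pow, hφ.pow_eq]
    rfl
  · intro y
    obtain ⟨z, rfl⟩ := red_surj X hpn y
    have h1 := congrArg (red X hpn) (hφ.norm_eq z)
    rw [nrm, map_list_prod, List.map_map, map_one] at h1
    rw [nrm, ← h1]
    congr 1
    apply List.map_congr_left
    intro i _
    rw [ind_pow]
    rfl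

/-- for one prime divisor -/
theorem inner_one {X : Type u} [Nontrivial X] {n : ℕ} (hsq : Squarefree n) (hodd : Odd n)
    {φ : MulAut (Burn X n)} (hφ : Splits n φ) {p : ℕ} (hp : p.Prime) (hpn : p ∣ n) :
    ∃ g : Burn X n, ∀ b, (g⁻¹ * b * g)⁻¹ * φ b ∈ gam (Burn X n) p ⊔ powS (Burn X n) p := by
  have : Fact p.Prime := ⟨hp⟩
  obtain ⟨m, hm⟩ := hpn
  have hpm : ¬ p ∣ m := by
    rintro ⟨k, rfl⟩
    have h1 : p * p ∣ n := ⟨k, by rw [hm]; ring⟩
    exact hp.not_isUnit (hsq p h1)
  have hp3 : 3 ≤ p := by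
    rcases hp.eq_two_or_odd' with h | h
    · exfalso
      have h1 : 2 ∣ n := ⟨m, by rw [hm, h]⟩
      exact (Nat.not_even_iff_odd.2 hodd) (even_iff_two_dvd.2 h1)
    · have h2 := hp.two_le
      obtain ⟨k, hk⟩ := h
      omega
  have hpn : p ∣ n := ⟨m, hm⟩
  obtain ⟨u, hu⟩ := inner_prime hp3 hm hpm (ind_splits hpn hφ) (by
    intro y
    obtain ⟨z, rfl⟩ := red_surj X hpn y
    rw [ind_red, ← map_inv, ← map_mul]
    exact gam_map (red X hpn) (i := 2) (hφ.acts_trivially hsq hodd z))
  obtain ⟨g, rfl⟩ := red_surj X hpn u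
  refine ⟨g, fun b => ?_⟩
  have h1 := hu (red X hpn b)
  rw [MulAut.mul_apply, MulAut.conj_apply, ind_red, ← map_mul, ← map_inv, ← map_mul, ← map_inv,
    ← map_mul] at h1
  -- lift to `B(X, n)`
  have h2 : ∀ y : Burn X n, red X hpn y ∈ gam (Burn X p) p →
      y ∈ gam (Burn X n) p ⊔ powS (Burn X n) p := by
    intro y hy
    rw [gam_map_surj (red X hpn) (red_surj X hpn)] at hy
    obtain ⟨z, hz, hzy⟩ := hy
    have h4 : z⁻¹ * y ∈ powS (Burn X n) p := by
      rw [← red_ker X hpn]
      change red X hpn (z⁻¹ * y) = 1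
      rw [map_mul, map_inv, hzy, inv_mul_cancel]
    have h5 := Subgroup.mul_mem_sup hz h4
    rwa [mul_inv_cancel_left] at h5
  have h6 := h2 _ h1
  have h7 : (gam (Burn X n) p ⊔ powS (Burn X n) p).Normal := inferInstance
  have h8 := h7.conj_mem _ h6 (g⁻¹ * b⁻¹ * g * g⁻¹)
  convert h8 using 1
  group

/-- The main theorem. -/
theorem inner_modulo {X : Type u} [Nontrivial X] {n : ℕ} (hsq : Squarefree n) (hodd : Odd n)
    {φ : MulAut (Burn X n)} (hφ : Splits n φ) :
    ∃ g : Burn X n, ∀ p, p.Prime → p ∣ n → ∀ b,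
      (g⁻¹ * b * g)⁻¹ * φ b ∈ gam (Burn X n) p ⊔ powS (Burn X n) p := by
  classical
  have h1 : ∀ p, ∃ g : Burn X n, p.Prime → p ∣ n → ∀ b,
      (g⁻¹ * b * g)⁻¹ * φ b ∈ gam (Burn X n) p ⊔ powS (Burn X n) p := by
    intro p
    by_cases h : p.Prime ∧ p ∣ n
    · obtain ⟨g, hg⟩ := inner_one hsq hodd hφ h.1 h.2
      exact ⟨g, fun _ _ => hg⟩
    · exact ⟨1, fun h3 h4 => absurd ⟨h3, h4⟩ h⟩
  choose gp hgp using h1
  have h2 : ∀ s : Finset ℕ, (∀ p ∈ s, p.Prime ∧ p ∣ n) → ∃ g : Burn X n,
      (∀ p ∈ s, (gp p)⁻¹ * g ∈ powS (Burn X n) p) ∧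
      ∀ q, q.Prime → q ∣ n → q ∉ s → g ∈ powS (Burn X n) q := by
    intro s
    induction s using Finset.induction_on with
    | empty => exact fun _ => ⟨1, by simp, fun q _ _ _ => Subgroup.one_mem _⟩
    | insert p s hps ih =>
      intro hs
      obtain ⟨g, hg1, hg2⟩ := ih fun q hq => hs q (Finset.mem_insert_of_mem hq)
      obtain ⟨hp, m, hm⟩ := hs p (Finset.mem_insert_self _ _)
      have hcop : Nat.Coprime p m := by
        rw [hp.coprime_iff_not_dvd]
        rintro ⟨k, rfl⟩
        have h1 : p * p ∣ n := ⟨k, by rw [hm]; ring⟩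
        exact hp.not_isUnit (hsq p h1)
      obtain ⟨e, he1, he2⟩ := Nat.chineseRemainder hcop 1 0
      have hem : m ∣ e := (Nat.modEq_zero_iff_dvd).1 he2
      have hq : ∀ q, q.Prime → q ∣ n → q ≠ p → gp p ^ e ∈ powS (Burn X n) q := by
        intro q hq1 hq2 hq3
        have h3 : q ∣ m := by
          rw [hm] at hq2
          exact (hq1.dvd_mul.1 hq2).resolve_left fun h =>
            hq3 ((Nat.prime_dvd_prime_iff_eq hq1 hp).1 h)
        obtain ⟨k, hk⟩ := h3.trans hem
        apply Subgroup.subset_closure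
        exact ⟨gp p ^ k, by simp only; rw [← pow_mul, hk, mul_comm]⟩
      refine ⟨gp p ^ e * g, fun q hqs => ?_, fun q hq1 hq2 hq3 => ?_⟩
      · by_cases hqp : q = p
        · subst hqp
          have h3 : g ∈ powS (Burn X n) q := hg2 q hp ⟨m, hm⟩ hps
          rw [← mul_assoc]
          refine Subgroup.mul_mem _ ?_ h3
          have h4 : gp q ^ e = gp q * gp q ^ (q * (e / q)) := by
            have hmod : e % q = 1 := by
              have := he1
              rw [Nat.ModEq, Nat.mod_eq_of_lt hp.one_lt] at this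
              exact this
            conv_lhs => rw [← Nat.mod_add_div e q, hmod, pow_add, pow_one]
          rw [h4, inv_mul_cancel_left]
          apply Subgroup.subset_closure
          exact ⟨gp q ^ (e / q), by simp only; rw [← pow_mul, mul_comm]⟩
        · have hqs' : q ∈ s := (Finset.mem_insert.1 hqs).resolve_left hqp
          have h5 := (powS_normal (Burn X n) q).conj_mem _
            (hq q (hs q hqs).1 (hs q hqs).2 hqp) (gp q)⁻¹
          have h6 := Subgroup.mul_mem _ h5 (hg1 q hqs')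
          convert h6 using 1
          group
      · rw [Finset.mem_insert, not_or] at hq3
        exact Subgroup.mul_mem _ (hq q hq1 hq2 hq3.1) (hg2 q hq1 hq2 hq3.2)
  obtain ⟨g, hg1, -⟩ := h2 n.primeFactors fun p hp =>
    ⟨Nat.prime_of_mem_primeFactors hp, Nat.dvd_of_mem_primeFactors hp⟩
  refine ⟨g, fun p hp hpn b => ?_⟩
  have h3 := hg1 p (hp.mem_primeFactors hpn hsq.ne_zero)
  have h4 := hgp p hp hpn b
  set N := gam (Burn X n) p ⊔ powS (Burn X n) p with hN
  have h5 : (gp p)⁻¹ * g ∈ N := (le_sup_right : powS (Burn X n) p ≤ N) h3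
  have h6 : (QuotientGroup.mk' N) (gp p) = (QuotientGroup.mk' N) g := by
    have := (QuotientGroup.eq_one_iff (N := N) _).2 h5
    change (QuotientGroup.mk' N) ((gp p)⁻¹ * g) = 1 at this
    rw [map_mul, map_inv, inv_mul_eq_one] at this
    exact this
  rw [← QuotientGroup.eq_one_iff (N := N)] at h4 ⊢
  change (QuotientGroup.mk' N) _ = 1 at h4
  change (QuotientGroup.mk' N) _ = 1
  rw [← h4]
  simp only [map_mul, map_inv, h6]

end Pool.Agent.Helper89.BI
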