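import Pool.Agent.Helper89.BI.Defs

/-! # Module MATEXP -/

set_option autoImplicit false

namespace Pool.Agent.Helper89.BI

open Pool.Agent.Helper13.Spl

universe u v w

theorem upper_mul {R : Type v} [CommRing R] {s : ℕ} {M N : Matrix (Fin (s + 1)) (Fin (s + 1)) R}
    (hM : ∀ i j, j < i → M i j = 0) (hN : ∀ i j, j < i → N i j = 0) :
    (∀ i j, j < i → (M * N) i j = 0) ∧ ∀ i, (M * N) i i = M i i * N i i := by
  constructor
  · intro i j hij
    rw [Matrix.mul_apply]
    apply Finset.sum_eq_zero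
    intro l _
    rcases lt_or_ge l i with h | h
    · rw [hM i l h, zero_mul]
    · rw [hN l j (hij.trans_le h), mul_zero]
  · intro i
    rw [Matrix.mul_apply]
    apply Finset.sum_eq_single i
    · intro l _ hl
      rcases lt_or_gt_of_ne hl with h | h
      · rw [hM i l h, zero_mul]
      · rw [hN l i h, mul_zero]
    · intro h
      exact absurd (Finset.mem_univ i) h

theorem upper_pow {R : Type v} [CommRing R] {s : ℕ} {M : Matrix (Fin (s + 1)) (Fin (s + 1)) R}
    (hM : ∀ i j, j < i → M i j = 0) (k : ℕ) :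
    (∀ i j, j < i → (M ^ k) i j = 0) ∧ ∀ i, (M ^ k) i i = M i i ^ k := by
  induction k with
  | zero =>
    refine ⟨?_, ?_⟩
    · intro i j hij
      rw [pow_zero, Matrix.one_apply_ne hij.ne']
    · intro i
      rw [pow_zero, pow_zero, Matrix.one_apply_eq]
  | succ k ih =>
    have h := upper_mul ih.1 hM
    refine ⟨fun i j hij => ?_, fun i => ?_⟩
    · rw [pow_succ]; exact h.1 i j hij
    · rw [pow_succ, h.2, ih.2, pow_succ]

open Polynomial in
/-- the case `k = 1` -/
theorem mat_exp_one {p : ℕ} [hp : Fact p.Prime] {R : Type v} [CommRing R] [Nontrivial R]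
    [Algebra (ZMod p) R] {s : ℕ} {x : Fin (s + 1) → R}
    (hx : ∃ q : R[X], q * ∏ i, (X - C (x i)) = X ^ p)
    (M : Matrix (Fin (s + 1)) (Fin (s + 1)) R) (hM : ∀ i j, j < i → M i j = 0)
    (hd : ∀ i, M i i = 1 + x i) : M ^ p = 1 := by
  have hc : CharP R p := charP_of_injective_algebraMap (algebraMap (ZMod p) R).injective p
  have hcM : CharP (Matrix (Fin (s + 1)) (Fin (s + 1)) R) p := inferInstance
  obtain ⟨q, hq⟩ := hx
  have htri : (M - 1).BlockTriangular id := by
    intro i j hij
    have hij' : j < i := hij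
    rw [Matrix.sub_apply, hM i j hij', Matrix.one_apply_ne hij'.ne', sub_zero]
  have hcp : (M - 1).charpoly = ∏ i, (X - C (x i)) := by
    rw [Matrix.charpoly_of_isUpperTriangular _ htri]
    apply Finset.prod_congr rfl
    intro i _
    rw [Matrix.sub_apply, hd, Matrix.one_apply_eq, add_sub_cancel_left]
  have h1 : (M - 1) ^ p = 0 := by
    have h2 := congrArg (aeval (M - 1)) hq
    rw [map_mul, ← hcp, Matrix.aeval_self_charpoly, mul_zero, map_pow, aeval_X] at h2
    exact h2.symm
  have h3 : M = (M - 1) + 1 := by abel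
  rw [h3, add_pow_char_of_commute _ (Commute.one_right _), h1, one_pow, zero_add]

open Polynomial in
/-- upper triangular matrices with diagonal `(1 + x_i)^k` have order dividing `p` -/
theorem mat_exp {p : ℕ} [hp : Fact p.Prime] {R : Type v} [CommRing R] [Algebra (ZMod p) R]
    {s : ℕ} (hs : s + 1 ≤ p) {x : Fin (s + 1) → R}
    (hx : ∃ q : R[X], q * ∏ i, (X - C (x i)) = X ^ p)
    (M : Matrix (Fin (s + 1)) (Fin (s + 1)) R) (hM : ∀ i j, j < i → M i j = 0) (k : ℕ)
    (hd : ∀ i, M i i = (1 + x i) ^ k) : M ^ p = 1 := by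
  rcases subsingleton_or_nontrivial R with hR | hR
  · exact Subsingleton.elim _ _
  have hc : CharP R p := charP_of_injective_algebraMap (algebraMap (ZMod p) R).injective p
  have hxp : ∀ i, (1 + x i) ^ p = 1 := by
    intro i
    obtain ⟨q, hq⟩ := hx
    have h1 := congrArg (eval (x i)) hq
    rw [eval_mul, eval_prod, Finset.prod_eq_zero (Finset.mem_univ i) (by simp), mul_zero,
      eval_pow, eval_X] at h1
    rw [add_pow_char, ← h1, one_pow, add_zero]
  have huni : ∀ N : Matrix (Fin (s + 1)) (Fin (s + 1)) R, (∀ i j, j < i → N i j = 0) →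
      (∀ i, N i i = 1) → N ^ p = 1 := by
    intro N hN hN1
    refine mat_exp_one (x := fun _ => 0) ⟨X ^ (p - (s + 1)), ?_⟩ N hN (fun i => ?_)
    · simp only [map_zero, sub_zero, Finset.prod_const, Finset.card_univ, Fintype.card_fin]
      rw [← pow_add]
      congr 1
      omega
    · rw [hN1, add_zero]
  by_cases hk : p ∣ k
  · obtain ⟨m, rfl⟩ := hk
    apply huni M hM
    intro i
    rw [hd, pow_mul, hxp, one_pow]
  · have hcop : Nat.Coprime k p := ((Nat.Prime.coprime_iff_not_dvd hp.out).mpr hk).symm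
    obtain ⟨k', -, hk'⟩ := Nat.exists_mul_mod_eq_one_of_coprime hcop hp.out.one_lt
    have h1 := upper_pow hM k'
    have h2 : (M ^ k') ^ p = 1 := by
      refine mat_exp_one hx (M ^ k') h1.1 (fun i => ?_)
      rw [h1.2, hd, ← pow_mul]
      have h3 := Nat.div_add_mod (k * k') p
      rw [hk'] at h3
      rw [← h3, pow_add, pow_mul, hxp, one_pow, one_mul, pow_one]
    have h4 := upper_pow hM p
    have h5 : (M ^ p) ^ p = 1 := by
      refine huni (M ^ p) h4.1 (fun i => ?_)
      rw [h4.2, hd, ← pow_mul, mul_comm, pow_mul, hxp, one_pow]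
    have h6 : (M ^ p) ^ k' = 1 := by rw [← pow_mul, mul_comm, pow_mul, h2]
    have hcop' : Nat.Coprime k' p := by
      rw [Nat.coprime_comm, Nat.Prime.coprime_iff_not_dvd hp.out]
      intro h7
      have h8 : p ∣ k * k' := Dvd.dvd.mul_left h7 k
      rw [Nat.dvd_iff_mod_eq_zero, hk'] at h8
      exact one_ne_zero h8
    have h9 : orderOf (M ^ p) ∣ Nat.gcd k' p :=
      Nat.dvd_gcd (orderOf_dvd_of_pow_eq_one h6) (orderOf_dvd_of_pow_eq_one h5)
    rw [hcop'] at h9
    exact orderOf_eq_one_iff.mp (Nat.dvd_one.mp h9)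

end Pool.Agent.Helper89.BI
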