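import Pool.Agent.Helper89.BI.MatFil
import Pool.Agent.Helper89.BI.MatExp

/-! # Module MATREP -/

set_option autoImplicit false

namespace Pool.Agent.Helper89.BI

open Pool.Agent.Helper13.Spl

universe u v w

section aux

variable {p : ℕ} {R : Type v} [CommRing R] [Algebra (ZMod p) R] {s : ℕ}

/-- the matrices occurring as images -/
def SS (p : ℕ) {R : Type v} [CommRing R] [Algebra (ZMod p) R] {s : ℕ} (x : Fin (s + 1) → R)
    (I : Ideal R) : Set (Matrix (Fin (s + 1)) (Fin (s + 1)) R) :=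
  {M | M - 1 ∈ mF p I 1 ∧ ∃ k : ℕ, ∀ i, M i i = (1 + x i) ^ k}

theorem SS_upper {x : Fin (s + 1) → R} {I : Ideal R} {M : Matrix (Fin (s + 1)) (Fin (s + 1)) R}
    (h : M ∈ SS p x I) : ∀ i j, j < i → M i j = 0 := by
  intro i j hij
  have h1 := (h.1 i j).1 hij
  rw [Matrix.sub_apply, Matrix.one_apply_ne hij.ne', sub_zero] at h1
  exact h1

theorem SS_one {x : Fin (s + 1) → R} {I : Ideal R} :
    (1 : Matrix (Fin (s + 1)) (Fin (s + 1)) R) ∈ SS p x I := by
  refine ⟨?_, 0, fun i => ?_⟩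
  · rw [sub_self]; exact Submodule.zero_mem _
  · rw [pow_zero, Matrix.one_apply_eq]

theorem F0_of {I : Ideal R} {M : Matrix (Fin (s + 1)) (Fin (s + 1)) R}
    (h : M - 1 ∈ mF p I 1) : M ∈ mF p I 0 := by
  have hF := isFilt_mF (p := p) (s := s) I
  have h1 : M = (M - 1) + 1 := by abel
  rw [h1]
  exact Submodule.add_mem _ (hF.anti (Nat.zero_le 1) h) hF.one

theorem SS_mul {x : Fin (s + 1) → R} {I : Ideal R} {M N : Matrix (Fin (s + 1)) (Fin (s + 1)) R}
    (hM : M ∈ SS p x I) (hN : N ∈ SS p x I) : M * N ∈ SS p x I := by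
  have hF := isFilt_mF (p := p) (s := s) I
  obtain ⟨k, hk⟩ := hM.2
  obtain ⟨l, hl⟩ := hN.2
  refine ⟨?_, k + l, fun i => ?_⟩
  · have e : M * N - 1 = (M - 1) * N + (N - 1) := by noncomm_ring
    rw [e]
    refine Submodule.add_mem _ ?_ hN.1
    exact hF.mul 1 0 _ hM.1 _ (F0_of hN.1)
  · rw [(upper_mul (SS_upper hM) (SS_upper hN)).2, hk, hl, pow_add]

theorem SS_pow {x : Fin (s + 1) → R} {I : Ideal R} {M : Matrix (Fin (s + 1)) (Fin (s + 1)) R}
    (hM : M ∈ SS p x I) (n : ℕ) : M ^ n ∈ SS p x I := by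
  induction n with
  | zero => rw [pow_zero]; exact SS_one
  | succ n ih => rw [pow_succ]; exact SS_mul ih hM

theorem Ym_diag {X : Type u} (pat : Fin s → X) (e : X) (i : Fin (s + 1)) :
    Ym R pat e i i = 0 := by
  classical
  unfold Ym
  rw [Matrix.of_apply, if_neg]
  rintro ⟨k, h1, h2, -⟩
  rw [h1] at h2
  exact (Fin.castSucc_lt_succ (i := k)).ne h2

theorem pow_sub_mem {X : Type u} (I : Ideal R) (pat : Fin s → X) (e : X) (n : ℕ) :
    (1 + Ym R pat e) ^ n - 1 - (n : Matrix (Fin (s + 1)) (Fin (s + 1)) R) * Ym R pat e ∈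
      mF p I 2 := by
  have hF := isFilt_mF (p := p) (s := s) I
  have hY := Ym_mem (p := p) I pat e
  have hY0 : (1 + Ym R pat e) ∈ mF p I 0 := F0_of (by rw [add_sub_cancel_left]; exact hY)
  induction n with
  | zero => simp
  | succ n ih =>
    have e1 : (1 + Ym R pat e) ^ (n + 1) - 1 -
        ((n + 1 : ℕ) : Matrix (Fin (s + 1)) (Fin (s + 1)) R) * Ym R pat e =
        ((1 + Ym R pat e) ^ n - 1 - (n : Matrix (Fin (s + 1)) (Fin (s + 1)) R) * Ym R pat e) *
          (1 + Ym R pat e) + (n : ℕ) • (Ym R pat e * Ym R pat e) := by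
      rw [nsmul_eq_mul]
      push_cast
      rw [pow_succ]
      noncomm_ring
    rw [e1]
    refine Submodule.add_mem _ ?_ ?_
    · exact hF.mul 2 0 _ ih _ hY0
    · exact Submodule.smul_of_tower_mem _ _ (hF.mul 1 1 _ hY _ hY)

end aux

open Polynomial in
/-- the representation of `B(X, p)` in which `x_a x_b^lam` becomes diagonal -/
theorem mat_rep {p : ℕ} [hp : Fact p.Prime] {X : Type u} {R : Type v} [CommRing R]
    [Algebra (ZMod p) R] {s : ℕ} (hs : s + 1 ≤ p) {x : Fin (s + 1) → R}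
    (hx : ∃ q : R[X], q * ∏ i, (Polynomial.X - C (x i)) = Polynomial.X ^ p)
    {I : Ideal R} (hI : ∀ i, x i ∈ I) {a b : X} (hab : a ≠ b) (lam : ℕ) (pat : Fin s → X) :
    ∃ ψ : Burn X p →* Matrix (Fin (s + 1)) (Fin (s + 1)) R,
      (∀ g, ψ g - 1 ∈ mF p I 1) ∧
      ψ (lt a * lt b ^ lam) = 1 + Matrix.diagonal x ∧
      (∀ e, e ≠ a → ψ (lt e) = 1 + Ym R pat e) ∧
      ψ (lt a) - 1 - (Matrix.diagonal x - (lam : ZMod p) • Ym R pat b) ∈ mF p I 2 := by
  classical
  have hF := isFilt_mF (p := p) (s := s) I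
  have hexp : ∀ M ∈ SS p x I, M ^ p = 1 := by
    intro M hM
    obtain ⟨k, hk⟩ := hM.2
    exact mat_exp hs hx M (SS_upper hM) k hk
  have hY : ∀ e : X, (1 + Ym R pat e) ∈ SS p x I := by
    intro e
    refine ⟨?_, 0, fun i => ?_⟩
    · rw [add_sub_cancel_left]; exact Ym_mem I pat e
    · rw [Matrix.add_apply, Ym_diag, Matrix.one_apply_eq, pow_zero, add_zero]
  have hD : (1 + Matrix.diagonal x) ∈ SS p x I := by
    refine ⟨?_, 1, fun i => ?_⟩
    · rw [add_sub_cancel_left]; exact diag_mem hI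
    · rw [Matrix.add_apply, Matrix.one_apply_eq, Matrix.diagonal_apply_eq, pow_one]
  have hpp : p - 1 + 1 = p := Nat.succ_pred_eq_of_pos hp.out.pos
  let L : X → Matrix (Fin (s + 1)) (Fin (s + 1)) R := fun e =>
    if e = a then (1 + Matrix.diagonal x) * (1 + Ym R pat b) ^ ((p - 1) * lam)
    else 1 + Ym R pat e
  have hL : ∀ e, L e ∈ SS p x I := by
    intro e
    simp only [L]
    split_ifs
    · exact SS_mul hD (SS_pow (hY b) _)
    · exact hY e
  let f : X → (Matrix (Fin (s + 1)) (Fin (s + 1)) R)ˣ := fun e =>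
    { val := L e
      inv := L e ^ (p - 1)
      val_inv := by rw [← pow_succ', hpp]; exact hexp _ (hL e)
      inv_val := by rw [← pow_succ, hpp]; exact hexp _ (hL e) }
  let K : Subgroup (Matrix (Fin (s + 1)) (Fin (s + 1)) R)ˣ :=
    { carrier := {u | (u : Matrix (Fin (s + 1)) (Fin (s + 1)) R) ∈ SS p x I}
      mul_mem' := by
        intro u v hu hv
        show ((u * v : (Matrix (Fin (s + 1)) (Fin (s + 1)) R)ˣ) :
          Matrix (Fin (s + 1)) (Fin (s + 1)) R) ∈ SS p x I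
        rw [Units.val_mul]
        exact SS_mul hu hv
      one_mem' := SS_one
      inv_mem' := by
        intro u hu
        have hu' : (u : Matrix (Fin (s + 1)) (Fin (s + 1)) R) ∈ SS p x I := hu
        have h1 : u ^ p = 1 := by
          apply Units.ext
          rw [Units.val_pow_eq_pow_val]
          exact hexp _ hu'
        have h2 : u⁻¹ = u ^ (p - 1) := by
          rw [inv_eq_iff_mul_eq_one, ← pow_succ', hpp, h1]
        show ((u⁻¹ : (Matrix (Fin (s + 1)) (Fin (s + 1)) R)ˣ) :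
          Matrix (Fin (s + 1)) (Fin (s + 1)) R) ∈ SS p x I
        rw [h2, Units.val_pow_eq_pow_val]
        exact SS_pow hu' _ }
  let ψ0 : FreeGroup X →* (Matrix (Fin (s + 1)) (Fin (s + 1)) R)ˣ := FreeGroup.lift f
  have hK : ∀ w, ψ0 w ∈ K := by
    intro w
    have h1 : ψ0.range ≤ K := by
      rw [FreeGroup.range_lift_eq_closure, Subgroup.closure_le]
      rintro _ ⟨e, rfl⟩
      exact hL e
    exact h1 ⟨w, rfl⟩
  have hker : powRel X p ≤ ψ0.ker := by
    apply Subgroup.normalClosure_le_normal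
    rintro _ ⟨w, rfl⟩
    show ψ0 (w ^ p) = 1
    rw [map_pow]
    apply Units.ext
    rw [Units.val_pow_eq_pow_val]
    exact hexp _ (hK w)
  let ψ1 : Burn X p →* (Matrix (Fin (s + 1)) (Fin (s + 1)) R)ˣ :=
    QuotientGroup.lift (powRel X p) ψ0 hker
  let ψ : Burn X p →* Matrix (Fin (s + 1)) (Fin (s + 1)) R := (Units.coeHom _).comp ψ1
  have hψ : ∀ e : X, ψ (lt e) = L e := by
    intro e
    show ((ψ0 (FreeGroup.of e) : (Matrix (Fin (s + 1)) (Fin (s + 1)) R)ˣ) :
      Matrix (Fin (s + 1)) (Fin (s + 1)) R) = L e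
    rw [FreeGroup.lift_apply_of]
  have hLa : L a = (1 + Matrix.diagonal x) * (1 + Ym R pat b) ^ ((p - 1) * lam) := by
    simp only [L, if_true]
  have hLe : ∀ e, e ≠ a → L e = 1 + Ym R pat e := by
    intro e he
    simp only [L, if_neg he]
  have hmul : L a * (1 + Ym R pat b) ^ lam = 1 + Matrix.diagonal x := by
    rw [hLa, mul_assoc, ← pow_add]
    have : (p - 1) * lam + lam = p * lam := by
      rw [← Nat.succ_mul, Nat.succ_eq_add_one, hpp]
    rw [this, pow_mul, hexp _ (hY b), one_pow, mul_one]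
  refine ⟨ψ, ?_, ?_, ?_, ?_⟩
  · intro g
    obtain ⟨w, rfl⟩ := Burn.mk_surj X p g
    exact (hK w).1
  · rw [map_mul, map_pow, hψ, hψ, hLe b (Ne.symm hab), hmul]
  · intro e he
    rw [hψ, hLe e he]
  · rw [hψ]
    have hE := pow_sub_mem (p := p) I pat b lam
    have hs1 : (lam : ZMod p) • Ym R pat b =
        (lam : Matrix (Fin (s + 1)) (Fin (s + 1)) R) * Ym R pat b := by
      rw [Nat.cast_smul_eq_nsmul, nsmul_eq_mul]
    rw [hs1]
    have e : L a - 1 - (Matrix.diagonal x -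
        (lam : Matrix (Fin (s + 1)) (Fin (s + 1)) R) * Ym R pat b) =
        -((L a - 1) * ((lam : ℕ) • Ym R pat b)) - L a * ((1 + Ym R pat b) ^ lam - 1 -
          (lam : Matrix (Fin (s + 1)) (Fin (s + 1)) R) * Ym R pat b) := by
      rw [nsmul_eq_mul]
      have h1 : Matrix.diagonal x = L a * (1 + Ym R pat b) ^ lam - 1 := by
        rw [hmul]; abel
      rw [h1]
      noncomm_ring
    rw [e]
    refine Submodule.sub_mem _ (Submodule.neg_mem _ ?_) ?_
    · exact hF.mul 1 1 _ (hL a).1 _ (Submodule.smul_of_tower_mem _ _ (Ym_mem I pat b))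
    · exact hF.mul 0 2 _ (F0_of (hL a).1) _ hE

end Pool.Agent.Helper89.BI
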