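import Pool.Agent.Helper89.BI.Fil

/-! # Module NEWTON -/

set_option autoImplicit false

namespace Pool.Agent.Helper89.BI

open Pool.Agent.Helper13.Spl

universe u v w

section Aug

variable {G : Type u} [Group G] {p : ℕ}

/-- the elements of `G` in the group algebra -/
noncomputable abbrev gof (p : ℕ) (g : G) : MonoidAlgebra (ZMod p) G :=
  MonoidAlgebra.of (ZMod p) G g

/-- the augmentation ideal -/
noncomputable def augI (G : Type u) [Group G] (p : ℕ) : Submodule (ZMod p) (MonoidAlgebra (ZMod p) G) :=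
  Submodule.span (ZMod p) (Set.range fun g : G => gof p g - 1)

/-- the augmentation filtration -/
noncomputable def augD (G : Type u) [Group G] (p d : ℕ) :
    Submodule (ZMod p) (MonoidAlgebra (ZMod p) G) := augI G p ^ d * ⊤

theorem augD_zero : augD G p 0 = ⊤ := by rw [augD, pow_zero, one_mul]

theorem augD_succ (d : ℕ) : augD G p (d + 1) = augI G p * augD G p d := by
  rw [augD, pow_succ', mul_assoc]
  rfl

/-- a subspace containing the group elements is everything -/
theorem mem_of_gof {S : Submodule (ZMod p) (MonoidAlgebra (ZMod p) G)} (hS : ∀ g, gof p g ∈ S)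
    (x : MonoidAlgebra (ZMod p) G) : x ∈ S := by
  induction x using MonoidAlgebra.induction_linear with
  | zero => exact S.zero_mem
  | add x y hx hy => exact S.add_mem hx hy
  | single g r =>
    have h : MonoidAlgebra.single g r = r • gof p g := by
      rw [gof, MonoidAlgebra.of_apply, MonoidAlgebra.smul_single, smul_eq_mul, mul_one]
    rw [h]
    exact S.smul_mem r (hS g)

theorem top_mul_augI : ⊤ * augI G p ≤ augI G p * ⊤ := by
  have h0 : augI G p ≤ augI G p * ⊤ := fun x hx => by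
    have h := Submodule.mul_mem_mul hx (Submodule.mem_top (x := (1 : MonoidAlgebra (ZMod p) G))
      (R := ZMod p))
    rwa [mul_one] at h
  refine Submodule.mul_le.2 fun x _ y hy => ?_
  have h1 : augI G p ≤ (augI G p * ⊤).comap (LinearMap.mulLeft (ZMod p) x) := by
    refine Submodule.span_le.2 ?_
    rintro _ ⟨g, rfl⟩
    change x * (gof p g - 1) ∈ augI G p * ⊤
    refine mem_of_gof (S := (augI G p * ⊤).comap (LinearMap.mulRight (ZMod p) (gof p g - 1)))
      (fun h => ?_) x
    change gof p h * (gof p g - 1) ∈ augI G p * ⊤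
    have h2 : gof p h * (gof p g - 1) = (gof p (h * g) - 1) - (gof p h - 1) := by
      rw [mul_sub, mul_one, gof, gof, gof, map_mul]
      abel
    rw [h2]
    exact h0 (Submodule.sub_mem _ (Submodule.subset_span ⟨_, rfl⟩)
      (Submodule.subset_span ⟨_, rfl⟩))
  exact h1 hy

theorem top_mul_augI_pow (d : ℕ) : ⊤ * augI G p ^ d ≤ augI G p ^ d * ⊤ := by
  induction d with
  | zero => rw [pow_zero, one_mul, mul_one]
  | succ d ih =>
    calc ⊤ * augI G p ^ (d + 1) = (⊤ * augI G p ^ d) * augI G p := by rw [pow_succ, mul_assoc]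
      _ ≤ (augI G p ^ d * ⊤) * augI G p := mul_le_mul' ih le_rfl
      _ = augI G p ^ d * (⊤ * augI G p) := mul_assoc _ _ _
      _ ≤ augI G p ^ d * (augI G p * ⊤) := mul_le_mul' le_rfl top_mul_augI
      _ = augI G p ^ (d + 1) * ⊤ := by rw [pow_succ, mul_assoc]

theorem isFilt_augD : IsFilt (augD G p) where
  one := by rw [augD_zero]; trivial
  anti := antitone_nat_of_succ_le fun d => by
    rw [augD, augD, pow_succ, mul_assoc]
    exact mul_le_mul' le_rfl le_top
  mul i j x hx y hy := by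
    have h1 : augD G p i * augD G p j ≤ augD G p (i + j) :=
      calc augD G p i * augD G p j = augI G p ^ i * ((⊤ * augI G p ^ j) * ⊤) := by
            rw [augD, augD, mul_assoc, mul_assoc]
        _ ≤ augI G p ^ i * ((augI G p ^ j * ⊤) * ⊤) :=
            mul_le_mul' le_rfl (mul_le_mul' (top_mul_augI_pow j) le_rfl)
        _ = augI G p ^ (i + j) * (⊤ * ⊤) := by rw [pow_add, mul_assoc, mul_assoc]
        _ ≤ augI G p ^ (i + j) * ⊤ := mul_le_mul' le_rfl le_top
    exact h1 (Submodule.mul_mem_mul hx hy)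

theorem gof_sub_mem (g : G) : gof p g - 1 ∈ augD G p 1 := by
  rw [augD_succ, augD_zero]
  have h := Submodule.mul_mem_mul (Submodule.subset_span ⟨g, rfl⟩ : gof p g - 1 ∈ augI G p)
    (Submodule.mem_top (x := (1 : MonoidAlgebra (ZMod p) G)) (R := ZMod p))
  rwa [mul_one] at h

/-- the algebra homomorphism induced by an automorphism -/
noncomputable def gPhi (p : ℕ) (φ : MulAut G) :
    MonoidAlgebra (ZMod p) G →ₐ[ZMod p] MonoidAlgebra (ZMod p) G :=
  MonoidAlgebra.lift (ZMod p) _ G ((MonoidAlgebra.of (ZMod p) G).comp φ.toMonoidHom)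

theorem gPhi_gof (φ : MulAut G) (g : G) : gPhi p φ (gof p g) = gof p (φ g) :=
  MonoidAlgebra.lift_of _ _

/-- the difference operator -/
noncomputable def gL (p : ℕ) (φ : MulAut G) :
    Module.End (ZMod p) (MonoidAlgebra (ZMod p) G) := (gPhi p φ).toLinearMap - 1

theorem gL_apply (φ : MulAut G) (x : MonoidAlgebra (ZMod p) G) : gL p φ x = gPhi p φ x - x := rfl

theorem gL_mem {φ : MulAut G} {c : ℕ} (hc : 1 ≤ c) (hφ : ∀ b, φ b * b⁻¹ ∈ gam G c)
    (x : MonoidAlgebra (ZMod p) G) : gL p φ x ∈ augD G p c := by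
  refine mem_of_gof (S := (augD G p c).comap (gL p φ)) (fun g => ?_) x
  change gPhi p φ (gof p g) - gof p g ∈ augD G p c
  have h1 : gPhi p φ (gof p g) - gof p g = (gof p (φ g * g⁻¹) - 1) * gof p g := by
    rw [gPhi_gof, sub_mul, one_mul, gof, gof, gof, ← map_mul, inv_mul_cancel_right]
  rw [h1]
  have h2 : gof p (φ g * g⁻¹) - 1 ∈ augD G p c :=
    isFilt_augD.gam (MonoidAlgebra.of (ZMod p) G) gof_sub_mem hc (hφ g)
  have h3 := isFilt_augD.mul c 0 _ h2 (gof p g) (by rw [augD_zero]; trivial)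
  rwa [Nat.add_zero] at h3

theorem gL_mem_of_mem {φ : MulAut G} {c : ℕ} (hc : 1 ≤ c) (hφ : ∀ b, φ b * b⁻¹ ∈ gam G c)
    (d : ℕ) : ∀ x ∈ augD G p d, gL p φ x ∈ augD G p (d + (c - 1)) := by
  induction d with
  | zero =>
    intro x _
    exact isFilt_augD.anti (by omega) (gL_mem hc hφ x)
  | succ d ih =>
    have h1 : augD G p (d + 1) ≤ (augD G p (d + 1 + (c - 1))).comap (gL p φ) := by
      rw [augD_succ d]
      refine Submodule.mul_le.2 fun u hu v hv => ?_
      change gPhi p φ (u * v) - u * v ∈ augD G p (d + 1 + (c - 1))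
      have h2 : gPhi p φ (u * v) - u * v = gL p φ u * gPhi p φ v + u * gL p φ v := by
        rw [map_mul, gL_apply, gL_apply]
        noncomm_ring
      rw [h2]
      have h3 : gPhi p φ v ∈ augD G p d := by
        have h4 : gPhi p φ v = v + gL p φ v := by rw [gL_apply]; abel
        rw [h4]
        exact Submodule.add_mem _ hv (isFilt_augD.anti (by omega) (ih v hv))
      have hu1 : u ∈ augD G p 1 := by
        rw [augD_succ, augD_zero]
        have h := Submodule.mul_mem_mul hu
          (Submodule.mem_top (x := (1 : MonoidAlgebra (ZMod p) G)) (R := ZMod p))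
        rwa [mul_one] at h
      refine Submodule.add_mem _ ?_ ?_
      · exact isFilt_augD.anti (by omega) (isFilt_augD.mul c d _ (gL_mem hc hφ u) _ h3)
      · exact isFilt_augD.anti (by omega) (isFilt_augD.mul 1 _ _ hu1 _ (ih v hv))
    exact fun x hx => h1 hx

theorem gL_pow_mem {φ : MulAut G} {c : ℕ} (hc : 1 ≤ c) (hφ : ∀ b, φ b * b⁻¹ ∈ gam G c)
    (x : MonoidAlgebra (ZMod p) G) {j : ℕ} (hj : 1 ≤ j) :
    (gL p φ ^ j) x ∈ augD G p (1 + j * (c - 1)) := by
  induction j, hj using Nat.le_induction with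
  | base =>
    rw [pow_one]
    exact isFilt_augD.anti (by omega) (gL_mem hc hφ x)
  | succ j hj ih =>
    rw [pow_succ', Module.End.mul_apply]
    refine isFilt_augD.anti (le_of_eq ?_) (gL_mem_of_mem hc hφ _ _ ih)
    ring

theorem gPhi_pow_gof (φ : MulAut G) (i : ℕ) (g : G) :
    ((gPhi p φ).toLinearMap ^ i : Module.End (ZMod p) (MonoidAlgebra (ZMod p) G)) (gof p g) =
      gof p ((φ ^ i) g) := by
  induction i with
  | zero => rfl
  | succ i ih =>
    rw [pow_succ', Module.End.mul_apply, ih, AlgHom.toLinearMap_apply, gPhi_gof, pow_succ',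
      MulAut.mul_apply]

theorem lift_mem_of_mem {A : Type w} [Ring A] [Algebra (ZMod p) A]
    {F : ℕ → Submodule (ZMod p) A} (hF : IsFilt F) (ψ : G →* A) (hψ : ∀ g, ψ g - 1 ∈ F 1) (d : ℕ) :
    ∀ x ∈ augD G p d, MonoidAlgebra.lift (ZMod p) A G ψ x ∈ F d := by
  have h0 : ∀ x, MonoidAlgebra.lift (ZMod p) A G ψ x ∈ F 0 := by
    intro x
    refine mem_of_gof (S := (F 0).comap (MonoidAlgebra.lift (ZMod p) A G ψ).toLinearMap)
      (fun g => ?_) x
    change MonoidAlgebra.lift (ZMod p) A G ψ (gof p g) ∈ F 0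
    rw [MonoidAlgebra.lift_of]
    have h := (F 0).add_mem (hF.anti (Nat.zero_le 1) (hψ g)) hF.one
    rwa [sub_add_cancel] at h
  have hI : augI G p ≤ (F 1).comap (MonoidAlgebra.lift (ZMod p) A G ψ).toLinearMap := by
    refine Submodule.span_le.2 ?_
    rintro _ ⟨g, rfl⟩
    change MonoidAlgebra.lift (ZMod p) A G ψ (gof p g - 1) ∈ F 1
    rw [map_sub, map_one, MonoidAlgebra.lift_of]
    exact hψ g
  induction d with
  | zero => exact fun x _ => h0 x
  | succ d ih =>
    have h1 : augD G p (d + 1) ≤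
        (F (d + 1)).comap (MonoidAlgebra.lift (ZMod p) A G ψ).toLinearMap := by
      rw [augD_succ]
      refine Submodule.mul_le.2 fun u hu v hv => ?_
      change MonoidAlgebra.lift (ZMod p) A G ψ (u * v) ∈ F (d + 1)
      rw [map_mul]
      have h2 := hF.mul 1 d _ (hI hu) _ (ih v hv)
      rwa [Nat.add_comm] at h2
    exact fun x hx => h1 hx

end Aug

/-- Newton expansion of `i ↦ ψ (φ^i h)` when `φ` is trivial modulo `gam c` -/
theorem newton {G : Type u} [Group G] {p : ℕ} [Fact p.Prime] {φ : MulAut G} {c : ℕ} (hc : 2 ≤ c)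
    (hφ : ∀ b, φ b * b⁻¹ ∈ gam G c) {A : Type w} [Ring A] [Algebra (ZMod p) A]
    {F : ℕ → Submodule (ZMod p) A} (hF : IsFilt F) (hN : F (c + p - 1) = ⊥) (ψ : G →* A)
    (hψ : ∀ g, ψ g - 1 ∈ F 1) (h : G) :
    ∃ a : ℕ → A, a 0 = ψ h ∧ a 1 = ψ (φ h) - ψ h ∧
      (∀ j, 1 ≤ j → a j ∈ F (1 + j * (c - 1))) ∧
      ∀ i, ψ ((φ ^ i) h) = ∑ j ∈ Finset.range p, ((i.choose j : ℕ) : A) * a j := by
  have hp : 1 ≤ p := (Fact.out : p.Prime).one_le
  set Ψ := MonoidAlgebra.lift (ZMod p) A G ψ with hΨ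
  have hΨg : ∀ g, Ψ (gof p g) = ψ g := fun g => MonoidAlgebra.lift_of _ _
  have hmem : ∀ j, 1 ≤ j → Ψ ((gL p φ ^ j) (gof p h)) ∈ F (1 + j * (c - 1)) := fun j hj =>
    lift_mem_of_mem hF ψ hψ _ _ (gL_pow_mem (by omega) hφ _ hj)
  refine ⟨fun j => Ψ ((gL p φ ^ j) (gof p h)), ?_, ?_, hmem, fun i => ?_⟩
  · exact hΨg h
  · change Ψ ((gL p φ ^ 1) (gof p h)) = ψ (φ h) - ψ h
    rw [pow_one, gL_apply, gPhi_gof, map_sub, hΨg, hΨg]
  · have h1 : ((gPhi p φ).toLinearMap : Module.End (ZMod p) (MonoidAlgebra (ZMod p) G)) =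
        gL p φ + 1 := by
      rw [gL, sub_add_cancel]
    have h2 : ψ ((φ ^ i) h) = ∑ j ∈ Finset.range (i + 1),
        ((i.choose j : ℕ) : A) * Ψ ((gL p φ ^ j) (gof p h)) := by
      rw [← hΨg, ← gPhi_pow_gof, h1, (Commute.one_right (gL p φ)).add_pow, LinearMap.sum_apply,
        map_sum]
      refine Finset.sum_congr rfl fun j _ => ?_
      rw [one_pow, mul_one, Module.End.mul_apply]
      have h3 : ((i.choose j : ℕ) : Module.End (ZMod p) (MonoidAlgebra (ZMod p) G)) (gof p h) =
          (i.choose j) • gof p h := by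
        rw [Module.End.natCast_apply]
      rw [h3, map_nsmul, map_nsmul, nsmul_eq_mul]
    have hz : ∀ j, p ≤ j → Ψ ((gL p φ ^ j) (gof p h)) = 0 := by
      intro j hj
      have h4 := hF.anti (show c + p - 1 ≤ 1 + j * (c - 1) by
        obtain ⟨c', rfl⟩ : ∃ c', c = c' + 2 := ⟨c - 2, by omega⟩
        have h5 : p * (c' + 1) ≤ j * (c' + 1) := Nat.mul_le_mul_right _ hj
        have h6 : c' * 1 ≤ c' * p := Nat.mul_le_mul_left _ hp
        have h7 : c' + 2 - 1 = c' + 1 := by omega
        have h8 : c' + 2 + p - 1 = c' + p + 1 := by omega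
        rw [h7, h8]
        nlinarith) (hmem j (hp.trans hj))
      rw [hN] at h4
      exact (Submodule.mem_bot _).1 h4
    rw [h2]
    rcases le_total (i + 1) p with h5 | h5
    · refine Finset.sum_subset (Finset.range_subset_range.2 h5) fun j _ hj => ?_
      rw [Finset.mem_range, not_lt] at hj
      rw [Nat.choose_eq_zero_of_lt (by omega), Nat.cast_zero, zero_mul]
    · refine (Finset.sum_subset (Finset.range_subset_range.2 h5) fun j _ hj => ?_).symm
      rw [Finset.mem_range, not_lt] at hj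
      rw [hz j hj, mul_zero]

end Pool.Agent.Helper89.BI
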