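import Pool.Agent.Helper89.BI.Defs

/-! # Module NODES -/

set_option autoImplicit false

namespace Pool.Agent.Helper89.BI

open Pool.Agent.Helper13.Spl

universe u v w

namespace NodesAux

open MvPolynomial

section kill

variable {σ : Type u} [DecidableEq σ] {k : Type v} [CommRing k]

/-- kill the variable `j` -/
noncomputable def kl (j : σ) : MvPolynomial σ k →ₐ[k] MvPolynomial σ k :=
  aeval (fun i => if i = j then 0 else X i)

omit [DecidableEq σ] in
theorem monomial_eq' (u : σ →₀ ℕ) (a : k) :
    monomial u a = C a * ∏ i ∈ u.support, (X i : MvPolynomial σ k) ^ u i := by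
  rw [monomial_eq, Finsupp.prod]

theorem kl_monomial (j : σ) (u : σ →₀ ℕ) (a : k) :
    kl j (monomial u a) = if u j = 0 then monomial u a else 0 := by
  unfold kl
  rw [aeval_monomial, Finsupp.prod]
  split_ifs with h
  · rw [monomial_eq' u a]
    congr 1
    apply Finset.prod_congr rfl
    intro i hi
    have : i ≠ j := by
      rintro rfl
      exact (Finsupp.mem_support_iff.mp hi) h
    rw [if_neg this]
  · have hj : j ∈ u.support := Finsupp.mem_support_iff.mpr h
    rw [Finset.prod_eq_zero hj, mul_zero]
    rw [if_pos rfl, zero_pow h]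

theorem kl_coeff (j : σ) (q : MvPolynomial σ k) (m : σ →₀ ℕ) (hm : m j = 0) :
    coeff m (kl j q) = coeff m q := by
  classical
  induction q using MvPolynomial.induction_on' with
  | monomial u a =>
    rw [kl_monomial]
    split_ifs with h
    · rfl
    · rw [coeff_zero, coeff_monomial, if_neg]
      rintro rfl
      exact h hm
  | add p q hp hq => rw [map_add, coeff_add, coeff_add, hp, hq]

theorem kl_eq (j : σ) (q : MvPolynomial σ k) (hq : ∀ m ∈ q.support, m j = 0) :
    kl j q = q := by
  conv_lhs => rw [q.as_sum]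
  conv_rhs => rw [q.as_sum]
  rw [map_sum]
  apply Finset.sum_congr rfl
  intro m hm
  rw [kl_monomial, if_pos (hq m hm)]

theorem kl_coeff_zero (j : σ) (q : MvPolynomial σ k) (m : σ →₀ ℕ) (hm : m j ≠ 0) :
    coeff m (kl j q) = 0 := by
  classical
  induction q using MvPolynomial.induction_on' with
  | monomial u a =>
    rw [kl_monomial]
    split_ifs with h
    · rw [coeff_monomial, if_neg]
      rintro rfl
      exact hm h
    · rw [coeff_zero]
  | add p q hp hq => rw [map_add, coeff_add, hp, hq, add_zero]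

end kill

variable (p : ℕ) [hp : Fact p.Prime] (s : ℕ)

set_option linter.unusedSectionVars false

/-- degree of the Vandermonde determinant -/
def dV (s : ℕ) : ℕ := ∑ i : Fin s, ∑ _j ∈ Finset.Ioi i, 1

/-- the Vandermonde determinant -/
noncomputable def VV : MvPolynomial (Fin s) (ZMod p) :=
  Matrix.det (Matrix.vandermonde (fun i : Fin s => (X i : MvPolynomial (Fin s) (ZMod p))))

theorem VV_hom : (VV p s).IsHomogeneous (dV s) := by
  unfold VV dV
  rw [Matrix.det_vandermonde]
  apply IsHomogeneous.prod
  intro i _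
  apply IsHomogeneous.prod
  intro j _
  exact (isHomogeneous_X _ j).sub (isHomogeneous_X _ i)

/-- the set of exponents of the monomial ideal -/
def bad (N : ℕ) : Set (Fin s →₀ ℕ) := {m | N ≤ m.degree ∨ ∃ i, p - 1 ≤ m i}

theorem bad_upper (N : ℕ) : IsUpperSet (bad p s N) := by
  rintro a b hab (h | ⟨i, hi⟩)
  · left
    exact le_trans h (Finsupp.degree_mono hab)
  · right
    exact ⟨i, le_trans hi (hab i)⟩

/-- the monomial ideal -/
noncomputable def JJ (N : ℕ) : Ideal (MvPolynomial (Fin s) (ZMod p)) :=
  restrictSupportIdeal (R := ZMod p) (bad p s N) (bad_upper p s N)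

theorem mem_JJ (N : ℕ) (q : MvPolynomial (Fin s) (ZMod p)) :
    q ∈ JJ p s N ↔ ∀ m ∈ q.support, m ∈ bad p s N := by
  change q ∈ restrictSupport (ZMod p) (bad p s N) ↔ _
  rw [mem_restrictSupport_iff]
  rfl

/-- the ideal `(J : V)` -/
noncomputable def II (N : ℕ) : Ideal (MvPolynomial (Fin s) (ZMod p)) :=
  Submodule.comap (LinearMap.mulLeft (MvPolynomial (Fin s) (ZMod p)) (VV p s)) (JJ p s N)

theorem mem_II (N : ℕ) (q : MvPolynomial (Fin s) (ZMod p)) :
    q ∈ II p s N ↔ VV p s * q ∈ JJ p s N := Iff.rfl

theorem X_pow_mem (N : ℕ) (i : Fin s) : (X i : MvPolynomial (Fin s) (ZMod p)) ^ (p - 1) ∈ JJ p s N := by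
  classical
  rw [mem_JJ]
  intro m hm
  rw [X_pow_eq_monomial] at hm
  have := support_monomial_subset hm
  rw [Finset.mem_singleton] at this
  subst this
  right
  exact ⟨i, by simp⟩

theorem pow_le (N K : ℕ) (h : N ≤ dV s + K) : (idealOfVars (Fin s) (ZMod p)) ^ K ≤ II p s N := by
  classical
  intro q hq
  rw [mem_pow_idealOfVars_iff] at hq
  rw [mem_II, mem_JJ]
  intro m hm
  left
  have := support_mul _ _ hm
  rw [Finset.mem_add] at this
  obtain ⟨a, ha, b, hb, rfl⟩ := this
  have h1 := hq b hb
  have h2 : a.degree = dV s := by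
    have := VV_hom p s (mem_support_iff.mp ha)
    rw [Finsupp.degree_eq_weight_one]
    exact this
  rw [map_add]
  omega

open Polynomial in
theorem divides (N : ℕ) : ∃ q : (MvPolynomial (Fin s) (ZMod p) ⧸ II p s N)[X],
    q * ∏ i : Fin s, (Polynomial.X - Polynomial.C (Ideal.Quotient.mk (II p s N) (MvPolynomial.X i)))
      = Polynomial.X ^ (p - 1) := by
  classical
  set S := MvPolynomial (Fin s) (ZMod p) with hS
  set P : S[X] := ∏ i : Fin s, (Polynomial.X - Polynomial.C (MvPolynomial.X i)) with hP
  have hmon : P.Monic := monic_prod_of_monic _ _ (fun i _ => monic_X_sub_C _)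
  have hdeg : P.natDegree = s := by
    rw [hP, natDegree_prod_of_monic _ _ (fun i _ => monic_X_sub_C _)]
    simp
  set r := (Polynomial.X ^ (p - 1) : S[X]) %ₘ P with hr
  have hdiv : r + P * ((Polynomial.X ^ (p - 1) : S[X]) /ₘ P) = Polynomial.X ^ (p - 1) :=
    modByMonic_add_div _ _
  have hrdeg : r.degree < s := by
    have := degree_modByMonic_lt (Polynomial.X ^ (p - 1) : S[X]) hmon
    rwa [degree_eq_natDegree hmon.ne_zero, hdeg] at this
  have heval : ∀ i : Fin s, ∑ j : Fin s, (MvPolynomial.X i : S) ^ (j : ℕ) * r.coeff j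
      = (MvPolynomial.X i : S) ^ (p - 1) := by
    intro i
    have h1 := congrArg (Polynomial.eval (MvPolynomial.X i : S)) hdiv
    have h2 : Polynomial.eval (MvPolynomial.X i : S) P = 0 := by
      rw [hP, Polynomial.eval_prod]
      apply Finset.prod_eq_zero (Finset.mem_univ i)
      simp
    rw [Polynomial.eval_add, Polynomial.eval_mul, h2, zero_mul, add_zero, Polynomial.eval_pow,
      Polynomial.eval_X] at h1
    rw [← h1]
    by_cases hs : s = 0
    · exact absurd i.2 (by omega)
    have hnd : r.natDegree < s := by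
      by_cases h0 : r = 0
      · rw [h0, natDegree_zero]; omega
      · exact (natDegree_lt_iff_degree_lt h0).mpr hrdeg
    rw [eval_eq_sum_range' hnd, ← Fin.sum_univ_eq_sum_range
      (fun j => r.coeff j * (MvPolynomial.X i : S) ^ j)]
    exact Finset.sum_congr rfl (fun j _ => mul_comm _ _)
  have hcoef : ∀ j : Fin s, r.coeff j ∈ II p s N := by
    intro j
    rw [mem_II]
    set W := Matrix.vandermonde (fun i : Fin s => (MvPolynomial.X i : S)) with hW
    have h1 : W.mulVec (fun j => r.coeff j) = fun i => (MvPolynomial.X i : S) ^ (p - 1) := by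
      funext i
      rw [← heval i]
      rfl
    have h2 : (W.adjugate * W).mulVec (fun j => r.coeff j)
        = W.adjugate.mulVec (fun i => (MvPolynomial.X i : S) ^ (p - 1)) := by
      have h5 := Matrix.mulVec_mulVec (fun j : Fin s => r.coeff (j : ℕ)) W.adjugate W
      rw [← h5, h1]
    rw [Matrix.adjugate_mul, Matrix.smul_mulVec, Matrix.one_mulVec] at h2
    have h3 := congrFun h2 j
    change VV p s * r.coeff j = _ at h3
    rw [h3]
    change ∑ i : Fin s, W.adjugate j i * (MvPolynomial.X i : S) ^ (p - 1) ∈ JJ p s N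
    refine Ideal.sum_mem _ (fun i _ => ?_)
    exact Ideal.mul_mem_left _ _ (X_pow_mem p s N i)
  have hmap : r.map (Ideal.Quotient.mk (II p s N)) = 0 := by
    ext n
    rw [Polynomial.coeff_map, Polynomial.coeff_zero]
    by_cases hn : n < s
    · exact Ideal.Quotient.eq_zero_iff_mem.mpr (hcoef ⟨n, hn⟩)
    · rw [coeff_eq_zero_of_degree_lt, map_zero]
      exact lt_of_lt_of_le hrdeg (by exact_mod_cast not_lt.mp hn)
  refine ⟨((Polynomial.X ^ (p - 1) : S[X]) /ₘ P).map (Ideal.Quotient.mk (II p s N)), ?_⟩
  rw [mul_comm P] at hdiv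
  have h4 := congrArg (Polynomial.map (Ideal.Quotient.mk (II p s N))) hdiv
  rw [Polynomial.map_add, hmap, zero_add, Polynomial.map_mul, Polynomial.map_pow,
    Polynomial.map_X] at h4
  have h6 : Polynomial.map (Ideal.Quotient.mk (II p s N)) P = ∏ i : Fin s,
      (Polynomial.X - Polynomial.C (Ideal.Quotient.mk (II p s N) (MvPolynomial.X i))) := by
    rw [hP, Polynomial.map_prod]
    apply Finset.prod_congr rfl
    intro i _
    simp
  rw [← h6]
  exact h4

theorem degreeOf_VV (i : Fin s) : degreeOf i (VV p s) ≤ s - 1 := by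
  classical
  rw [degreeOf_le_iff]
  intro m hm
  unfold VV at hm
  rw [Matrix.det_apply] at hm
  have h1 := (support_sum) hm
  rw [Finset.mem_biUnion] at h1
  obtain ⟨σ, -, hσ⟩ := h1
  have h2 : m ∈ (∏ j : Fin s, (X (σ j) : MvPolynomial (Fin s) (ZMod p)) ^ (j : ℕ)).support := by
    rw [mem_support_iff] at hσ ⊢
    intro h
    apply hσ
    simp only [Matrix.vandermonde_apply]
    rw [coeff_smul, h, smul_zero]
  have h3 : degreeOf i (∏ j : Fin s, (X (σ j) : MvPolynomial (Fin s) (ZMod p)) ^ (j : ℕ)) ≤ s - 1 := by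
    refine le_trans (degreeOf_prod_le _ _ _) ?_
    have h4 : ∀ j : Fin s, degreeOf i ((X (σ j) : MvPolynomial (Fin s) (ZMod p)) ^ (j : ℕ))
        ≤ if j = σ.symm i then s - 1 else 0 := by
      intro j
      refine le_trans (degreeOf_pow_le _ _ _) ?_
      by_cases hj : σ j = i
      · have : j = σ.symm i := by rw [← hj]; simp
        rw [if_pos this, hj]
        rw [degreeOf_X, if_pos rfl, mul_one]
        omega
      · rw [degreeOf_X, if_neg (fun h => hj h.symm), mul_zero]
        exact Nat.zero_le _
    refine le_trans (Finset.sum_le_sum (fun j _ => h4 j)) ?_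
    simp
  exact degreeOf_le_iff.mp h3 m h2

end NodesAux

open NodesAux in
open Polynomial in
/-- a ring with nilpotent nodes `x_0 = 0, x_1, ..., x_s` -/
theorem exists_nodes (p : ℕ) [hp : Fact p.Prime] {s c : ℕ} (hs : 2 ≤ s) (hsc : s ≤ c)
    (hcp : c < p) :
    ∃ (R : Type) (_ : CommRing R) (_ : Algebra (ZMod p) R) (x : Fin (s + 1) → R),
      x 0 = 0 ∧
      (∃ q : R[X], q * ∏ i, (X - C (x i)) = X ^ p) ∧
      (∀ i, x i ^ (p - 1) = 0) ∧
      Ideal.span (Set.range x) ^ (c + p - 1 - s) = ⊥ ∧
      ∀ f : MvPolynomial (Fin (s + 1)) (ZMod p), f.IsHomogeneous (c - s) →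
        (∀ m ∈ f.support, m 0 = 0 ∧ m (Fin.last s) = 0) →
        x (Fin.last s) ^ (p - 2) * MvPolynomial.aeval x f = 0 → f = 0 := by
  classical
  obtain ⟨t, rfl⟩ : ∃ t, s = t + 1 := ⟨s - 1, by omega⟩
  set N := dV (t + 1) + (c + p - 1 - (t + 1)) with hN
  set S := MvPolynomial (Fin (t + 1)) (ZMod p) with hS
  set I := II p (t + 1) N with hI
  let x : Fin (t + 1 + 1) → S ⧸ I :=
    Fin.cases 0 (fun j => Ideal.Quotient.mk I (MvPolynomial.X j))
  let y : Fin (t + 1 + 1) → S := Fin.cases 0 (fun j => (MvPolynomial.X j : S))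
  have hxy : ∀ i, x i = Ideal.Quotient.mk I (y i) := by
    intro i
    refine Fin.cases ?_ (fun j => ?_) i
    · change (0 : S ⧸ I) = Ideal.Quotient.mk I 0
      rw [map_zero]
    · rfl
  refine ⟨S ⧸ I, inferInstance, inferInstance, x, rfl, ?_, ?_, ?_, ?_⟩
  · obtain ⟨q, hq⟩ := divides p (t + 1) N
    refine ⟨q, ?_⟩
    rw [Fin.prod_univ_succ]
    have h0 : x 0 = 0 := rfl
    have h1 : ∀ i : Fin (t + 1), x i.succ = Ideal.Quotient.mk I (MvPolynomial.X i) := fun i => rfl
    simp only [h0, h1]
    rw [Polynomial.C_0, sub_zero, mul_left_comm, hq, ← pow_succ']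
    congr 1
    have := hp.out.two_le
    omega
  · intro i
    refine Fin.cases ?_ (fun j => ?_) i
    · change (0 : S ⧸ I) ^ (p - 1) = 0
      have := hp.out.two_le
      exact zero_pow (by omega)
    · change Ideal.Quotient.mk I (MvPolynomial.X j) ^ (p - 1) = 0
      rw [← map_pow]
      apply Ideal.Quotient.eq_zero_iff_mem.mpr
      rw [hI, mem_II]
      exact Ideal.mul_mem_left _ _ (X_pow_mem p (t + 1) N j)
  · have h1 : Ideal.span (Set.range x) ≤
        Ideal.map (Ideal.Quotient.mk I) (MvPolynomial.idealOfVars (Fin (t + 1)) (ZMod p)) := by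
      rw [Ideal.span_le]
      rintro _ ⟨i, rfl⟩
      refine Fin.cases ?_ (fun j => ?_) i
      · exact Ideal.zero_mem _
      · exact Ideal.mem_map_of_mem _ (Ideal.subset_span ⟨j, rfl⟩)
    refine le_bot_iff.mp (le_trans (Ideal.pow_right_mono h1 _) ?_)
    rw [← Ideal.map_pow]
    refine le_trans (Ideal.map_mono (pow_le p (t + 1) N _ (le_of_eq hN))) ?_
    rw [Ideal.map_quotient_self]
  · intro f hf hsup hz
    -- the polynomial `g`
    set g : S := MvPolynomial.aeval y f with hg
    have hfg : MvPolynomial.rename Fin.succ g = f := by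
      have h1 : MvPolynomial.rename Fin.succ g = kl (0 : Fin (t + 1 + 1)) f := by
        rw [hg, MvPolynomial.comp_aeval_apply]
        unfold kl
        congr 2
        funext i
        refine Fin.cases ?_ (fun j => ?_) i
        · change MvPolynomial.rename Fin.succ (0 : S) = _
          rw [map_zero, if_pos rfl]
        · change MvPolynomial.rename Fin.succ (MvPolynomial.X j : S) = _
          rw [MvPolynomial.rename_X, if_neg (Fin.succ_ne_zero j)]
      rw [h1]
      exact kl_eq _ _ (fun m hm => (hsup m hm).1)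
    suffices hg0 : g = 0 by rw [← hfg, hg0, map_zero]
    have hghom : g.IsHomogeneous (c - (t + 1)) := by
      have := hf.aeval (n := 1) y (by
        intro i
        refine Fin.cases ?_ (fun j => ?_) i
        · exact MvPolynomial.isHomogeneous_zero _ _ _
        · exact MvPolynomial.isHomogeneous_X _ _)
      rwa [one_mul] at this
    -- `g` does not involve the last variable
    have hgkl : kl (Fin.last t) g = g := by
      have h1 : ∀ m ∈ g.support, m (Fin.last t) = 0 := by
        intro m hm
        have h2 : m.mapDomain Fin.succ ∈ f.support := by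
          rw [← hfg, MvPolynomial.mem_support_iff,
            MvPolynomial.coeff_rename_mapDomain _ (Fin.succ_injective _)]
          exact MvPolynomial.mem_support_iff.mp hm
        have h3 := (hsup _ h2).2
        rw [← Fin.succ_last, Finsupp.mapDomain_apply (Fin.succ_injective _)] at h3
        exact h3
      exact kl_eq _ _ h1
    set V0 : S := kl (Fin.last t) (VV p (t + 1)) with hV0
    have hV0ne : V0 ≠ 0 := by
      rw [hV0]
      unfold VV
      rw [AlgHom.map_det]
      have : (kl (Fin.last t)).mapMatrix (Matrix.vandermonde (fun i : Fin (t + 1) =>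
          (MvPolynomial.X i : MvPolynomial (Fin (t + 1)) (ZMod p))))
          = Matrix.vandermonde (fun i : Fin (t + 1) =>
            (kl (Fin.last t) (MvPolynomial.X i : MvPolynomial (Fin (t + 1)) (ZMod p)))) := by
        ext i j
        simp [Matrix.vandermonde_apply]
      rw [this, Matrix.det_vandermonde_ne_zero_iff]
      intro i j hij
      simp only [kl, MvPolynomial.aeval_X] at hij
      split_ifs at hij with h1 h2 h2
      · rw [h1, h2]
      · exact absurd hij.symm (MvPolynomial.X_ne_zero j)
      · exact absurd hij (MvPolynomial.X_ne_zero i)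
      · exact MvPolynomial.X_injective hij
    have hz' : VV p (t + 1) * (MvPolynomial.X (Fin.last t) ^ (p - 2) * g) ∈ JJ p (t + 1) N := by
      rw [← mem_II]
      apply Ideal.Quotient.eq_zero_iff_mem.mp
      have h1 : MvPolynomial.aeval x f = Ideal.Quotient.mk I g := by
        have h2 : x = fun i => (Ideal.Quotient.mkₐ (ZMod p) I) (y i) := by
          funext i
          rw [hxy i]
          rfl
        rw [h2, ← MvPolynomial.comp_aeval_apply]
        rfl
      have h2 : x (Fin.last (t + 1)) = Ideal.Quotient.mk I (MvPolynomial.X (Fin.last t)) := by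
        rw [← Fin.succ_last]
        rfl
      rw [h1, h2] at hz
      rw [map_mul, map_pow]
      exact hz
    by_contra hg0
    have hprod : V0 * g ≠ 0 := mul_ne_zero hV0ne hg0
    obtain ⟨m, hm⟩ := MvPolynomial.ne_zero_iff.mp hprod
    have hV0g : V0 * g = kl (Fin.last t) (VV p (t + 1) * g) := by
      rw [map_mul, hgkl]
    have hmt : m (Fin.last t) = 0 := by
      by_contra h
      apply hm
      rw [hV0g, kl_coeff_zero _ _ _ h]
    have hcoef : MvPolynomial.coeff (m + Finsupp.single (Fin.last t) (p - 2))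
        (VV p (t + 1) * (MvPolynomial.X (Fin.last t) ^ (p - 2) * g)) ≠ 0 := by
      have h1 : VV p (t + 1) * (MvPolynomial.X (Fin.last t) ^ (p - 2) * g)
          = (VV p (t + 1) * g) * MvPolynomial.monomial (Finsupp.single (Fin.last t) (p - 2)) 1 := by
        rw [← MvPolynomial.X_pow_eq_monomial]
        ring
      rw [h1, MvPolynomial.coeff_mul_monomial, mul_one, ← kl_coeff (Fin.last t) _ _ hmt, ← hV0g]
      exact hm
    have hbad := (mem_JJ p (t + 1) N _).mp hz' _ (MvPolynomial.mem_support_iff.mpr hcoef)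
    have hVg : MvPolynomial.coeff m (VV p (t + 1) * g) ≠ 0 := by
      rw [← kl_coeff (Fin.last t) _ _ hmt, ← hV0g]
      exact hm
    have hdegm : m.degree = dV (t + 1) + (c - (t + 1)) := by
      have := ((VV_hom p (t + 1)).mul hghom) hVg
      rw [Finsupp.degree_eq_weight_one]
      exact this
    have hp2 := hp.out.two_le
    rcases hbad with hb | ⟨i, hi⟩
    · rw [map_add, Finsupp.degree_single, hdegm] at hb
      omega
    · by_cases hit : i = Fin.last t
      · subst hit
        rw [Finsupp.add_apply, Finsupp.single_eq_same, hmt] at hi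
        omega
      · rw [Finsupp.add_apply, Finsupp.single_eq_of_ne hit, add_zero] at hi
        have h1 : m i ≤ MvPolynomial.degreeOf i (VV p (t + 1) * g) :=
          MvPolynomial.monomial_le_degreeOf i (MvPolynomial.mem_support_iff.mpr hVg)
        have h2 := MvPolynomial.degreeOf_mul_le i (VV p (t + 1)) g
        have h3 := degreeOf_VV p (t + 1) i
        have h4 : MvPolynomial.degreeOf i g ≤ c - (t + 1) :=
          le_trans (MvPolynomial.degreeOf_le_totalDegree _ _) hghom.totalDegree_le
        omega

end Pool.Agent.Helper89.BI
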