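import Pool.Agent.Helper89.BI.Defs

/-! # Module POLY -/

set_option autoImplicit false

namespace Pool.Agent.Helper89.BI

open Pool.Agent.Helper13.Spl

universe u v w

/-- `Λ = ∑_{1 ≤ j < p} (-1)^(j-1) j⁻¹ a_j` -/
noncomputable def Lam {p : ℕ} {A : Type w} [Ring A] [Algebra (ZMod p) A] (a : ℕ → A) : A :=
  ∑ j ∈ Finset.Ico 1 p, ((-1) ^ (j - 1) * ((j : ℕ) : ZMod p)⁻¹ : ZMod p) • a j

namespace PolyAux

open Polynomial

/-- binomial polynomial over `ZMod p` -/
noncomputable def bet (p : ℕ) (j : ℕ) : (ZMod p)[X] :=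
  C (((j.factorial : ℕ) : ZMod p)⁻¹) * descPochhammer (ZMod p) j

theorem fact_ne {p : ℕ} [hp : Fact p.Prime] {j : ℕ} (hj : j < p) :
    ((j.factorial : ℕ) : ZMod p) ≠ 0 := by
  rw [Ne, ZMod.natCast_eq_zero_iff]
  intro h
  exact absurd ((hp.out.dvd_factorial).1 h) (by omega)

theorem bet_eval {p : ℕ} [hp : Fact p.Prime] {j : ℕ} (hj : j < p) (i : ℕ) :
    (bet p j).eval (i : ZMod p) = ((i.choose j : ℕ) : ZMod p) := by
  unfold bet
  rw [eval_mul, eval_C, descPochhammer_eval_eq_descFactorial, Nat.descFactorial_eq_factorial_mul_choose]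
  push_cast
  rw [← mul_assoc, inv_mul_cancel₀ (fact_ne hj), one_mul]

theorem bet_coeff_lt (p : ℕ) [hp : Fact p.Prime] {j l : ℕ} (h : j < l) : (bet p j).coeff l = 0 := by
  unfold bet
  rw [coeff_C_mul]
  have : (descPochhammer (ZMod p) j).natDegree = j := by
    exact descPochhammer_natDegree (ZMod p) j
  rw [coeff_eq_zero_of_natDegree_lt (by omega), mul_zero]

theorem bet_zero (p : ℕ) : bet p 0 = 1 := by
  simp [bet]

theorem bet_coeff_zero (p : ℕ) {j : ℕ} (hj : 1 ≤ j) : (bet p j).coeff 0 = 0 := by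
  obtain ⟨j, rfl⟩ : ∃ i, j = i + 1 := ⟨j - 1, by omega⟩
  unfold bet
  rw [coeff_C_mul, descPochhammer_succ_left, coeff_X_mul_zero, mul_zero]

theorem desc_neg_one (p : ℕ) (j : ℕ) :
    (descPochhammer (ZMod p) j).eval (-1) = (-1) ^ j * ((j.factorial : ℕ) : ZMod p) := by
  induction j with
  | zero => simp
  | succ j ih =>
    rw [descPochhammer_succ_right, eval_mul, ih, Nat.factorial_succ]
    simp only [eval_sub, eval_X, eval_natCast]
    push_cast
    ring

theorem bet_coeff_one {p : ℕ} [hp : Fact p.Prime] {j : ℕ} (hj : 1 ≤ j) (hjp : j < p) :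
    (bet p j).coeff 1 = (-1) ^ (j - 1) * ((j : ℕ) : ZMod p)⁻¹ := by
  obtain ⟨j, rfl⟩ : ∃ i, j = i + 1 := ⟨j - 1, by omega⟩
  unfold bet
  rw [coeff_C_mul, descPochhammer_succ_left, coeff_X_mul, coeff_zero_eq_eval_zero, eval_comp]
  simp only [eval_sub, eval_X, eval_one, zero_sub, Nat.add_sub_cancel]
  rw [desc_neg_one, Nat.factorial_succ]
  have h1 := fact_ne (p := p) (j := j) (by omega)
  push_cast
  rw [mul_inv]
  field_simp

/-- the coefficients of the interpolation polynomial -/
noncomputable def bb {p : ℕ} {A : Type w} [Ring A] [Algebra (ZMod p) A] (a : ℕ → A) (l : ℕ) : A :=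
  ∑ j ∈ Finset.range p, (bet p j).coeff l • a j

theorem bb_zero {p : ℕ} [hp : Fact p.Prime] {A : Type w} [Ring A] [Algebra (ZMod p) A]
    (a : ℕ → A) : bb (p := p) a 0 = a 0 := by
  unfold bb
  rw [Finset.sum_eq_single_of_mem 0 (Finset.mem_range.2 hp.out.pos)]
  · simp [bet_zero]
  · intro j _ hj
    rw [bet_coeff_zero p (by omega), zero_smul]

theorem bb_one {p : ℕ} [hp : Fact p.Prime] {A : Type w} [Ring A] [Algebra (ZMod p) A]
    (a : ℕ → A) : bb (p := p) a 1 = Lam (p := p) a := by
  unfold bb Lam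
  rw [Finset.range_eq_Ico, Finset.sum_eq_sum_Ico_succ_bot hp.out.pos]
  have h0 : (bet p 0).coeff 1 = 0 := bet_coeff_lt p (by omega)
  rw [h0, zero_smul, zero_add]
  apply Finset.sum_congr rfl
  intro j hj
  rw [Finset.mem_Ico] at hj
  rw [bet_coeff_one (by omega) (by omega)]

theorem bb_mem {p : ℕ} [hp : Fact p.Prime] {A : Type w} [Ring A] [Algebra (ZMod p) A]
    {F : ℕ → Submodule (ZMod p) A} (hF : IsFilt F) {c : ℕ} (a : ℕ → A)
    (ha : ∀ j, 1 ≤ j → a j ∈ F (1 + j * (c - 1))) {l : ℕ} (hl : 1 ≤ l) :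
    bb (p := p) a l ∈ F (1 + l * (c - 1)) := by
  unfold bb
  apply Submodule.sum_mem
  intro j hj
  by_cases h : j < l
  · rw [bet_coeff_lt p h, zero_smul]
    exact Submodule.zero_mem _
  · apply Submodule.smul_mem
    have h2 : 1 + l * (c - 1) ≤ 1 + j * (c - 1) := by
      have := Nat.mul_le_mul_right (c - 1) (not_lt.1 h)
      omega
    exact hF.anti h2 (ha j (by omega))

/-- the polynomial family -/
noncomputable def PP {p : ℕ} {A : Type w} [Ring A] [Algebra (ZMod p) A] (a : ℕ → A) (i : ℕ) :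
    A[X] :=
  ∑ l ∈ Finset.range p, monomial l (((i : ZMod p) ^ l) • bb (p := p) a l)

theorem PP_coeff {p : ℕ} [hp : Fact p.Prime] {A : Type w} [Ring A] [Algebra (ZMod p) A]
    (a : ℕ → A) (i l : ℕ) :
    (PP (p := p) a i).coeff l = if l < p then ((i : ZMod p) ^ l) • bb (p := p) a l else 0 := by
  unfold PP
  rw [finsetSum_coeff]
  simp only [coeff_monomial]
  rw [Finset.sum_ite_eq' (Finset.range p) l]
  simp

theorem PP_eval {p : ℕ} [hp : Fact p.Prime] {A : Type w} [Ring A] [Algebra (ZMod p) A]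
    (a : ℕ → A) (i k : ℕ) :
    (PP (p := p) a i).eval (k : A) =
      ∑ j ∈ Finset.range p, (((i * k).choose j : ℕ) : A) * a j := by
  unfold PP bb
  rw [eval_finsetSum]
  have h1 : ∀ l ∈ Finset.range p, eval (k : A) (monomial l (((i : ZMod p) ^ l) •
      ∑ j ∈ Finset.range p, (bet p j).coeff l • a j)) =
      ∑ j ∈ Finset.range p, ((bet p j).coeff l * (((i * k : ℕ)) : ZMod p) ^ l) • a j := by
    intro l _
    have hk : (k : A) ^ l = algebraMap (ZMod p) A ((k : ZMod p) ^ l) := by simp
    rw [eval_monomial, hk, ← Algebra.commutes, ← Algebra.smul_def, smul_smul, Finset.smul_sum]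
    apply Finset.sum_congr rfl
    intro j _
    rw [smul_smul]
    congr 1
    push_cast
    ring
  rw [Finset.sum_congr rfl h1, Finset.sum_comm]
  apply Finset.sum_congr rfl
  intro j hj
  rw [Finset.mem_range] at hj
  rw [← Finset.sum_smul]
  have h2 : ∑ l ∈ Finset.range p, (bet p j).coeff l * (((i * k : ℕ)) : ZMod p) ^ l =
      (bet p j).eval (((i * k : ℕ)) : ZMod p) := by
    rw [eval_eq_sum_range' (n := p)]
    by_contra hh
    push Not at hh
    have := bet_coeff_lt p (j := j) (l := (bet p j).natDegree) (by omega)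
    rw [coeff_natDegree, leadingCoeff_eq_zero] at this
    rw [this, natDegree_zero] at hh
    have := hp.out.pos
    omega
  rw [h2, bet_eval hj, Algebra.smul_def]
  simp

/-- good polynomials -/
def Good {p : ℕ} {A : Type w} [Ring A] [Algebra (ZMod p) A] (F : ℕ → Submodule (ZMod p) A)
    (c : ℕ) (P : A[X]) : Prop :=
  P.coeff 0 ∈ F 0 ∧ ∀ l, 1 ≤ l → P.coeff l ∈ F (1 + l * (c - 1))

theorem Good.one {p : ℕ} {A : Type w} [Ring A] [Algebra (ZMod p) A]
    {F : ℕ → Submodule (ZMod p) A} (hF : IsFilt F) (c : ℕ) : Good F c (1 : A[X]) := by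
  refine ⟨by simpa using hF.one, fun l hl => ?_⟩
  rw [coeff_one, if_neg (by omega)]
  exact Submodule.zero_mem _

theorem Good.mul {p : ℕ} {A : Type w} [Ring A] [Algebra (ZMod p) A]
    {F : ℕ → Submodule (ZMod p) A} (hF : IsFilt F) {c : ℕ} {P Q : A[X]} (hP : Good F c P)
    (hQ : Good F c Q) : Good F c (P * Q) := by
  refine ⟨?_, fun l hl => ?_⟩
  · rw [mul_coeff_zero]
    simpa using hF.mul 0 0 _ hP.1 _ hQ.1
  · rw [coeff_mul]
    apply Submodule.sum_mem
    rintro ⟨x, y⟩ hxy
    rw [Finset.HasAntidiagonal.mem_antidiagonal] at hxy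
    simp only at hxy ⊢
    rcases Nat.eq_zero_or_pos x with hx | hx
    · subst hx
      have hy : y = l := by omega
      subst hy
      have := hF.mul 0 _ _ hP.1 _ (hQ.2 y hl)
      simpa using this
    · rcases Nat.eq_zero_or_pos y with hy | hy
      · subst hy
        have hx' : x = l := by omega
        subst hx'
        have := hF.mul _ 0 _ (hP.2 x hl) _ hQ.1
        simpa using this
      · have := hF.mul _ _ _ (hP.2 x hx) _ (hQ.2 y hy)
        refine hF.anti ?_ this
        rw [← hxy, add_mul]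
        omega

theorem Good.prod {p : ℕ} {A : Type w} [Ring A] [Algebra (ZMod p) A]
    {F : ℕ → Submodule (ZMod p) A} (hF : IsFilt F) {c : ℕ} (P : ℕ → A[X])
    (hP : ∀ i, Good F c (P i)) (n : ℕ) : Good F c ((List.range n).map P).prod := by
  induction n with
  | zero => simpa using Good.one hF c
  | succ n ih =>
    rw [List.range_succ, List.map_append, List.prod_append]
    simpa using Good.mul hF ih (hP n)

theorem PP_good {p : ℕ} [hp : Fact p.Prime] {A : Type w} [Ring A] [Algebra (ZMod p) A]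
    {F : ℕ → Submodule (ZMod p) A} (hF : IsFilt F) {c : ℕ} (a : ℕ → A) (ha0 : a 0 ∈ F 0)
    (ha : ∀ j, 1 ≤ j → a j ∈ F (1 + j * (c - 1))) (i : ℕ) : Good F c (PP (p := p) a i) := by
  refine ⟨?_, fun l hl => ?_⟩
  · rw [PP_coeff, if_pos hp.out.pos, bb_zero]
    exact Submodule.smul_mem _ _ ha0
  · rw [PP_coeff]
    split_ifs
    · exact Submodule.smul_mem _ _ (bb_mem hF a ha hl)
    · exact Submodule.zero_mem _

theorem prod_coeff_zero {A : Type w} [Ring A] (P : ℕ → A[X]) (x : A)
    (h0 : ∀ i, (P i).coeff 0 = x) (n : ℕ) : (((List.range n).map P).prod).coeff 0 = x ^ n := by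
  induction n with
  | zero => simp
  | succ n ih =>
    rw [List.range_succ, List.map_append, List.prod_append, mul_coeff_zero, ih]
    simp [h0, pow_succ]

theorem prod_coeff_one {A : Type w} [Ring A] (P : ℕ → A[X]) (x y : A)
    (h0 : ∀ i, (P i).coeff 0 = x) (h1 : ∀ i, (P i).coeff 1 = (i : A) * y) (n : ℕ) :
    (((List.range n).map P).prod).coeff 1 =
      ∑ i ∈ Finset.range n, (i : A) * (x ^ i * y * x ^ (n - 1 - i)) := by
  induction n with
  | zero => simp [coeff_one]
  | succ n ih =>
    rw [List.range_succ, List.map_append, List.prod_append, Finset.sum_range_succ]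
    simp only [List.map_cons, List.map_nil, List.prod_cons, List.prod_nil, mul_one]
    rw [mul_coeff_one, prod_coeff_zero P x h0 n]
    have e1 : ∀ i ∈ Finset.range n, (i : A) * (x ^ i * y * x ^ (n + 1 - 1 - i)) =
        (i : A) * (x ^ i * y * x ^ (n - 1 - i)) * x := by
      intro i hi
      rw [Finset.mem_range] at hi
      rw [show n + 1 - 1 - i = (n - 1 - i) + 1 by omega, pow_succ]
      simp only [mul_assoc]
    rw [Finset.sum_congr rfl e1, ← Finset.sum_mul, ← ih]
    have e2 : x ^ n * ((n : A) * y) = (n : A) * (x ^ n * y * x ^ (n + 1 - 1 - n)) := by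
      rw [show n + 1 - 1 - n = 0 by omega, pow_zero, mul_one, ← mul_assoc, ← mul_assoc,
        (Nat.cast_commute n (x ^ n)).eq]
    rw [h0, h1, e2, add_comm]

theorem sum_period {p : ℕ} {A : Type w} [Ring A] [Algebra (ZMod p) A] (x y : A)
    (hx : x ^ p = 1) (hp : 0 < p) (m : ℕ) :
    ∑ i ∈ Finset.range (p * m), (i : A) * (x ^ i * y * x ^ (p * m - 1 - i)) =
      (m : A) * ∑ i ∈ Finset.range p, (i : A) * (x ^ i * y * x ^ (p - 1 - i)) := by
  have hpA : (p : A) = 0 := by
    rw [← map_natCast (algebraMap (ZMod p) A) p]; simp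
  induction m with
  | zero => simp
  | succ m ih =>
    rw [show p * (m + 1) = p * m + p by ring, Finset.sum_range_add]
    push_cast
    rw [add_mul, one_mul, ← ih]
    congr 1
    · apply Finset.sum_congr rfl
      intro i hi
      rw [Finset.mem_range] at hi
      rw [show p * m + p - 1 - i = (p * m - 1 - i) + p by omega, pow_add, hx, mul_one]
    · apply Finset.sum_congr rfl
      intro i hi
      rw [Finset.mem_range] at hi
      rw [show p * m + p - 1 - (p * m + i) = p - 1 - i by omega, pow_add, pow_mul, hx, one_pow,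
        one_mul, hpA, zero_mul, zero_add]

/-- a residue class mod `p` prime to `p` contains a number prime to `p * m` -/
theorem exists_rep {p : ℕ} [hp : Fact p.Prime] {m : ℕ} (hm : ¬ p ∣ m) {k : ℕ} (hk : ¬ p ∣ k) :
    ∃ k' : ℕ, k'.Coprime (p * m) ∧ (k' : ZMod p) = (k : ZMod p) := by
  have hcop : Nat.Coprime p m := (Nat.Prime.coprime_iff_not_dvd hp.out).2 hm
  obtain ⟨k', h1, h2⟩ := Nat.chineseRemainder hcop k 1
  refine ⟨k', ?_, (ZMod.natCast_eq_natCast_iff _ _ _).2 h1⟩
  apply Nat.Coprime.mul_right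
  · have : Nat.Coprime p k' := by
      rw [Nat.Prime.coprime_iff_not_dvd hp.out]
      intro hd
      exact hk ((Nat.ModEq.dvd_iff h1 dvd_rfl).1 hd)
    exact this.symm
  · have := Nat.ModEq.gcd_eq h2
    rw [Nat.gcd_one_left] at this
    exact this

/-- vanishing of polynomials with vector coefficients -/
theorem vander {p : ℕ} [hp : Fact p.Prime] {A : Type w} [AddCommGroup A] [Module (ZMod p) A]
    (r : ℕ → A) (h : ∀ x : ZMod p, ∑ l ∈ Finset.range p, x ^ l • r l = 0) (l : ℕ) (hl : l < p) :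
    r l = 0 := by
  rw [← Module.forall_dual_apply_eq_zero_iff (ZMod p)]
  intro φ
  let P : (ZMod p)[X] := ∑ l ∈ Finset.range p, monomial l (φ (r l))
  have hcoef : ∀ i, P.coeff i = if i < p then φ (r i) else 0 := by
    intro i
    simp only [P, finsetSum_coeff, coeff_monomial]
    rw [Finset.sum_ite_eq' (Finset.range p) i]
    simp
  have hP : P = 0 := by
    by_contra hne
    have hdeg : P.natDegree < p := by
      by_contra hcon
      have h1 := hcoef P.natDegree
      rw [if_neg hcon, coeff_natDegree, leadingCoeff_eq_zero] at h1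
      exact hne h1
    have hroots : Fintype.card (ZMod p) ≤ P.natDegree := by
      have h2 : (Finset.univ : Finset (ZMod p)).val ⊆ P.roots := by
        intro x _
        rw [mem_roots hne, IsRoot.def]
        have := congrArg φ (h x)
        rw [map_sum, map_zero] at this
        simp only [P, eval_finsetSum, eval_monomial]
        rw [← this]
        apply Finset.sum_congr rfl
        intro l _
        rw [map_smul, smul_eq_mul, mul_comm]
      exact card_le_degree_of_subset_roots h2
    rw [ZMod.card] at hroots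
    omega
  have := hcoef l
  rw [hP, if_pos hl, coeff_zero] at this
  exact this.symm

end PolyAux

open PolyAux Polynomial in
/-- the linear coefficient of the product of the Newton expansions vanishes -/
theorem polytrick {p : ℕ} [hp : Fact p.Prime] {A : Type w} [Ring A] [Algebra (ZMod p) A]
    {F : ℕ → Submodule (ZMod p) A} (hF : IsFilt F) {c : ℕ} (hc : 2 ≤ c)
    (hN : F (c + p - 1) = ⊥) {n m : ℕ} (hn : n = p * m) (hm : ¬ p ∣ m) (a : ℕ → A)
    (ha0 : a 0 ∈ F 0) (ha : ∀ j, 1 ≤ j → a j ∈ F (1 + j * (c - 1))) (hg : a 0 ^ p = 1)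
    (hprod : ∀ k, k.Coprime n → ((List.range n).map fun i =>
      ∑ j ∈ Finset.range p, (((i * k).choose j : ℕ) : A) * a j).prod = 1) :
    ∑ i ∈ Finset.range p, (i : A) * (a 0 ^ i * Lam (p := p) a * a 0 ^ (p - 1 - i)) = 0 := by
  have hp1 : 1 < p := hp.out.one_lt
  set Q : A[X] := ((List.range n).map fun i => PP (p := p) a i).prod with hQ
  have hgood : Good F c Q := Good.prod hF _ (PP_good hF a ha0 ha) n
  have hPP0 : ∀ i, (PP (p := p) a i).coeff 0 = a 0 := by
    intro i
    rw [PP_coeff, if_pos hp.out.pos, pow_zero, one_smul, bb_zero]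
  have hPP1 : ∀ i : ℕ, (PP (p := p) a i).coeff 1 = (i : A) * Lam (p := p) a := by
    intro i
    rw [PP_coeff, if_pos hp1, pow_one, bb_one, Algebra.smul_def]
    simp
  have hQ0 : Q.coeff 0 = 1 := by
    rw [hQ, prod_coeff_zero _ (a 0) hPP0 n, hn, pow_mul, hg, one_pow]
  have hQ1 := prod_coeff_one (fun i => PP (p := p) a i) (a 0) (Lam (p := p) a) hPP0 hPP1 n
  have hhigh : ∀ l, p ≤ l → Q.coeff l = 0 := by
    intro l hl
    have h1 := hgood.2 l (by omega)
    have h2 : c + p - 1 ≤ 1 + l * (c - 1) := by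
      obtain ⟨d, rfl⟩ : ∃ d, c = d + 2 := ⟨c - 2, by omega⟩
      have h3 : p * (d + 1) ≤ l * (d + 1) := Nat.mul_le_mul_right _ hl
      have h4 : p + d ≤ p * (d + 1) := by nlinarith
      have h5 : d + 2 - 1 = d + 1 := by omega
      rw [h5]
      omega
    have h3 := hF.anti h2 h1
    rw [hN, Submodule.mem_bot] at h3
    exact h3
  have hevalnat : ∀ k : ℕ, Q.eval (k : A) = ∑ l ∈ Finset.range p, ((k : ZMod p) ^ l) • Q.coeff l := by
    intro k
    have hdeg : Q.natDegree < p := by
      by_contra hcon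
      have h1 := hhigh Q.natDegree (not_lt.1 hcon)
      rw [coeff_natDegree, leadingCoeff_eq_zero] at h1
      rw [h1, natDegree_zero] at hcon
      omega
    rw [eval_eq_sum_range' hdeg]
    apply Finset.sum_congr rfl
    intro l _
    have hk : (k : A) ^ l = algebraMap (ZMod p) A ((k : ZMod p) ^ l) := by simp
    rw [hk, ← Algebra.commutes, ← Algebra.smul_def]
  have heval : ∀ k : ℕ, k.Coprime n → Q.eval (k : A) = 1 := by
    intro k hk
    rw [← hprod k hk, hQ]
    have h1 := eval₂_list_prod_noncomm (f := RingHom.id A) (x := (k : A))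
      ((List.range n).map fun i => PP (p := p) a i)
      (fun P _ l => by simpa using (Nat.cast_commute k (P.coeff l)).symm)
    rw [← eval₂_id, h1, List.map_map]
    congr 1
    apply List.map_congr_left
    intro i _
    simp only [Function.comp]
    rw [eval₂_id, PP_eval]
  have hr : ∀ x : ZMod p, ∑ l ∈ Finset.range p, x ^ l • (Q.coeff l - (1 : A[X]).coeff l) = 0 := by
    intro x
    have hone : ∑ l ∈ Finset.range p, x ^ l • (1 : A[X]).coeff l = 1 := by
      rw [Finset.sum_eq_single_of_mem 0 (Finset.mem_range.2 hp.out.pos)]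
      · simp
      · intro l _ hl
        rw [coeff_one, if_neg hl, smul_zero]
    simp only [smul_sub, Finset.sum_sub_distrib]
    rw [hone]
    by_cases hx : x = 0
    · rw [Finset.sum_eq_single_of_mem 0 (Finset.mem_range.2 hp.out.pos)]
      · rw [hQ0]; simp
      · intro l _ hl
        rw [hx, zero_pow hl, zero_smul]
    · have hxv : ¬ p ∣ x.val := by
        intro hd
        apply hx
        rw [← ZMod.natCast_zmod_val x]
        exact (ZMod.natCast_eq_zero_iff _ _).2 hd
      obtain ⟨k', hk1, hk2⟩ := exists_rep hm hxv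
      rw [ZMod.natCast_zmod_val] at hk2
      have h1 := heval k' (hn ▸ hk1)
      rw [hevalnat, hk2] at h1
      rw [h1, sub_self]
  have h1 := vander (fun l => Q.coeff l - (1 : A[X]).coeff l) hr 1 hp1
  simp only [coeff_one, one_ne_zero, if_false, sub_zero] at h1
  rw [hQ, hQ1, hn, sum_period (a 0) (Lam (p := p) a) hg hp.out.pos m] at h1
  have hmz : (m : ZMod p) ≠ 0 := by
    rw [Ne, ZMod.natCast_eq_zero_iff]; exact hm
  have h2 := congrArg (fun z => ((m : ZMod p)⁻¹) • z) h1
  simp only [smul_zero] at h2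
  have hmA : (m : A) = algebraMap (ZMod p) A (m : ZMod p) := by simp
  rw [hmA, ← Algebra.smul_def, smul_smul, inv_mul_cancel₀ hmz, one_smul] at h2
  exact h2

end Pool.Agent.Helper89.BI
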