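import Pool.Agent.Helper89.BI.LieLem

/-! # Module SIGDER -/

set_option autoImplicit false

namespace Pool.Agent.Helper89.BI

open Pool.Agent.Helper13.Spl

universe u v w

variable {X : Type u} {p : ℕ}

namespace SigDerAux

open DswTAux Polynomial

open Classical in
/-- divided powers of the derivation on words -/
noncomputable def dk (a b : X) : List X → ℕ → T X p
  | [], 0 => 1
  | [], (_ + 1) => 0
  | e :: v, 0 => vr e * dk a b v 0
  | e :: v, (k + 1) => vr e * dk a b v (k + 1) + (if e = a then vr b * dk a b v k else 0)

theorem dk_zero (a b : X) (v : List X) : (dk a b v 0 : T X p) = wd v := by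
  induction v with
  | nil => rw [dk, wd_nil]
  | cons e v ih => rw [dk, ih, vr_eq_wd, ← wd_append]; rfl

open Classical in
theorem dk_vanish (a b : X) (v : List X) : ∀ k, v.countP (fun e => e = a) < k →
    (dk a b v k : T X p) = 0 := by
  induction v with
  | nil =>
    intro k hk
    cases k with
    | zero => simp at hk
    | succ k => rw [dk]
  | cons e v ih =>
    intro k hk
    cases k with
    | zero => simp at hk
    | succ k =>
      rw [dk]
      by_cases h : e = a
      · have h1 : v.countP (fun e => e = a) < k := by
          rw [List.countP_cons_of_pos (by simpa using h)] at hk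
          omega
        rw [ih (k + 1) (by omega), if_pos h, ih k h1, mul_zero, mul_zero, add_zero]
      · have h1 : v.countP (fun e => e = a) < k + 1 := by
          rw [List.countP_cons_of_neg (by simpa using h)] at hk
          exact hk
        rw [ih (k + 1) h1, if_neg h, mul_zero, add_zero]

theorem der_dk [Fact p.Prime] {a b : X} (hab : a ≠ b) (v : List X) :
    ∀ k, der a b (dk a b v k : T X p) = ((k + 1 : ℕ) : ZMod p) • dk a b v (k + 1) := by
  classical
  have h1 : der a b (1 : T X p) = 0 := by
    have := der_mul a b (1 : T X p) 1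
    rw [mul_one, mul_one, one_mul] at this
    have h2 : der a b (1 : T X p) + der a b (1 : T X p) = der a b (1 : T X p) + 0 := by
      rw [add_zero]
      exact this.symm
    exact add_left_cancel h2
  induction v with
  | nil =>
    intro k
    cases k with
    | zero => rw [dk, dk, h1, smul_zero]
    | succ k => rw [dk, dk, map_zero, smul_zero]
  | cons e v ih =>
    have hb : der a b (vr b : T X p) = 0 := der_vr_ne b hab.symm
    intro k
    cases k with
    | zero =>
      rw [dk, dk, der_mul, ih 0]
      by_cases h : e = a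
      · subst h
        rw [der_vr_self, if_pos rfl, zero_add, Nat.cast_one, one_smul, one_smul, add_comm]
      · rw [der_vr_ne b h, if_neg h, zero_mul, zero_add, zero_add, Nat.cast_one, one_smul,
          one_smul, add_zero]
    | succ k =>
      rw [dk, dk, map_add, der_mul, ih (k + 1)]
      by_cases h : e = a
      · subst h
        rw [der_vr_self, if_pos rfl, if_pos rfl, der_mul, hb, ih k, zero_mul, zero_add,
          mul_smul_comm, mul_smul_comm, smul_add]
        have : ((k + 1 + 1 : ℕ) : ZMod p) • (vr b * dk e b v (k + 1) : T X p) =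
            (vr b * dk e b v (k + 1)) + ((k + 1 : ℕ) : ZMod p) • (vr b * dk e b v (k + 1)) := by
          rw [Nat.cast_add (k + 1) 1, Nat.cast_one, add_smul, one_smul, add_comm]
        rw [this]
        abel
      · rw [der_vr_ne b h, if_neg h, if_neg h, zero_mul, zero_add, map_zero, add_zero, add_zero,
          mul_smul_comm]

theorem sig_wd (a b : X) (lam : ZMod p) (v : List X) : ∀ n, v.length < n →
    sig a b lam (wd v : T X p) = ∑ k ∈ Finset.range n, (-lam) ^ k • dk a b v k := by
  classical
  induction v with
  | nil =>
    intro n hn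
    obtain ⟨n, rfl⟩ : ∃ m, n = m + 1 := ⟨n - 1, by omega⟩
    rw [Finset.sum_range_succ', wd_nil, map_one]
    have : ∀ k ∈ Finset.range n, (-lam) ^ (k + 1) • (dk a b ([] : List X) (k + 1) : T X p) = 0 := by
      intro k _
      rw [dk, smul_zero]
    rw [Finset.sum_eq_zero this, dk, pow_zero, one_smul, zero_add]
  | cons e v ih =>
    intro n hn
    obtain ⟨n, rfl⟩ : ∃ m, n = m + 1 := ⟨n - 1, by omega⟩
    have hv : v.length < n := by simpa using hn
    have e1 : sig a b lam (wd (e :: v) : T X p) = sig a b lam (vr e) * sig a b lam (wd v) := by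
      rw [← map_mul, vr_eq_wd, ← wd_append]
      rfl
    have e2 : sig a b lam (vr e : T X p) = if e = a then vr a - lam • vr b else vr e := by
      unfold sig
      rw [evT_vr]
    rw [e1, e2, Finset.sum_range_succ']
    have e3 : ∀ k, (-lam) ^ (k + 1) • (dk a b (e :: v) (k + 1) : T X p) =
        vr e * ((-lam) ^ (k + 1) • dk a b v (k + 1)) +
          (if e = a then (-lam) • (vr b * ((-lam) ^ k • dk a b v k)) else 0) := by
      intro k
      rw [dk]
      by_cases h : e = a
      · rw [if_pos h, if_pos h, smul_add, mul_smul_comm, mul_smul_comm, smul_smul, ← pow_succ']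
      · rw [if_neg h, if_neg h, add_zero, add_zero, mul_smul_comm]
    rw [Finset.sum_congr rfl (fun k _ => e3 k), Finset.sum_add_distrib, ← Finset.mul_sum]
    have e4 := ih (n + 1) (by omega)
    rw [Finset.sum_range_succ'] at e4
    have e5 : (dk a b (e :: v) 0 : T X p) = vr e * dk a b v 0 := by rw [dk]
    rw [e5, pow_zero, one_smul]
    rw [pow_zero, one_smul] at e4
    have e6 := ih n hv
    by_cases h : e = a
    · rw [if_pos h]
      simp only [if_pos h]
      rw [← Finset.smul_sum, ← Finset.mul_sum, ← e6, sub_mul]
      have : (vr a : T X p) * sig a b lam (wd v) = vr e * (∑ k ∈ Finset.range n,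
          (-lam) ^ (k + 1) • dk a b v (k + 1)) + vr e * dk a b v 0 := by
        rw [← mul_add, ← e4, h]
      rw [this, smul_mul_assoc, neg_smul]
      abel
    · rw [if_neg h]
      simp only [if_neg h]
      rw [Finset.sum_const_zero, add_zero, ← mul_add, ← e4]

/-- the coefficient as a linear map -/
noncomputable def cfL (w : List X) : T X p →ₗ[ZMod p] ZMod p where
  toFun t := cf t w
  map_add' s t := cf_add s t w
  map_smul' r t := cf_smul r t w

theorem cfL_apply (w : List X) (t : T X p) : cfL w t = cf t w := rfl

/-- divided powers -/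
noncomputable def Dk (a b : X) (k : ℕ) : T X p →ₗ[ZMod p] T X p := ext (fun w => dk a b w k)

theorem der_iterate [Fact p.Prime] {a b : X} (hab : a ≠ b) (l : T X p) (k : ℕ) :
    (der a b)^[k] l = ((k.factorial : ℕ) : ZMod p) • Dk a b k l := by
  induction k with
  | zero =>
    have : (Dk a b 0 : T X p →ₗ[ZMod p] T X p) = LinearMap.id := by
      apply T_hom_ext
      intro w
      rw [Dk, ext_wd, dk_zero]
      rfl
    rw [this]
    simp
  | succ k ih =>
    rw [Function.iterate_succ_apply', ih, map_smul]
    have : der a b (Dk a b k l) = ((k + 1 : ℕ) : ZMod p) • Dk a b (k + 1) l := by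
      rw [Dk, ← ext_comp]
      have h2 : ext (fun w => der a b (dk a b w k : T X p)) l =
          ext (fun w => (LinearMap.lsmul (ZMod p) (T X p) ((k + 1 : ℕ) : ZMod p))
            (dk a b w (k + 1))) l := by
        apply ext_congr_supp
        intro w _
        rw [der_dk hab, LinearMap.lsmul_apply]
      rw [h2, ext_comp, LinearMap.lsmul_apply]
      rfl
    rw [this, smul_smul, Nat.factorial_succ, ← Nat.cast_mul, Nat.mul_comm]

theorem Dk_vanish {c : ℕ} (hc : 2 ≤ c) (a b : X) {l : T X p} (hl : l ∈ Lie X p c) {k : ℕ}
    (hk : c ≤ k) : Dk a b k l = 0 := by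
  classical
  have h : ext (fun w => dk a b w k) l = ext (fun _ => (0 : T X p)) l := by
    apply ext_congr_supp
    intro w hw
    apply dk_vanish
    have h1 : w.length = c := by
      by_contra h1
      exact hw (mem_Hom.1 (Lie_le_Hom c hl) w h1)
    refine lt_of_lt_of_le ?_ hk
    by_contra h2
    rw [not_lt] at h2
    have h3 : w.countP (fun e => e = a) = w.length :=
      le_antisymm List.countP_le_length (by omega)
    rw [List.countP_eq_length] at h3
    have h4 : w = List.replicate c a := by
      rw [List.eq_replicate_iff]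
      exact ⟨h1, fun x hx => by simpa using h3 x hx⟩
    rw [h4] at hw
    exact hw (cf_replicate hc hl)
  rw [Dk, h]
  have h0 : (ext (fun _ : List X => (0 : T X p)) : T X p →ₗ[ZMod p] T X p) = 0 := by
    apply T_hom_ext
    intro w
    rw [ext_wd]
    rfl
  rw [h0]
  rfl

theorem sig_Lie {c : ℕ} (hc : 2 ≤ c) (a b : X) (lam : ZMod p) {l : T X p}
    (hl : l ∈ Lie X p c) :
    sig a b lam l = ∑ k ∈ Finset.range c, (-lam) ^ k • Dk a b k l := by
  have h1 : sig a b lam l = ext (fun w => sig a b lam (wd w : T X p)) l := by
    have : (sig a b lam : T X p →ₐ[ZMod p] T X p).toLinearMap =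
        ext (fun w => sig a b lam (wd w : T X p)) := by
      apply T_hom_ext
      intro w
      rw [ext_wd]
      rfl
    have h := congrArg (fun L => L l) this
    exact h
  have h2 : ext (fun w => sig a b lam (wd w : T X p)) l =
      ext (fun w => ∑ k ∈ Finset.range (c + 1), (-lam) ^ k • dk a b w k) l := by
    apply ext_congr_supp
    intro w hw
    have hw1 : w.length = c := by
      by_contra h1
      exact hw (mem_Hom.1 (Lie_le_Hom c hl) w h1)
    exact sig_wd a b lam w (c + 1) (by omega)
  have h3 : (ext (fun w => ∑ k ∈ Finset.range (c + 1), (-lam) ^ k • dk a b w k) :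
      T X p →ₗ[ZMod p] T X p) = ∑ k ∈ Finset.range (c + 1), (-lam) ^ k • Dk a b k := by
    apply T_hom_ext
    intro w
    rw [ext_wd, LinearMap.sum_apply]
    apply Finset.sum_congr rfl
    intro k _
    rw [LinearMap.smul_apply, Dk, ext_wd]
  rw [h1, h2, h3, LinearMap.sum_apply, Finset.sum_range_succ, LinearMap.smul_apply,
    Dk_vanish hc a b hl le_rfl, smul_zero, add_zero]
  rfl

theorem coeff_zero [Fact p.Prime] {c : ℕ} (hcp : c < p) (r : ℕ → ZMod p)
    (h : ∀ lam : ZMod p, lam ≠ 0 → ∑ k ∈ Finset.range c, (-lam) ^ k * r k = 0) :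
    ∀ k < c, r k = 0 := by
  set P : (ZMod p)[X] := ∑ k ∈ Finset.range c, Polynomial.C (r k) * Polynomial.X ^ k with hP
  have hcoef : ∀ k < c, P.coeff k = r k := by
    intro k hk
    rw [hP, Polynomial.finset_sum_coeff]
    simp only [Polynomial.coeff_C_mul, Polynomial.coeff_X_pow]
    rw [Finset.sum_eq_single k]
    · simp
    · intro j _ hj
      rw [if_neg hj.symm, mul_zero]
    · intro hk'
      exact absurd (Finset.mem_range.2 hk) hk'
  have hP0 : P = 0 := by
    rcases Nat.eq_zero_or_pos c with rfl | hc
    · simp [hP]
    · apply Polynomial.eq_zero_of_natDegree_lt_card_of_eval_eq_zero' P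
        ((Finset.univ : Finset (ZMod p)).erase 0)
      · intro x hx
        have hx0 : x ≠ 0 := (Finset.mem_erase.1 hx).1
        have := h (-x) (neg_ne_zero.2 hx0)
        rw [neg_neg] at this
        rw [hP, Polynomial.eval_finset_sum, ← this]
        apply Finset.sum_congr rfl
        intro k _
        rw [Polynomial.eval_mul, Polynomial.eval_C, Polynomial.eval_pow, Polynomial.eval_X,
          mul_comm]
      · rw [Finset.card_erase_of_mem (Finset.mem_univ _), Finset.card_univ, ZMod.card]
        have : P.natDegree ≤ c - 1 := by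
          apply Polynomial.natDegree_sum_le_of_forall_le
          intro k hk
          have := Finset.mem_range.1 hk
          exact (Polynomial.natDegree_C_mul_X_pow_le _ _).trans (by omega)
        omega
  intro k hk
  rw [← hcoef k hk, hP0, Polynomial.coeff_zero]

end SigDerAux

open SigDerAux in
/-- from substitutions to derivations -/
theorem sig_der [hp : Fact p.Prime] {c : ℕ} (hc : 2 ≤ c) (hcp : c < p) {a b : X} (hab : a ≠ b)
    {l : T X p} (hl : l ∈ Lie X p c)
    (h : ∀ lam : ZMod p, lam ≠ 0 → ∀ w, Mid a c w → cf (sig a b lam l) w = 0) :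
    ∀ k, ∀ w, Mid a c w → cf ((der a b)^[k] l) w = 0 := by
  intro k w hw
  rw [der_iterate hab, cf_smul]
  rcases lt_or_ge k c with hk | hk
  · have := coeff_zero hcp (fun k => cf (Dk a b k l) w) (fun lam hlam => by
      rw [← h lam hlam w hw, sig_Lie hc a b lam hl, ← cfL_apply, map_sum]
      apply Finset.sum_congr rfl
      intro j _
      rw [map_smul, cfL_apply, smul_eq_mul]) k hk
    rw [this, mul_zero]
  · rw [Dk_vanish hc a b hl hk, cf_zero, mul_zero]

end Pool.Agent.Helper89.BI
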