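import Pool.Agent.Helper89.BI.Defs

/-! # Module SPLPOW -/

set_option autoImplicit false

namespace Pool.Agent.Helper89.BI

open Pool.Agent.Helper13.Spl

universe u v w

/-- powers in the semidirect product with the automorphism group are norms -/
theorem sdp_pow {G : Type u} [Group G] (b : G) (φ : MulAut G) (n : ℕ) :
    (⟨b, φ⟩ : G ⋊[MonoidHom.id (MulAut G)] MulAut G) ^ n = ⟨nrm φ n b, φ ^ n⟩ := by
  induction n with
  | zero => rw [pow_zero, pow_zero, nrm_zero]; rfl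
  | succ n ih =>
    rw [pow_succ, ih, nrm_succ, pow_succ]
    rfl

/-- powers of splitting automorphisms with exponent coprime to `n` are splitting -/
theorem splits_pow {G : Type u} [Group G] {n : ℕ} (hexp : ∀ g : G, g ^ n = 1) {φ : MulAut G}
    (h : Splits n φ) {k : ℕ} (hk : k.Coprime n) : Splits n (φ ^ k) := by
  have hφk : (φ ^ k) ^ n = 1 := by rw [← pow_mul, mul_comm, pow_mul, h.pow_eq, one_pow]
  refine ⟨hφk, fun b => ?_⟩
  -- all elements `(b, φ)` have order dividing `n`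
  have h1 : ∀ b : G, (⟨b, φ⟩ : G ⋊[MonoidHom.id (MulAut G)] MulAut G) ^ n = 1 := by
    intro b
    rw [sdp_pow, h.norm_eq, h.pow_eq]
    rfl
  have h2 : (⟨b, φ ^ k⟩ : G ⋊[MonoidHom.id (MulAut G)] MulAut G) ^ n
      = ⟨nrm (φ ^ k) n b, 1⟩ := by
    rw [sdp_pow, hφk]
  have h3 : ((⟨b, φ ^ k⟩ : G ⋊[MonoidHom.id (MulAut G)] MulAut G) ^ n) ^ n = 1 := by
    rw [h2, sdp_pow]
    have h4 : nrm (1 : MulAut G) n (nrm (φ ^ k) n b) = (nrm (φ ^ k) n b) ^ n := by
      simp [nrm]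
    rw [h4, hexp, one_pow]
    rfl
  -- a power of `(b, φ ^ k)` has second component `φ`
  obtain ⟨k', hk'⟩ : ∃ k' : ℕ, k * k' ≡ 1 [MOD n] := by
    rcases Nat.lt_or_ge 1 n with hn | hn
    · obtain ⟨m, hm⟩ := Nat.exists_mul_mod_eq_one_of_coprime hk hn
      exact ⟨m, by rw [Nat.ModEq, hm.2, Nat.mod_eq_of_lt hn]⟩
    · interval_cases n
      · have : k = 1 := by simpa using hk
        exact ⟨1, by rw [this]⟩
      · exact ⟨1, Nat.modEq_one⟩
  have hcop : k'.Coprime n := by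
    have h5 : (k * k').Coprime n := by
      rw [Nat.Coprime, hk'.gcd_eq, Nat.gcd_one_left]
    exact Nat.Coprime.coprime_mul_left h5
  have hφkk : (φ ^ k) ^ k' = φ := by
    rw [← pow_mul]
    have h6 := pow_eq_pow_of_modEq hk' h.pow_eq
    rw [h6, pow_one]
  have h7 : ((⟨b, φ ^ k⟩ : G ⋊[MonoidHom.id (MulAut G)] MulAut G) ^ n) ^ k' = 1 := by
    rw [← pow_mul, mul_comm, pow_mul, sdp_pow b (φ ^ k) k', hφkk, h1]
  have h8 : (⟨b, φ ^ k⟩ : G ⋊[MonoidHom.id (MulAut G)] MulAut G) ^ n = 1 := by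
    have h9 := orderOf_dvd_of_pow_eq_one h3
    have h10 := orderOf_dvd_of_pow_eq_one h7
    have h11 := Nat.dvd_gcd h10 h9
    rw [hcop.gcd_eq_one, Nat.dvd_one, orderOf_eq_one_iff] at h11
    exact h11
  rw [h2] at h8
  exact congrArg SemidirectProduct.left h8

end Pool.Agent.Helper89.BI
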