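import Pool.Agent.Helper89.BI.TestThm
import Pool.Agent.Helper89.BI.FunLead
import Pool.Agent.Helper89.BI.SigDer

/-!
# One step of the induction
-/

set_option autoImplicit false

namespace Pool.Agent.Helper89.BI

open Pool.Agent.Helper13.Spl

universe u v w

variable {X : Type u} {p : ℕ}

theorem IsLead.pow {c : ℕ} (hc : 1 ≤ c) {b : Burn X p} {t : T X p} (h : IsLead c b t) (k : ℕ) :
    IsLead c (b ^ k) ((k : ZMod p) • t) := by
  induction k with
  | zero =>
    rw [pow_zero, Nat.cast_zero, zero_smul]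
    exact IsLead.of_succ (Subgroup.one_mem _)
  | succ k ih =>
    rw [pow_succ, Nat.cast_succ, add_smul, one_smul]
    exact ih.mul hc h

/-- every Lie polynomial is a leading term -/
theorem lead_surj [hp : Fact p.Prime] {c : ℕ} (hc : 1 ≤ c) {t : T X p} (ht : t ∈ Lie X p c) :
    ∃ u, IsLead c u t := by
  refine Submodule.span_induction (p := fun t _ => ∃ u, IsLead c u t) ?_ ?_ ?_ ?_ ht
  · rintro _ ⟨w, hw, rfl⟩
    have hw' : w.length = c := hw
    subst hw'
    exact ⟨Cc w, isLead_Cc (by rintro rfl; simp at hc)⟩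
  · exact ⟨1, IsLead.of_succ (Subgroup.one_mem _)⟩
  · rintro x y - - ⟨u, hu⟩ ⟨v, hv⟩
    exact ⟨u * v, hu.mul hc hv⟩
  · rintro r x - ⟨u, hu⟩
    refine ⟨u ^ r.val, ?_⟩
    have h1 := hu.pow hc r.val
    rwa [ZMod.natCast_zmod_val] at h1

/-- `δ(g) = g⁻¹ φ(g)` -/
def del {G : Type u} [Group G] (φ : MulAut G) (g : G) : G := g⁻¹ * φ g

theorem del_mem {G : Type u} [Group G] {φ : MulAut G} {c : ℕ}
    (hφ : ∀ b, φ b * b⁻¹ ∈ gam G c) (g : G) : del φ g ∈ gam G c := by
  have h1 := (gam_normal c).conj_mem _ (hφ g) g⁻¹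
  have h2 : g⁻¹ * (φ g * g⁻¹) * g⁻¹⁻¹ = del φ g := by
    unfold del
    group
  rwa [h2] at h1

theorem mem_of_del {G : Type u} [Group G] {φ : MulAut G} {c : ℕ}
    (hφ : ∀ b, del φ b ∈ gam G c) (g : G) : φ g * g⁻¹ ∈ gam G c := by
  have h1 := (gam_normal c).conj_mem _ (hφ g) g
  have h2 : g * del φ g * g⁻¹ = φ g * g⁻¹ := by
    unfold del
    group
  rwa [h2] at h1

theorem lead_del_mul {φ : MulAut (Burn X p)} {c : ℕ} (hc : 1 ≤ c) {g h : Burn X p}
    {s t : T X p} (hs : IsLead c (del φ g) s) (ht : IsLead c (del φ h) t) :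
    IsLead c (del φ (g * h)) (s + t) := by
  have h1 : del φ (g * h) = com h⁻¹ (del φ g) * (del φ g * del φ h) := by
    simp only [del, com_def, map_mul]
    group
  have h2 : com h⁻¹ (del φ g) ∈ gam (Burn X p) (c + 1) := by
    rw [← com_inv]
    exact Subgroup.inv_mem _ (gam_com_one hc hs.mem _)
  rw [h1]
  have h3 := (IsLead.of_succ h2).mul hc (hs.mul hc ht)
  rwa [zero_add] at h3

theorem lead_del_pow {φ : MulAut (Burn X p)} {c : ℕ} (hc : 1 ≤ c) {g : Burn X p}
    {s : T X p} (hs : IsLead c (del φ g) s) (k : ℕ) :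
    IsLead c (del φ (g ^ k)) ((k : ZMod p) • s) := by
  induction k with
  | zero =>
    rw [pow_zero, Nat.cast_zero, zero_smul]
    have h1 : del φ (1 : Burn X p) = 1 := by simp [del]
    rw [h1]
    exact IsLead.of_succ (Subgroup.one_mem _)
  | succ k ih =>
    rw [pow_succ, Nat.cast_succ, add_smul, one_smul]
    exact lead_del_mul hc ih hs

/-- effect of a twist by an inner automorphism -/
theorem lead_twist {φ : MulAut (Burn X p)} {c : ℕ} (hc : 2 ≤ c) {u x : Burn X p}
    {r s t : T X p} (hu : IsLead (c - 1) u r) (hx : IsLead 1 x s) (ht : IsLead c (del φ x) t) :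
    IsLead c (del (MulAut.conj u * φ) x) (t + (r * s - s * r)) := by
  have h1 : del (MulAut.conj u * φ) x = (com u x⁻¹)⁻¹ * (com u (del φ x) * del φ x) := by
    simp only [del, com_def, MulAut.mul_apply, MulAut.conj_apply]
    group
  have h2 : com u (del φ x) ∈ gam (Burn X p) (c + 1) := by
    rw [← com_inv]
    exact Subgroup.inv_mem _ (gam_com_one (by omega) ht.mem _)
  have h3 := hu.com (by omega) (hx.inv le_rfl)
  rw [show c - 1 + 1 = c by omega] at h3
  have h4 := (h3.inv (by omega)).mul (by omega) ((IsLead.of_succ h2).mul (by omega) ht)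
  rw [h1]
  convert h4 using 1
  rw [mul_neg, neg_mul]
  abel

theorem twist_mem {φ : MulAut (Burn X p)} {c : ℕ} (hc : 2 ≤ c) {u : Burn X p}
    (hu : u ∈ gam (Burn X p) (c - 1)) (hφ : ∀ b, φ b * b⁻¹ ∈ gam (Burn X p) c) (b : Burn X p) :
    (MulAut.conj u * φ) b * b⁻¹ ∈ gam (Burn X p) c := by
  have h1 : (MulAut.conj u * φ) b * b⁻¹ = (u * (φ b * b⁻¹) * u⁻¹) * com u b := by
    simp only [com_def, MulAut.mul_apply, MulAut.conj_apply]
    group
  rw [h1]
  refine Subgroup.mul_mem _ ((gam_normal c).conj_mem _ (hφ b) u) ?_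
  have h2 := gam_com_one (by omega) hu b
  rwa [show c - 1 + 1 = c by omega] at h2

/-- triviality on the letters suffices -/
theorem del_of_letters {φ : MulAut (Burn X p)} {c : ℕ}
    (h : ∀ e : X, del φ (lt e : Burn X p) ∈ gam (Burn X p) c) (b : Burn X p) :
    del φ b ∈ gam (Burn X p) c := by
  have h0 : b ∈ Subgroup.closure (Set.range (lt : X → Burn X p)) := by
    rw [closure_lt]
    trivial
  refine Subgroup.closure_induction (p := fun b _ => del φ b ∈ gam (Burn X p) c) ?_ ?_ ?_ ?_ h0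
  · rintro _ ⟨e, rfl⟩
    exact h e
  · simp [del]
  · intro x y _ _ hx hy
    have h1 : del φ (x * y) = (y⁻¹ * del φ x * y⁻¹⁻¹) * del φ y := by
      simp only [del, map_mul]
      group
    rw [h1]
    exact Subgroup.mul_mem _ ((gam_normal c).conj_mem _ hx _) hy
  · intro x _ hx
    have h1 : del φ x⁻¹ = x * (del φ x)⁻¹ * x⁻¹ := by
      simp only [del, map_inv]
      group
    rw [h1]
    exact (gam_normal c).conj_mem _ (Subgroup.inv_mem _ hx) _

variable [hp : Fact p.Prime]


theorem sig_zero (a b : X) (t : T X p) : sig a b 0 t = t := by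
  have h1 : sig a b 0 = AlgHom.id (ZMod p) (T X p) := by
    apply MonoidAlgebra.algHom_ext'
    swap
    · exact Subsingleton.elim _ _
    apply FreeMonoid.hom_eq
    intro e
    have h2 : ∀ e : X, (MonoidAlgebra.of (ZMod p) (FreeMonoid X)) (FreeMonoid.of e) = vr e :=
      fun e => rfl
    simp only [MonoidHom.coe_comp, Function.comp_apply, MonoidHom.coe_coe, h2, AlgHom.coe_id, id]
    unfold sig
    rw [evT_vr]
    split_ifs with he
    · rw [zero_smul, sub_zero, he]
    · rfl
  rw [h1]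
  rfl

/-- first normalization: one letter can be fixed modulo `gam (c+1)` -/
theorem fix_letter {n m : ℕ} (hn : n = p * m) (hm : ¬ p ∣ m) {φ : MulAut (Burn X p)}
    (hφ : Splits n φ) {c : ℕ} (hc : 2 ≤ c) (hcp : c < p)
    (hφc : ∀ b, φ b * b⁻¹ ∈ gam (Burn X p) c) {a b : X} (hab : a ≠ b) :
    ∃ u ∈ gam (Burn X p) (c - 1),
      IsLead c (del (MulAut.conj u * φ) (lt a : Burn X p)) 0 := by
  obtain ⟨t, ht⟩ := exists_lead (by omega) (del_mem hφc (lt a : Burn X p))
  have h1 : IsLead c ((lt a * lt b ^ 0 : Burn X p)⁻¹ * φ (lt a * lt b ^ 0)) t := by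
    rw [pow_zero, mul_one]
    exact ht
  have h2 := test_thm hn hm hφ hc hcp hφc hab 0 h1
  have h3 : sig a b ((0 : ℕ) : ZMod p) t = t := by
    rw [Nat.cast_zero]
    exact sig_zero a b t
  rw [h3] at h2
  obtain ⟨r, hr, hr2⟩ := exists_bracket hc hcp ht.lie h2
  obtain ⟨u, hu⟩ := lead_surj (by omega) (Submodule.neg_mem _ hr)
  refine ⟨u, hu.mem, ?_⟩
  have h4 := lead_twist hc hu (isLead_lt a) ht
  have h5 : t + (-r * vr a - vr a * -r) = 0 := by
    rw [hr2]
    noncomm_ring
  rwa [h5] at h4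

/-- the leading term at the product of two letters -/
theorem lead_del_prod {φ : MulAut (Burn X p)} {c : ℕ} (hc : 1 ≤ c) {a e : X} {s t : T X p}
    (ha : IsLead c (del φ (lt a : Burn X p)) s) (he : IsLead c (del φ (lt e : Burn X p)) t)
    (lam : ℕ) :
    IsLead c ((lt a * lt e ^ lam : Burn X p)⁻¹ * φ (lt a * lt e ^ lam)) (s + (lam : ZMod p) • t) :=
  lead_del_mul hc ha (lead_del_pow hc he lam)

/-- second normalization, `c ≥ 3`: all the letters are then fixed -/
theorem other_letters {n m : ℕ} (hn : n = p * m) (hm : ¬ p ∣ m) {φ : MulAut (Burn X p)}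
    (hφ : Splits n φ) {c : ℕ} (hc : 3 ≤ c) (hcp : c < p)
    (hφc : ∀ b, φ b * b⁻¹ ∈ gam (Burn X p) c) {a e : X} (hae : a ≠ e)
    (ha : IsLead c (del φ (lt a : Burn X p)) 0) :
    IsLead c (del φ (lt e : Burn X p)) 0 := by
  obtain ⟨t, ht⟩ := exists_lead (by omega) (del_mem hφc (lt e : Burn X p))
  have h1 : t = 0 := by
    refine lieLem hc hcp hae ht.lie (sig_der (by omega) hcp hae ht.lie ?_)
    intro lam hlam w hw
    have h2 := test_thm hn hm hφ (by omega) hcp hφc hae lam.val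
      (lead_del_prod (by omega) ha ht lam.val) w hw
    rw [ZMod.natCast_zmod_val, zero_add, map_smul, cf_smul] at h2
    exact (mul_eq_zero.1 h2).resolve_left hlam
  rwa [h1] at ht

/-- second normalization, `c = 2` -/
theorem other_letters_two {n m : ℕ} (hn : n = p * m) (hm : ¬ p ∣ m) (hp3 : 3 ≤ p)
    {φ : MulAut (Burn X p)}
    (hφ : Splits n φ) (hφc : ∀ b, φ b * b⁻¹ ∈ gam (Burn X p) 2) {a e : X} (hae : a ≠ e)
    (ha : IsLead 2 (del φ (lt a : Burn X p)) 0) :
    ∃ κ : ZMod p,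
      IsLead 2 (del φ (lt e : Burn X p)) (κ • (vr e * vr a - vr a * vr e)) := by
  obtain ⟨t, ht⟩ := exists_lead (by omega) (del_mem hφc (lt e : Burn X p))
  have h1 : ∃ κ : ZMod p, t = κ • (vr e * vr a - vr a * vr e) := by
    refine lieLem_two hp3 hae ht.lie (sig_der (by omega) (by omega) hae ht.lie ?_)
    intro lam hlam w hw
    have h2 := test_thm hn hm hφ (by omega) (by omega) hφc hae lam.val
      (lead_del_prod (by omega) ha ht lam.val) w hw
    rw [ZMod.natCast_zmod_val, zero_add, map_smul, cf_smul] at h2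
    exact (mul_eq_zero.1 h2).resolve_left hlam
  obtain ⟨κ, hκ⟩ := h1
  exact ⟨κ, hκ ▸ ht⟩

theorem cf_vr_vr [DecidableEq X] (x y z w : X) :
    cf (vr x * vr y : T X p) [z, w] = if x = z ∧ y = w then 1 else 0 := by
  rw [vr_eq_wd, vr_eq_wd, ← wd_append, cf_wd]
  simp

/-- pair test, `c = 2` -/
theorem pair_test {n m : ℕ} (hn : n = p * m) (hm : ¬ p ∣ m) (hp3 : 3 ≤ p)
    {φ : MulAut (Burn X p)}
    (hφ : Splits n φ) (hφc : ∀ b, φ b * b⁻¹ ∈ gam (Burn X p) 2) {a e e' : X} (hae : a ≠ e)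
    (hae' : a ≠ e') {κ κ' : ZMod p}
    (h : IsLead 2 (del φ (lt e : Burn X p)) (κ • (vr e * vr a - vr a * vr e)))
    (h' : IsLead 2 (del φ (lt e' : Burn X p)) (κ' • (vr e' * vr a - vr a * vr e'))) :
    κ = κ' := by
  classical
  have hp1 : ((1 : ℕ) : ZMod p) = 1 := Nat.cast_one
  by_cases hee : e = e'
  · subst hee
    have h1 := h.uniq (by omega) (by omega) h'
    have h2 := congrArg (fun t => cf t [e, a]) h1
    simpa [cf_vr_vr, hae, hae.symm] using h2
  · have h1 := test_thm hn hm hφ le_rfl (by omega) hφc hee 1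
      (lead_del_prod (by omega) h h' 1) [e', a] ⟨rfl, by simpa using Ne.symm hee,
        by simpa using hae⟩
    have s1 : sig e e' ((1 : ℕ) : ZMod p) (vr e : T X p) = vr e - vr e' := by
      unfold sig
      rw [evT_vr, if_pos rfl, hp1, one_smul]
    have s2 : sig e e' ((1 : ℕ) : ZMod p) (vr e' : T X p) = vr e' := by
      unfold sig
      rw [evT_vr, if_neg (Ne.symm hee)]
    have s3 : sig e e' ((1 : ℕ) : ZMod p) (vr a : T X p) = vr a := by
      unfold sig
      rw [evT_vr, if_neg hae]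
    rw [map_add, map_smul, map_smul, map_smul, map_sub, map_sub, map_mul, map_mul, map_mul,
      map_mul, s1, s2, s3, hp1, one_smul, sub_mul, mul_sub] at h1
    simp only [cf_add, cf_smul, cf_sub, cf_vr_vr, hae', hee, hae'.symm,
      hae.symm, and_true, and_false, if_true, if_false] at h1
    linear_combination -h1

/-- One step of the induction. -/
theorem step [Nontrivial X] {n m : ℕ} (hn : n = p * m) (hm : ¬ p ∣ m) (hp3 : 3 ≤ p)
    {φ : MulAut (Burn X p)} (hφ : Splits n φ) {c : ℕ} (hc : 2 ≤ c) (hcp : c < p)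
    (hφc : ∀ b, φ b * b⁻¹ ∈ gam (Burn X p) c) :
    ∃ u : Burn X p, ∀ b, (MulAut.conj u * φ) b * b⁻¹ ∈ gam (Burn X p) (c + 1) := by
  obtain ⟨a, b, hab⟩ := exists_pair_ne X
  obtain ⟨u, hu, hu2⟩ := fix_letter hn hm hφ hc hcp hφc hab
  have hφ' := hφ.conj u
  have hφc' := twist_mem hc hu hφc
  set φ' := MulAut.conj u * φ with hφ'def
  by_cases hc2 : c = 2
  · subst hc2
    obtain ⟨κ, hκ⟩ := other_letters_two hn hm hp3 hφ' hφc' hab hu2
    have hv : IsLead (2 - 1) ((lt a : Burn X p) ^ κ.val) (κ • vr a) := by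
      have h1 := (isLead_lt (p := p) a).pow le_rfl κ.val
      rwa [ZMod.natCast_zmod_val] at h1
    refine ⟨(lt a : Burn X p) ^ κ.val * u, ?_⟩
    have h1 : MulAut.conj ((lt a : Burn X p) ^ κ.val * u) * φ =
        MulAut.conj ((lt a : Burn X p) ^ κ.val) * φ' := by
      rw [hφ'def, map_mul, mul_assoc]
    rw [h1]
    refine fun x => mem_of_del (del_of_letters fun e => ?_) x
    by_cases he : a = e
    · subst he
      have h2 := lead_twist le_rfl hv (isLead_lt a) hu2
      have h3 : (0 : T X p) + (κ • vr a * vr a - vr a * κ • vr a) = 0 := by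
        rw [smul_mul_assoc, mul_smul_comm, sub_self, add_zero]
      rw [h3] at h2
      exact h2.gam_of_zero le_rfl hcp a
    · obtain ⟨κ', hκ'⟩ := other_letters_two hn hm hp3 hφ' hφc' he hu2
      have h4 := pair_test hn hm hp3 hφ' hφc' hab he hκ hκ'
      subst h4
      have h2 := lead_twist le_rfl hv (isLead_lt e) hκ'
      have h3 : κ • (vr e * vr a - vr a * vr e) + (κ • vr a * vr e - vr e * κ • vr a) =
          (0 : T X p) := by
        rw [smul_mul_assoc, mul_smul_comm, ← smul_sub, ← smul_add]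
        simp
      rw [h3] at h2
      exact h2.gam_of_zero le_rfl hcp a
  · refine ⟨u, fun x => mem_of_del (del_of_letters fun e => ?_) x⟩
    by_cases he : a = e
    · subst he
      exact hu2.gam_of_zero (by omega) hcp a
    · exact (other_letters hn hm hφ' (by omega) hcp hφc' he hu2).gam_of_zero (by omega) hcp a

end Pool.Agent.Helper89.BI
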