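import Pool.Agent.Helper89.BI.Newton
import Pool.Agent.Helper89.BI.Poly
import Pool.Agent.Helper89.BI.SplPow
import Pool.Agent.Helper89.BI.Lead
import Pool.Agent.Helper89.BI.Nodes
import Pool.Agent.Helper89.BI.MatRep
import Pool.Agent.Helper89.BI.Entry
import Pool.Agent.Helper89.BI.LieLem
import Pool.Agent.Helper13.Spl.StepD

/-!
# The test theorem
-/

set_option autoImplicit false

namespace Pool.Agent.Helper89.BI

open Pool.Agent.Helper13.Spl

universe u v w

/-- reversed weighted geometric sum in characteristic `p` -/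
theorem weighted_sum_rev {R : Type u} [CommRing R] (p : ℕ) [hp : Fact p.Prime] [CharP R p]
    (y : R) :
    ∑ i ∈ Finset.range p, (i : R) * y ^ (p - 1 - i) = (y - 1) ^ (p - 2) := by
  have hp1 := hp.out.one_le
  have hp2 := hp.out.two_le
  rw [← Finset.sum_range_reflect]
  have h1 : ∀ j ∈ Finset.range p, ((p - 1 - j : ℕ) : R) * y ^ (p - 1 - (p - 1 - j)) =
      -((j : R) * y ^ j) - y ^ j := by
    intro j hj
    have hj' := Finset.mem_range.1 hj
    have h2 : p - 1 - (p - 1 - j) = j := by omega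
    have h3 : ((p - 1 - j : ℕ) : R) = - (j : R) - 1 := by
      have h4 : ((p - 1 - j + j + 1 : ℕ) : R) = 0 := by
        rw [show p - 1 - j + j + 1 = p by omega]
        exact CharP.cast_eq_zero R p
      push_cast at h4
      linear_combination h4
    rw [h2, h3]
    ring
  rw [Finset.sum_congr rfl h1, Finset.sum_sub_distrib, Finset.sum_neg_distrib,
    weighted_sum_char, geom_sum_char]
  have h5 : (y - 1) ^ (p - 1) = (y - 1) ^ (p - 2) * (y - 1) := by
    rw [← pow_succ]
    congr 1
    omega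
  rw [h5]
  ring

theorem evT_sig {X : Type u} {p : ℕ} {A : Type w} [Ring A] [Algebra (ZMod p) A] (y z : X → A)
    {a b : X} (hab : a ≠ b) (lam : ZMod p) (ha : z a = y a - lam • y b)
    (hz : ∀ e, e ≠ a → z e = y e) (t : T X p) : evT z t = evT y (sig a b lam t) := by
  have h1 : (evT z : T X p →ₐ[ZMod p] A) = (evT y).comp (sig a b lam) := by
    apply MonoidAlgebra.algHom_ext'
    swap
    · exact Subsingleton.elim _ _
    apply FreeMonoid.hom_eq
    intro e
    have h2 : ∀ e : X, (MonoidAlgebra.of (ZMod p) (FreeMonoid X)) (FreeMonoid.of e) = vr e :=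
      fun e => rfl
    simp only [MonoidHom.coe_comp, Function.comp_apply, MonoidHom.coe_coe, h2, AlgHom.coe_comp]
    rw [evT_vr]
    unfold sig
    rw [evT_vr]
    by_cases he : e = a
    · subst he
      rw [if_pos rfl, map_sub, map_smul, evT_vr, evT_vr, ha]
    · rw [if_neg he, evT_vr, hz e he]
  rw [h1]
  rfl

/-- the corner entry of the trick -/
theorem corner {p : ℕ} [hp : Fact p.Prime] {R : Type v} [CommRing R] [Algebra (ZMod p) R]
    {s : ℕ} {x : Fin (s + 1) → R} (hx0 : x 0 = 0)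
    (L : Matrix (Fin (s + 1)) (Fin (s + 1)) R)
    (h : ∑ i ∈ Finset.range p, ((i : ℕ) : Matrix (Fin (s + 1)) (Fin (s + 1)) R) *
      ((1 + Matrix.diagonal x) ^ i * L * (1 + Matrix.diagonal x) ^ (p - 1 - i)) = 0) :
    x (Fin.last s) ^ (p - 2) * L 0 (Fin.last s) = 0 := by
  rcases subsingleton_or_nontrivial R with hR | hR
  · exact Subsingleton.elim _ _
  have hchar : CharP R p := charP_of_injective_algebraMap (algebraMap (ZMod p) R).injective p
  have h0 : (1 : Matrix (Fin (s + 1)) (Fin (s + 1)) R) + Matrix.diagonal x =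
      Matrix.diagonal (fun i => 1 + x i) := by
    rw [← Matrix.diagonal_one, Matrix.diagonal_add]
  rw [h0] at h
  have h1 := congrFun (congrFun h 0) (Fin.last s)
  rw [Matrix.sum_apply] at h1
  have h2 : ∀ i ∈ Finset.range p, (((i : ℕ) : Matrix (Fin (s + 1)) (Fin (s + 1)) R) *
      (Matrix.diagonal (fun i => 1 + x i) ^ i * L *
        Matrix.diagonal (fun i => 1 + x i) ^ (p - 1 - i))) 0 (Fin.last s) =
      ((i : R) * (1 + x (Fin.last s)) ^ (p - 1 - i)) * L 0 (Fin.last s) := by
    intro i _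
    rw [Matrix.diagonal_pow, Matrix.diagonal_pow, ← nsmul_eq_mul, Matrix.smul_apply,
      Matrix.mul_diagonal, Matrix.diagonal_mul]
    simp only [Pi.pow_apply, hx0, add_zero, one_pow, nsmul_eq_mul]
    ring
  rw [Finset.sum_congr rfl h2, ← Finset.sum_mul, weighted_sum_rev, add_sub_cancel_left] at h1
  simpa using h1

/-- the Newton family of a splitting automorphism has trivial products -/
theorem splits_prod {G : Type u} [Group G] {p : ℕ} {n : ℕ} (hexp : ∀ g : G, g ^ n = 1)
    {φ : MulAut G} (hφ : Splits n φ) {A : Type w} [Ring A] [Algebra (ZMod p) A] (ψ : G →* A)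
    (h : G) {a : ℕ → A}
    (ha : ∀ i, ψ ((φ ^ i) h) = ∑ j ∈ Finset.range p, ((i.choose j : ℕ) : A) * a j) :
    ∀ k, k.Coprime n → ((List.range n).map fun i =>
      ∑ j ∈ Finset.range p, (((i * k).choose j : ℕ) : A) * a j).prod = 1 := by
  intro k hk
  have h1 := (splits_pow hexp hφ hk).norm_eq h
  have h2 := congrArg ψ h1
  rw [nrm, map_list_prod, List.map_map, map_one] at h2
  rw [← h2]
  congr 1
  apply List.map_congr_left
  intro i _
  rw [← ha, Function.comp_apply, ← pow_mul, mul_comm]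

/-- `Lam a - (a 1)` is deep -/
theorem Lam_sub {p : ℕ} [hp : Fact p.Prime] {A : Type w} [Ring A] [Algebra (ZMod p) A]
    {F : ℕ → Submodule (ZMod p) A} (hF : IsFilt F) {c : ℕ} (hc : 2 ≤ c) {a : ℕ → A}
    (ha : ∀ j, 1 ≤ j → a j ∈ F (1 + j * (c - 1))) :
    Lam (p := p) a - a 1 ∈ F (c + 1) := by
  have hp2 := hp.out.two_le
  have h1 : Finset.Ico 1 p = insert 1 (Finset.Ico 2 p) := by
    ext i
    simp only [Finset.mem_Ico, Finset.mem_insert]
    omega
  rw [Lam, h1, Finset.sum_insert (by simp)]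
  have h2 : (((-1) ^ (1 - 1) * ((1 : ℕ) : ZMod p)⁻¹ : ZMod p)) • a 1 = a 1 := by simp
  rw [h2, add_sub_cancel_left]
  refine Submodule.sum_mem _ fun j hj => Submodule.smul_mem _ _ ?_
  have hj2 := (Finset.mem_Ico.1 hj).1
  refine hF.anti ?_ (ha j (by omega))
  obtain ⟨d, rfl⟩ : ∃ d, c = d + 2 := ⟨c - 2, by omega⟩
  obtain ⟨i, rfl⟩ : ∃ i, j = i + 2 := ⟨j - 2, by omega⟩
  simp only [show d + 2 - 1 = d + 1 by omega]
  nlinarith [Nat.zero_le (i * (d + 1))]

theorem sig_mem_Hom {X : Type u} {p : ℕ} (a b : X) (lam : ZMod p) {c : ℕ} {t : T X p}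
    (ht : t ∈ Hom X p c) : sig a b lam t ∈ Hom X p c := by
  classical
  have key : ∀ w : List X, sig a b lam (wd w : T X p) ∈ Hom X p w.length := by
    intro w
    unfold sig
    rw [evT_wd]
    induction w with
    | nil =>
      rw [List.map_nil, List.prod_nil, ← wd_nil]
      exact Submodule.subset_span ⟨[], rfl, rfl⟩
    | cons e w ih =>
      rw [List.map_cons, List.prod_cons, List.length_cons, Nat.add_comm]
      refine Hom_mul ?_ ih
      by_cases he : e = a
      · rw [if_pos he]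
        exact Submodule.sub_mem _ (vr_mem_Hom a) (Submodule.smul_mem _ _ (vr_mem_Hom b))
      · rw [if_neg he]
        exact vr_mem_Hom e
  refine Submodule.span_induction (p := fun t _ => sig a b lam t ∈ Hom X p c) ?_ ?_ ?_ ?_ ht
  · rintro _ ⟨w, hw, rfl⟩
    have hw' : w.length = c := hw
    rw [← hw']
    exact key w
  · rw [map_zero]
    exact Submodule.zero_mem _
  · intro x y _ _ hx hy
    rw [map_add]
    exact Submodule.add_mem _ hx hy
  · intro r x _ hx
    rw [map_smul]
    exact Submodule.smul_mem _ _ hx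

theorem two_le_filter {X : Type u} [DecidableEq X] {a : X} {w : List X} (hw : 2 ≤ w.length)
    (h1 : w.head? ≠ some a) (h2 : w.getLast? ≠ some a) :
    2 ≤ (w.filter (fun e => e ≠ a)).length := by
  rcases w with _ | ⟨e, w⟩
  · simp at hw
  · rcases List.eq_nil_or_concat w with rfl | ⟨v, e', rfl⟩
    · simp at hw
    · rw [List.concat_eq_append] at hw h1 h2 ⊢
      have he : e ≠ a := by
        intro h
        apply h1
        rw [h]
        rfl
      have he' : e' ≠ a := by
        intro h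
        apply h2
        rw [h, ← List.cons_append, List.getLast?_append]
        simp
      simp only [ne_eq, List.filter_cons, List.filter_append, he, he', not_false_eq_true,
        decide_true, if_true, List.filter_nil, List.length_cons, List.length_append,
        List.length_nil]
      omega

open Classical in
/-- The test theorem for one pattern. -/
theorem test_pat {X : Type u} {p : ℕ} [hp : Fact p.Prime] {n m : ℕ} (hn : n = p * m)
    (hm : ¬ p ∣ m) {φ : MulAut (Burn X p)} (hφ : Splits n φ) {c : ℕ} (hc : 2 ≤ c) (hcp : c < p)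
    (hφc : ∀ b, φ b * b⁻¹ ∈ gam (Burn X p) c) {a b : X} (hab : a ≠ b) (lam : ℕ) {t : T X p}
    (ht : IsLead c ((lt a * lt b ^ lam)⁻¹ * φ (lt a * lt b ^ lam)) t) {s : ℕ} (hs2 : 2 ≤ s)
    (hsc : s ≤ c) {pat : Fin s → X} (hpat : ∀ i, pat i ≠ a) :
    ∀ w : List X, w.length = c → w.filter (fun e => e ≠ a) = List.ofFn pat →
        w.head? ≠ some a → w.getLast? ≠ some a → cf (sig a b (lam : ZMod p) t) w = 0 := by
  obtain ⟨R, i1, i2, x, hx0, hxq, hxp, hxI, hxf⟩ := exists_nodes p hs2 hsc hcp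
  have hxm : ∀ i, x i ∈ Ideal.span (Set.range x) := fun i => Ideal.subset_span ⟨i, rfl⟩
  obtain ⟨ψ, hψ1, hψh, hψe, hψa⟩ := mat_rep (p := p) (by omega) hxq hxm hab lam pat
  set I := Ideal.span (Set.range x) with hI
  set F := fun d => (mF p I d : Submodule (ZMod p) (Matrix (Fin (s + 1)) (Fin (s + 1)) R)) with hF'
  have hF : IsFilt F := isFilt_mF I
  have hN : F (c + p - 1) = ⊥ := mF_eq_bot (by rw [show c + p - 1 - s = c + p - 1 - s from rfl, hxI])
  set h := (lt a * lt b ^ lam : Burn X p) with hh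
  obtain ⟨A, hA0, hA1, hA2, hA3⟩ := newton hc hφc hF hN ψ hψ1 h
  have hexp : ∀ g : Burn X p, g ^ n = 1 := by
    intro g
    rw [hn, pow_mul, Burn.pow_eq_one, one_pow]
  have hgp : A 0 ^ p = 1 := by rw [hA0, ← map_pow, Burn.pow_eq_one, map_one]
  have hψ0 : ∀ g, ψ g ∈ F 0 := by
    intro g
    have h1 := (F 0).add_mem (hF.anti (Nat.zero_le 1) (hψ1 g)) hF.one
    rwa [sub_add_cancel] at h1
  have hpoly := polytrick hF hc hN hn hm A (hA0 ▸ hψ0 h) hA2 hgp (splits_prod hexp hφ ψ h hA3)
  rw [hA0, hψh] at hpoly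
  have hcor := corner hx0 (Lam (p := p) A) hpoly
  -- the leading term of `Lam A`
  have e1 : Lam (p := p) A - A 1 ∈ F (c + 1) := Lam_sub hF hc hA2
  have e2 : A 1 - (ψ (h⁻¹ * φ h) - 1) ∈ F (c + 1) := by
    have h1 : A 1 - (ψ (h⁻¹ * φ h) - 1) = (ψ h - 1) * (ψ (h⁻¹ * φ h) - 1) := by
      rw [hA1, sub_mul, mul_sub, ← map_mul]
      simp only [mul_inv_cancel_left, mul_one, one_mul]
    rw [h1]
    exact hF.anti (by omega) (hF.mul 1 c _ (hψ1 h) _
      (hF.gam ψ hψ1 (by omega) ht.mem))
  have e3 := ht.lead _ F hF ψ hψ1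
  have e4 : evT (fun e => ψ (lt e) - 1) t - evT (yz x a pat) (sig a b (lam : ZMod p) t) ∈
      F (c + 1) := by
    rw [← evT_sig (yz x a pat) (fun e => if e = a then Matrix.diagonal x - (lam : ZMod p) •
      Ym R pat b else Ym R pat e) hab (lam : ZMod p) (by simp [yz, hab.symm])
      (fun e he => by simp [yz, he])]
    have hY : ∀ e, Ym R pat e ∈ F 1 := fun e => Ym_mem I pat e
    refine evT_congr hF (fun e => hψ1 _) (fun e => ?_) (fun e => ?_) (Lie_le_Hom c ht.lie)
    · by_cases he : e = a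
      · rw [if_pos he]
        exact (F 1).sub_mem (diag_mem hxm) ((F 1).smul_mem _ (hY b))
      · rw [if_neg he]
        exact hY e
    · by_cases he : e = a
      · rw [if_pos he, he]
        exact hψa
      · rw [if_neg he, hψe e he, add_sub_cancel_left, sub_self]
        exact (F 2).zero_mem
  have e5 : Lam (p := p) A - evT (yz x a pat) (sig a b (lam : ZMod p) t) ∈ F (c + 1) := by
    have h1 := (F (c + 1)).add_mem ((F (c + 1)).add_mem e1 e2) ((F (c + 1)).add_mem e3 e4)
    convert h1 using 1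
    abel
  have e6 : x (Fin.last s) ^ (p - 2) *
      (evT (yz x a pat) (sig a b (lam : ZMod p) t)) 0 (Fin.last s) = 0 := by
    have h1 : (Lam (p := p) A - evT (yz x a pat) (sig a b (lam : ZMod p) t)) 0 (Fin.last s) ∈
        I ^ (c + 1 - s) := by
      have := (e5 0 (Fin.last s)).2
      simpa using this
    have h2 : x (Fin.last s) ^ (p - 2) *
        (Lam (p := p) A - evT (yz x a pat) (sig a b (lam : ZMod p) t)) 0 (Fin.last s) ∈
        I ^ (c + p - 1 - s) := by
      have h3 := Ideal.mul_mem_mul (Ideal.pow_mem_pow (hxm (Fin.last s)) (p - 2)) h1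
      rw [← pow_add] at h3
      have h4 : p - 2 + (c + 1 - s) = c + p - 1 - s := by have := hp.out.two_le; omega
      rwa [h4] at h3
    rw [hxI, Ideal.mem_bot, Matrix.sub_apply, mul_sub, hcor, zero_sub, neg_eq_zero] at h2
    exact h2
  have hsig : sig a b (lam : ZMod p) t ∈ Hom X p c := sig_mem_Hom a b _ (Lie_le_Hom c ht.lie)
  obtain ⟨f, hf1, hf2, hf3, hf4⟩ := entry (by omega) hx0 (hxp _) a hpat hsig
  rw [e6] at hf3
  exact hf4 (hxf f hf1 hf2 hf3.symm)

/-- The test theorem. -/
theorem test_thm {X : Type u} {p : ℕ} [hp : Fact p.Prime] {n m : ℕ} (hn : n = p * m)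
    (hm : ¬ p ∣ m) {φ : MulAut (Burn X p)} (hφ : Splits n φ) {c : ℕ} (hc : 2 ≤ c) (hcp : c < p)
    (hφc : ∀ b, φ b * b⁻¹ ∈ gam (Burn X p) c) {a b : X} (hab : a ≠ b) (lam : ℕ) {t : T X p}
    (ht : IsLead c ((lt a * lt b ^ lam)⁻¹ * φ (lt a * lt b ^ lam)) t) :
    ∀ w, Mid a c w → cf (sig a b (lam : ZMod p) t) w = 0 := by
  classical
  rintro w ⟨hw1, hw2, hw3⟩
  have hLc : (w.filter (fun e => e ≠ a)).length ≤ c := hw1 ▸ List.length_filter_le _ _
  have hL2 : 2 ≤ (w.filter (fun e => e ≠ a)).length := two_le_filter (by omega) hw2 hw3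
  refine test_pat hn hm hφ hc hcp hφc hab lam ht hL2 hLc
    (pat := fun i => (w.filter (fun e => e ≠ a)).get i) ?_ w hw1 (List.ofFn_get _).symm hw2 hw3
  intro i
  have h2 := (List.mem_filter.1 (List.get_mem (w.filter (fun e => e ≠ a)) i)).2
  simpa using h2

end Pool.Agent.Helper89.BI
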